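import Pool.Agent.Lib.MP_b07157_agYX.Defs
import Pool.Agent.Lib.MP_b07157_agYL.NodeR

/-!
# The chart of the blow-up in the coordinates of the normal form
-/

noncomputable section

namespace MPb07157

open MvPolynomial

namespace YX

open PC SU SI YL

/-- A chart `(u, y, x) ↦ u ξ(u, y, x)` in which `f = u^d (k(u, y) + x^e) U`. -/
structure IsChart (f : MvPolynomial (Fin 3) ℂ) (d : ℕ) (k : P2) (e : ℕ)
    (ξ : Fin 3 → MvPowerSeries (Fin 3) ℂ) (U D : MvPowerSeries (Fin 3) ℂ) : Prop where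
  hU : MvPowerSeries.constantCoeff U ≠ 0
  hD : MvPowerSeries.constantCoeff D ≠ 0
  hξ : ∃ i, MvPowerSeries.constantCoeff (ξ i) ≠ 0
  hf : (MvPowerSeries.subst (fun i => MvPowerSeries.X 0 * ξ i) (f : MvPowerSeries (Fin 3) ℂ) :
    MvPowerSeries (Fin 3) ℂ) = MvPowerSeries.X 0 ^ d * (kz k e * U)
  hdet : (Matrix.of fun i j : Fin 3 => MvPowerSeries.pderiv ℂ j
    (MvPowerSeries.X 0 * ξ i : MvPowerSeries (Fin 3) ℂ)).det = MvPowerSeries.X 0 ^ 2 * D

open YL.NodeRaux in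
/-- As in the proof of `YL.root_node_ueq` (`agYL/NodeR.lean`); `ξ_i = w' E⁻¹(chS_i)` is a unit for
`i = j₀`. -/
theorem exists_chart {f : MvPolynomial (Fin 3) ℂ} {d e : ℕ}
    (hlow : ∀ j < d, homogeneousComponent j f = 0) {q : Fin 3 → ℂ} {j₀ : Fin 3} {k : P2}
    (he : UEq2 (hg f d q j₀ : MvPowerSeries (Fin 3) ℂ) k e) :
    ∃ (ξ : Fin 3 → MvPowerSeries (Fin 3) ℂ) (U D : MvPowerSeries (Fin 3) ℂ),
      IsChart f d k e ξ U D := by
  obtain ⟨E, u, w, h1, h2⟩ := he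
  have hcc : ∀ {x : MvPowerSeries (Fin 3) ℂ}, IsUnit x → MvPowerSeries.constantCoeff x ≠ 0 := by
    intro x hx
    exact (hx.map (MvPowerSeries.constantCoeff (σ := Fin 3) (R := ℂ))).ne_zero
  -- the image of the first variable
  obtain ⟨w', hw', hw1⟩ : ∃ w' : MvPowerSeries (Fin 3) ℂ, IsUnit w' ∧
      E.symm (MvPowerSeries.X 0) = MvPowerSeries.X 0 * w' := by
    refine ⟨E.symm (↑(w⁻¹) : MvPowerSeries (Fin 3) ℂ), (w⁻¹).isUnit.map E.symm, ?_⟩
    have h3 : (MvPowerSeries.X 0 : MvPowerSeries (Fin 3) ℂ) =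
        E.symm (MvPowerSeries.X 0) * E.symm (w : MvPowerSeries (Fin 3) ℂ) := by
      rw [← map_mul, ← h2, AlgEquiv.symm_apply_apply]
    have h4 : E.symm (w : MvPowerSeries (Fin 3) ℂ) *
        E.symm (↑(w⁻¹) : MvPowerSeries (Fin 3) ℂ) = 1 := by
      rw [← map_mul, Units.mul_inv, map_one]
    calc E.symm (MvPowerSeries.X 0) = E.symm (MvPowerSeries.X 0) *
          (E.symm (w : MvPowerSeries (Fin 3) ℂ) *
            E.symm (↑(w⁻¹) : MvPowerSeries (Fin 3) ℂ)) := by rw [h4, mul_one]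
      _ = _ := by rw [← mul_assoc, ← h3]
  have hchP : ∀ i, E.symm ((chP q j₀ i : MvPolynomial (Fin 3) ℂ) : MvPowerSeries (Fin 3) ℂ) =
      MvPowerSeries.X 0 * (w' * E.symm (chS q j₀ i)) := by
    intro i
    rw [coe_chP, map_mul, hw1, mul_assoc]
  refine ⟨fun i => w' * E.symm (chS q j₀ i), w' ^ d * E.symm (u : MvPowerSeries (Fin 3) ℂ),
    (-1) ^ (j₀ : ℕ) * w' ^ 2 * (Matrix.of fun k j : Fin 3 => MvPowerSeries.pderiv ℂ j
      (E.symm (MvPowerSeries.X k : MvPowerSeries (Fin 3) ℂ))).det, ?_, ?_, ?_, ?_, ?_⟩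
  · exact hcc ((hw'.pow d).mul (u.isUnit.map E.symm))
  · refine hcc (((IsUnit.pow _ ?_).mul (hw'.pow 2)).mul (isUnit_det E.symm))
    exact isUnit_one.neg
  · refine ⟨j₀, hcc (hw'.mul ?_)⟩
    have h3 : chS q j₀ j₀ = 1 := by
      unfold chS
      rw [Fin.insertNth_apply_same]
    rw [h3, map_one]
    exact isUnit_one
  · rw [MvPowerSeries.subst_coe]
    have h5 := congrArg (fun p : MvPolynomial (Fin 3) ℂ => (p : MvPowerSeries (Fin 3) ℂ))
      (aeval_chP hlow q j₀)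
    have h6 : ((aeval (chP q j₀) f : MvPolynomial (Fin 3) ℂ) : MvPowerSeries (Fin 3) ℂ) =
        aeval (fun i => ((chP q j₀ i : MvPolynomial (Fin 3) ℂ) : MvPowerSeries (Fin 3) ℂ)) f := by
      have h7 : (MvPolynomial.coeToMvPowerSeries.ringHom (R := ℂ) (σ := Fin 3)).comp
          ((aeval (chP q j₀) : MvPolynomial (Fin 3) ℂ →ₐ[ℂ] MvPolynomial (Fin 3) ℂ) :
            MvPolynomial (Fin 3) ℂ →+* _) =
          ((aeval (fun i => ((chP q j₀ i : MvPolynomial (Fin 3) ℂ) : MvPowerSeries (Fin 3) ℂ)) :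
            MvPolynomial (Fin 3) ℂ →ₐ[ℂ] MvPowerSeries (Fin 3) ℂ) :
              MvPolynomial (Fin 3) ℂ →+* _) := by
        refine MvPolynomial.ringHom_ext (fun c => ?_) (fun i => ?_)
        · rw [RingHom.comp_apply, RingHom.coe_coe, RingHom.coe_coe, aeval_C, aeval_C]
          rw [MvPolynomial.algebraMap_eq, MvPolynomial.coeToMvPowerSeries.ringHom_apply,
            MvPolynomial.coe_C]
          rfl
        · rw [RingHom.comp_apply, RingHom.coe_coe, RingHom.coe_coe, aeval_X, aeval_X,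
            MvPolynomial.coeToMvPowerSeries.ringHom_apply]
      exact congrArg (fun φ : MvPolynomial (Fin 3) ℂ →+* MvPowerSeries (Fin 3) ℂ => φ f) h7
    have h9 := congrArg E.symm (h6.symm.trans h5)
    have h10 := MvPolynomial.comp_aeval_apply
      (fun i => ((chP q j₀ i : MvPolynomial (Fin 3) ℂ) : MvPowerSeries (Fin 3) ℂ))
      (E.symm : MvPowerSeries (Fin 3) ℂ →ₐ[ℂ] MvPowerSeries (Fin 3) ℂ) f
    have h11 : aeval (fun i => MvPowerSeries.X 0 * (w' * E.symm (chS q j₀ i))) f =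
        E.symm (aeval (fun i => ((chP q j₀ i : MvPolynomial (Fin 3) ℂ) :
          MvPowerSeries (Fin 3) ℂ)) f) := by
      refine Eq.trans ?_ h10.symm
      refine congrArg (fun a : Fin 3 → MvPowerSeries (Fin 3) ℂ => aeval a f) ?_
      funext i
      exact (hchP i).symm
    rw [h11, h9]
    show E.symm ((X 0 ^ d * hg f d q j₀ : MvPolynomial (Fin 3) ℂ) : MvPowerSeries (Fin 3) ℂ) = _
    rw [MvPolynomial.coe_mul, MvPolynomial.coe_pow, MvPolynomial.coe_X, h1, map_mul, map_pow, hw1,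
      map_mul, AlgEquiv.symm_apply_apply]
    ring
  · have h5 := det_equiv E.symm (fun i => MvPowerSeries.X 0 * chS q j₀ i)
    have h6 : (Matrix.of fun i j : Fin 3 => MvPowerSeries.pderiv ℂ j
        (MvPowerSeries.X 0 * (w' * E.symm (chS q j₀ i)) : MvPowerSeries (Fin 3) ℂ)) =
        Matrix.of fun i j : Fin 3 => MvPowerSeries.pderiv ℂ j
          (E.symm (MvPowerSeries.X 0 * chS q j₀ i)) := by
      ext1 i j
      simp only [Matrix.of_apply]
      rw [map_mul E.symm, hw1, mul_assoc]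
    rw [h6, h5, det_chS, map_mul, map_pow, map_neg, map_one, map_pow, hw1]
    ring

end YX

end MPb07157
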