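import Pool.Agent.Lib.MP_b07157_agYX.Kz
import Pool.Agent.Lib.MP_b07157_agYL.Glue

/-!
# The series of a line
-/

noncomputable section

namespace MPb07157

open MvPolynomial

namespace YX

open PC SU SI YL

/-- The series of a line as a zeta function `ZX`. As `YL.lineSer_eq_ZY` (`agYL/Glue.lean`). -/
theorem lineSer_eq_ZX {f : MvPolynomial (Fin 3) ℂ} {d : ℕ} (hd : 0 < d) {q : Fin 3 → ℂ}
    {j₀ : Fin 3} (hq : q j₀ = 1) {k : P2}
    (hk : UEq2 (hg f d q j₀ : MvPowerSeries (Fin 3) ℂ) k 2) {K : ℕ} (hK : 1 ≤ K) :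
    lineSer f d q = ZX k (fun _ : Fin 1 => 2) 3 d 0 K := by
  unfold lineSer serK ZX
  ext m
  rw [PowerSeries.coeff_mk, PowerSeries.coeff_mk]
  have hmN : m + 1 ≤ K * (m + 1) := Nat.le_mul_of_pos_left _ (by omega)
  obtain ⟨N, hN⟩ : ∃ N, K * (m + 1) = N + 1 := ⟨K * (m + 1) - 1, by omega⟩
  rw [hN] at hmN ⊢
  have hsub : Finset.Icc 1 m ⊆ Finset.Icc 1 (N + 1) := Finset.Icc_subset_Icc_right (by omega)
  rw [Finset.sum_subset hsub]
  · refine Finset.sum_congr rfl fun j hj => ?_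
    rw [Finset.mem_Icc] at hj
    by_cases hjm : d * j ≤ m
    · have hjm' : j ≤ m := le_trans (Nat.le_mul_of_pos_left _ hd) hjm
      rw [if_pos hjm, if_pos hjm]
      have h2 := AKm_kz (N := N) (j := j) (i := m - d * j) two_pos hk hj.1 (by omega) (by omega)
      have h4 := AKm_eq_Mk f (d := d) (k := j) hj.1 hq (N := N) (i := m - d * j) (by
        have : j ≤ d * j := Nat.le_mul_of_pos_left _ hd
        omega)
      rw [Nat.zero_mul, ← h2, h4, Lp_eq_ell, ← mul_assoc, ← pow_add]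
      congr 2
      omega
    · rw [if_neg hjm, if_neg hjm]
  · intro j hj hj'
    rw [Finset.mem_Icc] at hj hj'
    refine if_neg fun h => hj' ⟨hj.1, le_trans (Nat.le_mul_of_pos_left _ hd) h⟩

end YX

end MPb07157
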