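import Pool.Agent.Lib.MP_b07157_agYX.Ch2
import Pool.Agent.Lib.MP_b07157_agYL.ResE

/-!
# The residue lemma in the chart of the normal form
-/

noncomputable section

namespace MPb07157

open MvPolynomial TensorProduct

namespace YX

open PC SU SI YL

namespace Res2

/-- Two homomorphisms of rings of power series which agree on the variables are equal. -/
theorem hom_eq {τ R : Type} [CommRing R] [Algebra ℂ R] {n : ℕ}
    {θ θ' : MvPowerSeries (Fin n) ℂ →ₐ[ℂ] MvPowerSeries τ R}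
    (hθ : ∀ i, MvPowerSeries.constantCoeff (θ (MvPowerSeries.X i)) = 0)
    (hX : ∀ i, θ (MvPowerSeries.X i) = θ' (MvPowerSeries.X i)) (h : MvPowerSeries (Fin n) ℂ) :
    θ h = θ' h := by
  have hC : ∀ (φ : MvPowerSeries (Fin n) ℂ →ₐ[ℂ] MvPowerSeries τ R) (c : ℂ),
      φ (MvPowerSeries.C c) = algebraMap ℂ _ c := fun φ c => φ.commutes c
  have hord : ∀ (N : ℕ) (h : MvPowerSeries (Fin n) ℂ), (N : ℕ∞) ≤ (θ h - θ' h).order := by
    intro N
    induction N with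
    | zero => intro h; exact bot_le
    | succ N ih =>
      intro h
      have h1 : LowZ (0 + 1) (h - MvPowerSeries.C (MvPowerSeries.constantCoeff h)) := by
        intro v hv
        have hv0 : v = 0 := by
          ext i
          have := Finset.single_le_sum (f := fun i => v i) (fun _ _ => Nat.zero_le _)
            (Finset.mem_univ i)
          rw [Finsupp.zero_apply]
          omega
        rw [hv0, map_sub, MvPowerSeries.coeff_zero_C]
        exact sub_self _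
      obtain ⟨g, -, hg⟩ := h1.decomp
      have h2 : h = MvPowerSeries.C (MvPowerSeries.constantCoeff h) +
          ∑ i, MvPowerSeries.X i * g i := by
        rw [← hg]; ring
      have h3 : θ h - θ' h = ∑ i, θ (MvPowerSeries.X i) * (θ (g i) - θ' (g i)) := by
        conv_lhs => rw [h2]
        rw [map_add, map_add, hC, hC, map_sum, map_sum, add_sub_add_left_eq_sub,
          ← Finset.sum_sub_distrib]
        refine Finset.sum_congr rfl fun i _ => ?_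
        rw [map_mul, map_mul, ← hX i]
        ring
      rw [h3]
      refine MvPowerSeries.le_order fun v hv => ?_
      rw [map_sum]
      refine Finset.sum_eq_zero fun i _ => ?_
      refine MvPowerSeries.coeff_of_lt_order (lt_of_lt_of_le hv ?_)
      refine le_trans ?_ MvPowerSeries.le_order_mul
      rw [Nat.cast_succ, add_comm]
      exact add_le_add (MvPowerSeries.one_le_order_iff_constCoeff_eq_zero.2 (hθ i)) (ih _)
  have hfin : θ h - θ' h = 0 := by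
    rw [← MvPowerSeries.order_eq_top_iff, ENat.eq_top_iff_forall_ge]
    exact fun N => hord N h
  exact sub_eq_zero.1 hfin

section

variable {K : Type} [Field K] [Algebra ℂ K] {K' : Type} [CommRing K'] [Algebra ℂ K']
  {B : Type} [CommRing B] [Algebra ℂ B]

/-- The images of `u, y, x`. -/
def im (i : K →ₐ[ℂ] K') {e : ℕ} (he : e ≠ 0) (w : K') (T : B) (N : ℕ)
    (Θ : Fin 2 → PowerSeries K) : Fin 3 → MvPowerSeries Unit (K' ⊗[ℂ] B) :=
  ![iS B (eE i he (Θ 0)), iS B (eE i he (Θ 1)), ucE w T N]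

variable (i : K →ₐ[ℂ] K') {e : ℕ} (he : e ≠ 0) (w : K') (T : B) {N : ℕ} (hN : 0 < N)
  {Θ : Fin 2 → PowerSeries K} (h0 : ∀ i, PowerSeries.constantCoeff (Θ i) = 0)

include hN h0

theorem im_zero (j : Fin 3) : MvPowerSeries.constantCoeff (im i he w T N Θ j) = 0 := by
  have h1 : ∀ j, MvPowerSeries.constantCoeff (iS B (eE i he (Θ j))) = 0 := fun j => by
    rw [constantCoeff_iS, constantCoeff_eE i he (h0 j), TensorProduct.zero_tmul]
  fin_cases j
  · exact h1 0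
  · exact h1 1
  · show MvPowerSeries.constantCoeff (ucE w T N) = 0
    unfold ucE
    rw [map_mul, map_pow, MvPowerSeries.constantCoeff_X, zero_pow hN.ne', mul_zero]

theorem im_hs : MvPowerSeries.HasSubst (im i he w T N Θ) :=
  MvPowerSeries.hasSubst_of_constantCoeff_zero (im_zero i he w T hN h0)

/-- The substitution. -/
def ps : MvPowerSeries (Fin 3) ℂ →ₐ[ℂ] MvPowerSeries Unit (K' ⊗[ℂ] B) :=
  MvPowerSeries.substAlgHom (im_hs i he w T hN h0)

theorem ps_X (j : Fin 3) : ps i he w T hN h0 (MvPowerSeries.X j) = im i he w T N Θ j :=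
  MvPowerSeries.substAlgHom_X (im_hs i he w T hN h0) j

theorem ps_zero (j : Fin 3) :
    MvPowerSeries.constantCoeff (ps i he w T hN h0 (MvPowerSeries.X j)) = 0 := by
  rw [ps_X]
  exact im_zero i he w T hN h0 j

theorem cc_ps (g : MvPowerSeries (Fin 3) ℂ) :
    MvPowerSeries.constantCoeff (ps i he w T hN h0 g) =
      algebraMap ℂ (K' ⊗[ℂ] B) (MvPowerSeries.constantCoeff g) := by
  have h1 : g = MvPowerSeries.C (MvPowerSeries.constantCoeff g) +
      (g - MvPowerSeries.C (MvPowerSeries.constantCoeff g)) := by ring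
  have h2 : MvPowerSeries.constantCoeff (g - MvPowerSeries.C (MvPowerSeries.constantCoeff g)) =
      0 := by
    rw [map_sub, MvPowerSeries.constantCoeff_C, sub_self]
  have h3 : MvPowerSeries.constantCoeff (ps i he w T hN h0
      (g - MvPowerSeries.C (MvPowerSeries.constantCoeff g))) = 0 := by
    unfold ps
    rw [MvPowerSeries.coe_substAlgHom]
    exact MvPowerSeries.constantCoeff_subst_eq_zero (im_hs i he w T hN h0)
      (im_zero i he w T hN h0) h2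
  have h4 : ps i he w T hN h0 (MvPowerSeries.C (MvPowerSeries.constantCoeff g)) =
      algebraMap ℂ _ (MvPowerSeries.constantCoeff g) := (ps i he w T hN h0).commutes _
  conv_lhs => rw [h1]
  rw [map_add, map_add, h3, add_zero, h4, MvPowerSeries.algebraMap_apply,
    MvPowerSeries.constantCoeff_C]

/-- The value of `k(u, y) + x^e`. -/
theorem ps_kz (k : P2) : ps i he w T hN h0 (kz k e) =
    iS B (eE i he (MvPowerSeries.subst (Θ : Fin 2 → MvPowerSeries Unit K) k : PowerSeries K)) +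
      ucE w T N ^ e := by
  have hcs : MvPowerSeries.HasSubst (fun j : Fin 2 =>
      (MvPowerSeries.X j.castSucc : MvPowerSeries (Fin 3) ℂ)) :=
    MvPowerSeries.hasSubst_of_constantCoeff_zero fun j => MvPowerSeries.constantCoeff_X _
  have hΘs : MvPowerSeries.HasSubst (Θ : Fin 2 → MvPowerSeries Unit K) :=
    MvPowerSeries.hasSubst_of_constantCoeff_zero h0
  let A₁ : MvPowerSeries (Fin 2) ℂ →ₐ[ℂ] MvPowerSeries Unit (K' ⊗[ℂ] B) :=
    (ps i he w T hN h0).comp (MvPowerSeries.substAlgHom hcs)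
  let A₂ : MvPowerSeries (Fin 2) ℂ →ₐ[ℂ] MvPowerSeries Unit (K' ⊗[ℂ] B) :=
    (iS B).comp ((eE i he).comp (MvPowerSeries.substAlgHom hΘs))
  have hA₁ : ∀ j, A₁ (MvPowerSeries.X j) = im i he w T N Θ j.castSucc := fun j => by
    show ps i he w T hN h0 (MvPowerSeries.substAlgHom hcs (MvPowerSeries.X j)) = _
    rw [MvPowerSeries.substAlgHom_X hcs j, ps_X]
  have hA₂ : ∀ j, A₂ (MvPowerSeries.X j) = iS B (eE i he (Θ j)) := fun j => by
    show iS B (eE i he (MvPowerSeries.substAlgHom hΘs (MvPowerSeries.X j))) = _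
    rw [MvPowerSeries.substAlgHom_X hΘs j]
  have h1 : A₁ k = A₂ k := by
    refine hom_eq (fun j => ?_) (fun j => ?_) k
    · rw [hA₁]
      exact im_zero i he w T hN h0 _
    · rw [hA₁, hA₂]
      fin_cases j
      · rfl
      · rfl
  have h2 : A₁ k = ps i he w T hN h0 (MvPowerSeries.subst (fun j : Fin 2 =>
      (MvPowerSeries.X j.castSucc : MvPowerSeries (Fin 3) ℂ)) k) := by
    show ps i he w T hN h0 (MvPowerSeries.substAlgHom hcs k) = _
    rw [MvPowerSeries.coe_substAlgHom]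
  have h3 : A₂ k = iS B (eE i he (MvPowerSeries.subst (Θ : Fin 2 → MvPowerSeries Unit K) k :
      PowerSeries K)) := by
    show iS B (eE i he (MvPowerSeries.substAlgHom hΘs k)) = _
    rw [MvPowerSeries.coe_substAlgHom]
  unfold kz
  rw [map_add, map_pow, ps_X, ← h2, h1, h3]
  rfl

/-- The value of `f`. -/
theorem ps_f {f : MvPolynomial (Fin 3) ℂ} {d : ℕ} {k : P2}
    {ξ : Fin 3 → MvPowerSeries (Fin 3) ℂ} {U : MvPowerSeries (Fin 3) ℂ}
    (hf : (MvPowerSeries.subst (fun i => MvPowerSeries.X 0 * ξ i)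
      (f : MvPowerSeries (Fin 3) ℂ) : MvPowerSeries (Fin 3) ℂ) =
        MvPowerSeries.X 0 ^ d * (kz k e * U)) :
    aeval (fun l => ps i he w T hN h0 (MvPowerSeries.X 0 * ξ l)) f =
      iS B (eE i he (Θ 0)) ^ d * ((iS B (eE i he (MvPowerSeries.subst
        (Θ : Fin 2 → MvPowerSeries Unit K) k : PowerSeries K)) + ucE w T N ^ e) *
          ps i he w T hN h0 U) := by
  have h1 : aeval (fun l => ps i he w T hN h0 (MvPowerSeries.X 0 * ξ l)) f =
      ps i he w T hN h0 (MvPowerSeries.subst (fun i => MvPowerSeries.X 0 * ξ i)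
        (f : MvPowerSeries (Fin 3) ℂ)) := by
    rw [MvPowerSeries.subst_coe]
    have h2 := comp_aeval (R := ℂ) (fun i => MvPowerSeries.X 0 * ξ i) (ps i he w T hN h0)
    exact (DFunLike.congr_fun h2 f).symm
  rw [h1, hf, map_mul, map_mul, map_pow, ps_X, ps_kz]
  rfl

omit hN h0 in
/-- The leading term. -/
theorem lead {h h₁ : PowerSeries K} {m : ℕ} {a : K}
    (hh : h = PowerSeries.X ^ m * (PowerSeries.C a + PowerSeries.X * h₁)) :
    iS B (eE i he h) = MvPowerSeries.X () ^ (e * m) *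
      (MvPowerSeries.C (i a ⊗ₜ[ℂ] (1 : B)) + MvPowerSeries.X () ^ e * iS B (eE i he h₁)) := by
  rw [hh, map_mul, map_mul, map_pow, map_pow, map_add, map_add, map_mul, map_mul, eE_X, eE_C,
    map_pow, iS_X, iS_C, ← pow_mul]

/-- The Jacobian determinant. -/
theorem det_ps {δ : Derivation ℂ K K} {δ₁ : Derivation ℂ K' K'}
    (hδ : ∀ a, δ₁ (i a) = i (δ a)) (δ' : Derivation ℂ B B)
    {z : Fin 3 → MvPowerSeries (Fin 3) ℂ} {D : MvPowerSeries (Fin 3) ℂ}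
    (hJ : (Matrix.of fun i j => MvPowerSeries.pderiv ℂ j (z i)).det =
      MvPowerSeries.X 0 ^ 2 * D) {D' : Fin 2 → Derivation ℂ (K' ⊗[ℂ] B) (K' ⊗[ℂ] B)}
    (hD0 : D' 0 = dL δ₁) (hD1 : D' 1 = dR δ') {e' : Fin 3 → Unit ⊕ Fin 2}
    (he0 : e' 0 = Sum.inl ()) (he1 : e' 1 = Sum.inr 0) (he2 : e' 2 = Sum.inr 1) :
    (ARL.jm (fun a => ARL.rowD D' (e' a)) fun l => ps i he w T hN h0 (z l)).det =
      (MvPowerSeries.C (w ⊗ₜ[ℂ] δ' T) * MvPowerSeries.X () ^ N) *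
        ((e : MvPowerSeries Unit (K' ⊗[ℂ] B)) *
          (MvPowerSeries.X () ^ e * iS B (eE i he (PC.jacK δ Θ)))) *
        (iS B (eE i he (Θ 0)) ^ 2 * ps i he w T hN h0 D) := by
  set M : Matrix (Fin 3) (Fin 3) (MvPowerSeries Unit (K' ⊗[ℂ] B)) :=
    Matrix.of fun a j => ARL.rowD D' (e' a) (im i he w T N Θ j) with hM
  have h1 : (ARL.jm (fun a => ARL.rowD D' (e' a)) fun l => ps i he w T hN h0 (z l)) =
      M * ((Matrix.of fun i j => MvPowerSeries.pderiv ℂ j (z i)).map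
        (ps i he w T hN h0)).transpose := by
    ext1 a l
    rw [Matrix.mul_apply]
    show ARL.rowD D' (e' a) (ps i he w T hN h0 (z l)) = _
    rw [ARL.chain (ps_zero i he w T hN h0) _ (z l)]
    refine Finset.sum_congr rfl fun j _ => ?_
    rw [ps_X, mul_comm]
    rfl
  have h2 : ((Matrix.of fun i j => MvPowerSeries.pderiv ℂ j (z i)).map
      (ps i he w T hN h0)).det =
      ps i he w T hN h0 (Matrix.of fun i j => MvPowerSeries.pderiv ℂ j (z i)).det :=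
    (AlgHom.map_det (ps i he w T hN h0) _).symm
  have h3 : M.det = (MvPowerSeries.C (w ⊗ₜ[ℂ] δ' T) * MvPowerSeries.X () ^ N) *
        ((e : MvPowerSeries Unit (K' ⊗[ℂ] B)) *
          (MvPowerSeries.X () ^ e * iS B (eE i he (PC.jacK δ Θ)))) := by
    have k00 : M 0 0 = ARL.lg () (iS B (eE i he (Θ 0))) := by
      show ARL.rowD D' (e' 0) _ = _
      rw [he0]
      rfl
    have k01 : M 0 1 = ARL.lg () (iS B (eE i he (Θ 1))) := by
      show ARL.rowD D' (e' 0) _ = _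
      rw [he0]
      rfl
    have k10 : M 1 0 = ARL.cw (dL δ₁) (iS B (eE i he (Θ 0))) := by
      show ARL.rowD D' (e' 1) _ = _
      rw [he1, ← hD0]
      rfl
    have k11 : M 1 1 = ARL.cw (dL δ₁) (iS B (eE i he (Θ 1))) := by
      show ARL.rowD D' (e' 1) _ = _
      rw [he1, ← hD0]
      rfl
    have k20 : M 2 0 = 0 := by
      rw [← cw_dR_iS B δ' (eE i he (Θ 0))]
      show ARL.rowD D' (e' 2) _ = _
      rw [he2, ← hD1]
      rfl
    have k21 : M 2 1 = 0 := by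
      rw [← cw_dR_iS B δ' (eE i he (Θ 1))]
      show ARL.rowD D' (e' 2) _ = _
      rw [he2, ← hD1]
      rfl
    have k22 : M 2 2 = MvPowerSeries.C (w ⊗ₜ[ℂ] δ' T) * MvPowerSeries.X () ^ N := by
      rw [← cw_dR_ucE δ' w T N]
      show ARL.rowD D' (e' 2) _ = _
      rw [he2, ← hD1]
      rfl
    have hj := jac_iS_eE (B := B) i he hδ (Θ := Θ) (fun _ => 0)
    simp only [map_zero, add_zero] at hj
    rw [Matrix.det_fin_three, k00, k01, k10, k11, k20, k21, k22, ← hj]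
    ring
  rw [h1, Matrix.det_mul, Matrix.det_transpose, h2, hJ, h3, map_mul, map_pow, ps_X]
  rfl

end

end Res2

variable {K : Type} [Field K] [Algebra ℂ K] {K' : Type} [CommRing K'] [Algebra ℂ K']
  {B : Type} [Field B] [Algebra ℂ B]

/-- **The residue lemma.** As `YL.residue_chart_e` (`agYL/ResE.lean`): `(u, y) = Θ(t^e)`,
`x = t^N w T`; then `f = t^(e (d m + N)) (U(0) i(u₀)^d w^e ⊗ (1 + T^e) + O(t))`, and the Jacobian
determinant (in `log t`) is `± t^(2 e m + N + e ν) (e D(0) i(u₀^2 J₀) w ⊗ 1 + O(t))`. -/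
theorem residue_kz {f : MvPolynomial (Fin 3) ℂ} {d e : ℕ} (he : 0 < e) {k : P2}
    {ξ : Fin 3 → MvPowerSeries (Fin 3) ℂ} {U D : MvPowerSeries (Fin 3) ℂ}
    (hc : IsChart f d k e ξ U D) {s : ℂ} {ν N m : ℕ} (hN : 0 < N) (hν : 0 < ν) (hm : 0 < m)
    (hs : s * ((e : ℂ) * (d * m + N)) = -((e : ℂ) * ν + 2 * e * m + N))
    {b : Polynomial ℂ} (hb : InPs (f : MvPowerSeries (Fin 3) ℂ) 1
      (b.map (MvPowerSeries.C (σ := Fin 3) (R := ℂ)))) (hb0 : b.eval s ≠ 0)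
    (i : K →ₐ[ℂ] K') (δ : Derivation ℂ K K) (δ₁ : Derivation ℂ K' K')
    (hδ : ∀ a, δ₁ (i a) = i (δ a)) {J₀ f₀ u₀ : K} (hf₀ : f₀ ≠ 0) (hu₀ : u₀ ≠ 0) (w : K'ˣ)
    (hw : (w : K') ^ e = i f₀) (δ' : Derivation ℂ B B) {T : B} (hT1 : 1 + T ^ e ≠ 0)
    (hδT : δ' T = 1) {Θ : Fin 2 → PowerSeries K} (h0 : ∀ i, PowerSeries.constantCoeff (Θ i) = 0)
    {J₁ F₁ U₁ : PowerSeries K}
    (hJ : PC.jacK δ Θ = PowerSeries.X ^ (ν - 1) * (PowerSeries.C J₀ + PowerSeries.X * J₁))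
    (hF : (MvPowerSeries.subst (Θ : Fin 2 → MvPowerSeries Unit K) k : PowerSeries K) =
      PowerSeries.X ^ N * (PowerSeries.C f₀ + PowerSeries.X * F₁))
    (hΘ : Θ 0 = PowerSeries.X ^ m * (PowerSeries.C u₀ + PowerSeries.X * U₁)) :
    ∃ r₀ r₁ : K' ⊗[ℂ] B, ((w : K') * i (u₀ ^ 2 * J₀)) ⊗ₜ (1 : B) =
      dL δ₁ r₀ + ((algebraMap ℂ K' s * i ((d : K) * (δ u₀ / u₀) + δ f₀ / f₀)) ⊗ₜ[ℂ] (1 : B)) *
        r₀ +
      (dR δ' r₁ + ((1 : K') ⊗ₜ[ℂ] (algebraMap ℂ B s *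
        ((1 + T ^ e)⁻¹ * δ' (1 + T ^ e)))) * r₁) := by
  classical
  have he' : e ≠ 0 := he.ne'
  set X' : MvPowerSeries Unit (K' ⊗[ℂ] B) := MvPowerSeries.X () with hX'
  -- the substitution
  have hX0 : ∀ l, MvPowerSeries.constantCoeff (Res2.ps i he' (w : K') T hN h0
      (MvPowerSeries.X 0 * ξ l)) = 0 := fun l => by
    rw [Res2.cc_ps, map_mul, MvPowerSeries.constantCoeff_X, zero_mul, map_zero]
  have hsub : MvPowerSeries.HasSubst (fun l => Res2.ps i he' (w : K') T hN h0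
      (MvPowerSeries.X 0 * ξ l)) :=
    MvPowerSeries.hasSubst_of_constantCoeff_zero hX0
  set θ : MvPowerSeries (Fin 3) ℂ →ₐ[ℂ] MvPowerSeries Unit (K' ⊗[ℂ] B) :=
    MvPowerSeries.substAlgHom hsub with hθ
  have hθX : ∀ l, θ (MvPowerSeries.X l) = Res2.ps i he' (w : K') T hN h0
      (MvPowerSeries.X 0 * ξ l) := fun l => by
    rw [hθ, MvPowerSeries.substAlgHom_X]
  have hθf : θ (f : MvPowerSeries (Fin 3) ℂ) = aeval (fun l => Res2.ps i he' (w : K') T hN h0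
      (MvPowerSeries.X 0 * ξ l)) f := by
    rw [hθ, MvPowerSeries.coe_substAlgHom, MvPowerSeries.subst_coe]
  -- the value of `f`
  have l0 := Res2.lead (B := B) i he' hΘ
  have lF := Res2.lead (B := B) i he' hF
  have lJ := Res2.lead (B := B) i he' hJ
  rw [← hX'] at l0 lF lJ
  obtain ⟨V₀, hV₀⟩ : ∃ V₀ : MvPowerSeries Unit (K' ⊗[ℂ] B), V₀ =
      MvPowerSeries.C (i u₀ ⊗ₜ[ℂ] (1 : B)) + X' ^ e * iS B (eE i he' U₁) := ⟨_, rfl⟩
  obtain ⟨V₁, hV₁⟩ : ∃ V₁ : MvPowerSeries Unit (K' ⊗[ℂ] B), V₁ =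
      MvPowerSeries.C (i f₀ ⊗ₜ[ℂ] (1 + T ^ e)) + X' ^ e * iS B (eE i he' F₁) := ⟨_, rfl⟩
  obtain ⟨V₂, hV₂⟩ : ∃ V₂ : MvPowerSeries Unit (K' ⊗[ℂ] B), V₂ =
      MvPowerSeries.C (i J₀ ⊗ₜ[ℂ] (1 : B)) + X' ^ e * iS B (eE i he' J₁) := ⟨_, rfl⟩
  rw [← hV₀] at l0
  rw [← hV₂] at lJ
  have hucE : ucE (w : K') T N ^ e = X' ^ (e * N) * MvPowerSeries.C (i f₀ ⊗ₜ[ℂ] (T ^ e)) := by
    unfold ucE
    rw [mul_pow, ← map_pow, Algebra.TensorProduct.tmul_pow, hw, ← pow_mul, mul_comm N e, ← hX',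
      mul_comm]
  have hkz : iS B (eE i he' (MvPowerSeries.subst (Θ : Fin 2 → MvPowerSeries Unit K) k :
      PowerSeries K)) + ucE (w : K') T N ^ e = X' ^ (e * N) * V₁ := by
    rw [lF, hucE, hV₁, TensorProduct.tmul_add, map_add]
    ring
  have hVf : θ (f : MvPowerSeries (Fin 3) ℂ) =
      MvPowerSeries.monomial (Finsupp.single () (e * (d * m + N))) 1 *
        (V₀ ^ d * (V₁ * Res2.ps i he' (w : K') T hN h0 U)) := by
    rw [hθf, Res2.ps_f i he' (w : K') T hN h0 hc.hf, l0, hkz, ← MvPowerSeries.X_pow_eq, ← hX']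
    ring
  have hcB : ∀ x : ℂ, algebraMap ℂ (K' ⊗[ℂ] B) x = (1 : K') ⊗ₜ[ℂ] (algebraMap ℂ B x) := by
    intro x
    rw [Algebra.TensorProduct.algebraMap_apply, Algebra.algebraMap_eq_smul_one,
      TensorProduct.smul_tmul, Algebra.algebraMap_eq_smul_one]
  have hcK : ∀ x : ℂ, algebraMap ℂ (K' ⊗[ℂ] B) x = (algebraMap ℂ K' x) ⊗ₜ[ℂ] (1 : B) := by
    intro x
    rw [Algebra.TensorProduct.algebraMap_apply]
  -- the unit
  set cU : ℂ := MvPowerSeries.constantCoeff U with hcU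
  set cD : ℂ := MvPowerSeries.constantCoeff D with hcD
  obtain ⟨P, hP⟩ : ∃ P : B, P = algebraMap ℂ B cU * (1 + T ^ e) := ⟨_, rfl⟩
  have hcU0 : algebraMap ℂ B cU ≠ 0 :=
    (map_ne_zero_iff _ (algebraMap ℂ B).injective).2 hc.hU
  have hP0 : P ≠ 0 := by
    rw [hP]
    exact mul_ne_zero hcU0 hT1
  obtain ⟨g₀, hg₀⟩ : ∃ g₀ : K, g₀ = u₀ ^ d * f₀ := ⟨_, rfl⟩
  have hg0 : g₀ ≠ 0 := by
    rw [hg₀]
    exact mul_ne_zero (pow_ne_zero _ hu₀) hf₀
  have hgg : i g₀ * i g₀⁻¹ = 1 := by rw [← map_mul, mul_inv_cancel₀ hg0, map_one]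
  let φ : (K' ⊗[ℂ] B)ˣ := ⟨(i g₀) ⊗ₜ[ℂ] P, (i g₀⁻¹) ⊗ₜ[ℂ] P⁻¹, by
    rw [Algebra.TensorProduct.tmul_mul_tmul, hgg, mul_inv_cancel₀ hP0]; rfl, by
    rw [Algebra.TensorProduct.tmul_mul_tmul, mul_comm (i g₀⁻¹), hgg,
      inv_mul_cancel₀ hP0]; rfl⟩
  have hφ1 : (φ : K' ⊗[ℂ] B) = (i g₀) ⊗ₜ[ℂ] P := rfl
  have hφ2 : ((φ⁻¹ : (K' ⊗[ℂ] B)ˣ) : K' ⊗[ℂ] B) = (i g₀⁻¹) ⊗ₜ[ℂ] P⁻¹ := rfl
  have c0 : MvPowerSeries.constantCoeff V₀ = i u₀ ⊗ₜ[ℂ] (1 : B) := by
    rw [hV₀, map_add, map_mul, map_pow, MvPowerSeries.constantCoeff_C, hX',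
      MvPowerSeries.constantCoeff_X, zero_pow he', zero_mul, add_zero]
  have c1 : MvPowerSeries.constantCoeff V₁ = i f₀ ⊗ₜ[ℂ] (1 + T ^ e) := by
    rw [hV₁, map_add, map_mul, map_pow, MvPowerSeries.constantCoeff_C, hX',
      MvPowerSeries.constantCoeff_X, zero_pow he', zero_mul, add_zero]
  have c2 : MvPowerSeries.constantCoeff V₂ = i J₀ ⊗ₜ[ℂ] (1 : B) := by
    rw [hV₂, map_add, map_mul, map_pow, MvPowerSeries.constantCoeff_C, hX',
      MvPowerSeries.constantCoeff_X, zero_pow he', zero_mul, add_zero]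
  have hφ : MvPowerSeries.constantCoeff (V₀ ^ d * (V₁ * Res2.ps i he' (w : K') T hN h0 U)) =
      φ := by
    rw [map_mul, map_mul, map_pow, c0, c1, Res2.cc_ps, ← hcU, hcB,
      Algebra.TensorProduct.tmul_pow, one_pow, Algebra.TensorProduct.tmul_mul_tmul,
      Algebra.TensorProduct.tmul_mul_tmul, hφ1, hP, hg₀, map_mul, map_pow, mul_one, one_mul,
      mul_comm (1 + T ^ e)]
  -- the derivations
  let D' : Fin 2 → Derivation ℂ (K' ⊗[ℂ] B) (K' ⊗[ℂ] B) := ![dL δ₁, dR δ']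
  have hD' : ∀ b b' x, D' b (D' b' x) = D' b' (D' b x) := by
    intro b b' x
    fin_cases b <;> fin_cases b'
    · rfl
    · exact dL_dR δ₁ δ' x
    · exact (dL_dR δ₁ δ' x).symm
    · rfl
  let e' : Fin 3 → Unit ⊕ Fin 2 := ![Sum.inl (), Sum.inr 0, Sum.inr 1]
  -- the Jacobian
  have hdet : (ARL.jm (fun l => ARL.rowD D' (e' l)) fun l => θ (MvPowerSeries.X l)).det =
      MvPowerSeries.monomial (Finsupp.single () (e * ν + 2 * e * m + N)) 1 *
        (MvPowerSeries.C ((w : K') ⊗ₜ[ℂ] (1 : B)) * ((e : MvPowerSeries Unit (K' ⊗[ℂ] B)) * V₂) *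
          (V₀ ^ 2 * Res2.ps i he' (w : K') T hN h0 D)) := by
    rw [funext hθX, Res2.det_ps i he' (w : K') T hN h0 hδ δ' hc.hdet (D' := D') (e' := e')
      rfl rfl rfl rfl rfl, hδT, l0, lJ, ← MvPowerSeries.X_pow_eq, ← hX']
    obtain ⟨ν', rfl⟩ : ∃ ν', ν = ν' + 1 := ⟨ν - 1, by omega⟩
    rw [Nat.add_sub_cancel]
    ring
  have hDN : 0 < e * (d * m + N) := Nat.mul_pos he (by omega)
  have hDC : ((e : ℂ) * (d * m + N)) ≠ 0 := by exact_mod_cast hDN.ne'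
  have hs1 : s = -(((e * ν + 2 * e * m + N : ℕ) : ℂ) / ((e * (d * m + N) : ℕ) : ℂ)) := by
    push_cast
    rw [← neg_div, eq_div_iff hDC]
    linear_combination hs
  obtain ⟨r, hr⟩ := ARL.residue_corner (τ := Unit) (β := Fin 2) e' hD' (θ := θ)
    (fun l => by rw [hθX]; exact hX0 l) hVf hφ (ν := e * ν + 2 * e * m + N)
    (D := e * (d * m + N)) hDN hs1 (Mon := ∅) (M := fun _ => 0) (by simp)
    (l := fun _ => 0) hdet (fun j => by
      rw [Finsupp.single_apply, Finsupp.single_apply, if_pos (Subsingleton.elim _ _),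
        if_pos (Subsingleton.elim _ _), Finset.sum_empty, add_zero]
      push_cast
      linear_combination hs) (j₀ := ()) (by
      rw [Finsupp.single_eq_same]; exact hDN) (by simp) hb hb0
  -- the constant coefficient
  obtain ⟨κ, hκ⟩ : ∃ κ : K' ⊗[ℂ] B, κ = algebraMap ℂ (K' ⊗[ℂ] B) ((e : ℂ)⁻¹ * cD⁻¹) := ⟨_, rfl⟩
  have heC : (e : ℂ) ≠ 0 := by exact_mod_cast he'
  have hcD0 : cD ≠ 0 := hc.hD
  have hleft : κ * MvPowerSeries.constantCoeff (MvPowerSeries.C ((w : K') ⊗ₜ[ℂ] (1 : B)) *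
      ((e : MvPowerSeries Unit (K' ⊗[ℂ] B)) * V₂) *
        (V₀ ^ 2 * Res2.ps i he' (w : K') T hN h0 D)) =
      ((w : K') * i (u₀ ^ 2 * J₀)) ⊗ₜ[ℂ] (1 : B) := by
    rw [map_mul, map_mul, map_mul, map_mul, map_pow, map_natCast, MvPowerSeries.constantCoeff_C,
      c0, c2, Res2.cc_ps, ← hcD, Algebra.TensorProduct.tmul_pow, one_pow, hκ,
      ← map_natCast (algebraMap ℂ (K' ⊗[ℂ] B)) e]
    have h1 : algebraMap ℂ (K' ⊗[ℂ] B) ((e : ℂ)⁻¹ * cD⁻¹) *
        (algebraMap ℂ (K' ⊗[ℂ] B) (e : ℂ) * algebraMap ℂ (K' ⊗[ℂ] B) cD) = 1 := by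
      rw [← map_mul, ← map_mul, show (e : ℂ)⁻¹ * cD⁻¹ * ((e : ℂ) * cD) = 1 by field_simp, map_one]
    have h2 : (w : K') ⊗ₜ[ℂ] (1 : B) * (i J₀ ⊗ₜ[ℂ] (1 : B)) * ((i u₀ ^ 2) ⊗ₜ[ℂ] (1 : B)) =
        ((w : K') * i (u₀ ^ 2 * J₀)) ⊗ₜ[ℂ] (1 : B) := by
      rw [Algebra.TensorProduct.tmul_mul_tmul, Algebra.TensorProduct.tmul_mul_tmul, mul_one,
        mul_one, map_mul, map_pow]
      congr 1
      ring
    rw [← h2]
    linear_combination ((w : K') ⊗ₜ[ℂ] (1 : B) * (i J₀ ⊗ₜ[ℂ] (1 : B)) *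
      ((i u₀ ^ 2) ⊗ₜ[ℂ] (1 : B))) * h1
  have hDκ : ∀ b, D' b κ = 0 := by
    intro b
    rw [hκ, Derivation.map_algebraMap]
  rw [Fin.sum_univ_two] at hr
  refine ⟨κ * r 0, κ * r 1, ?_⟩
  rw [← hleft, hr]
  have e0 : D' 0 = dL δ₁ := rfl
  have e1 : D' 1 = dR δ' := rfl
  have g0 : dL δ₁ (κ * r 0) = κ * dL δ₁ (r 0) := by
    rw [Derivation.leibniz, ← e0, hDκ, smul_zero, add_zero, smul_eq_mul]
  have g1 : dR δ' (κ * r 1) = κ * dR δ' (r 1) := by
    rw [Derivation.leibniz, ← e1, hDκ, smul_zero, add_zero, smul_eq_mul]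
  have hlog : i g₀⁻¹ * δ₁ (i g₀) = i ((d : K) * (δ u₀ / u₀) + δ f₀ / f₀) := by
    rw [hδ, ← map_mul]
    congr 1
    rw [hg₀, Derivation.leibniz, Derivation.leibniz_pow, smul_eq_mul, smul_eq_mul, nsmul_eq_mul,
      smul_eq_mul]
    rcases d with _ | d'
    · simp only [pow_zero, Nat.cast_zero, zero_mul, mul_zero, add_zero, one_mul, zero_add]
      rw [div_eq_inv_mul]
    · rw [Nat.add_sub_cancel]
      field_simp
      push_cast
      ring
  have k0 : algebraMap ℂ (K' ⊗[ℂ] B) s * (((φ⁻¹ : (K' ⊗[ℂ] B)ˣ) : K' ⊗[ℂ] B) * dL δ₁ φ) =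
      ((algebraMap ℂ K' s * i ((d : K) * (δ u₀ / u₀) + δ f₀ / f₀)) ⊗ₜ[ℂ] (1 : B)) := by
    rw [hφ1, hφ2, dL_tmul, Algebra.TensorProduct.tmul_mul_tmul, inv_mul_cancel₀ hP0, hcK,
      Algebra.TensorProduct.tmul_mul_tmul, one_mul, hlog]
  have hPT : P⁻¹ * δ' P = (1 + T ^ e)⁻¹ * δ' (1 + T ^ e) := by
    have h3 : δ' P = algebraMap ℂ B cU * δ' (1 + T ^ e) := by
      rw [hP, Derivation.leibniz, Derivation.map_algebraMap, smul_zero, add_zero, smul_eq_mul]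
    rw [h3, hP, mul_inv, mul_mul_mul_comm, inv_mul_cancel₀ hcU0, one_mul]
  have k1 : algebraMap ℂ (K' ⊗[ℂ] B) s * (((φ⁻¹ : (K' ⊗[ℂ] B)ˣ) : K' ⊗[ℂ] B) * dR δ' φ) =
      (1 : K') ⊗ₜ[ℂ] (algebraMap ℂ B s * ((1 + T ^ e)⁻¹ * δ' (1 + T ^ e))) := by
    rw [hφ1, hφ2, dR_tmul, Algebra.TensorProduct.tmul_mul_tmul, mul_comm (i g₀⁻¹), hgg, hcB,
      Algebra.TensorProduct.tmul_mul_tmul, one_mul, hPT]
  rw [e0, e1, g0, g1, k0, k1]
  ring

end YX

end MPb07157
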