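import Pool.Agent.Lib.MP_b07157_agV.R3

/-!
# The form `(1 + T²)^s dT` is not exact
-/

noncomputable section

namespace MPb07157

namespace YX

open PC

/-- The form `(1 + T²)^s dT` is not exact: a special case of `PC.not_exact_of_le`
(`agV/R3.lean`), with the roots `I`, `-I` of multiplicity one; `ε₀ = 1`, `ε₁ = -(1 + 2 s)`. -/
theorem not_exact_T {δ : Derivation ℂ (RatFunc ℂ) (RatFunc ℂ)}
    (hδ : ∀ P : Polynomial ℂ, δ (algebraMap (Polynomial ℂ) (RatFunc ℂ) P) =
      algebraMap (Polynomial ℂ) (RatFunc ℂ) (Polynomial.derivative P)) {s : ℚ} (h1 : -1 < s)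
    (h2 : s < 0) :
    ¬ ∃ r : RatFunc ℂ, (1 : RatFunc ℂ) = δ r + algebraMap ℂ (RatFunc ℂ) (s : ℂ) *
      ((1 + RatFunc.X ^ 2)⁻¹ * δ (1 + RatFunc.X ^ 2)) * r := by
  classical
  rintro ⟨r, hr⟩
  have hI : Complex.I ≠ -Complex.I := by
    intro h
    have h3 : (2 : ℂ) * Complex.I = 0 := by linear_combination h
    exact (mul_ne_zero two_ne_zero Complex.I_ne_zero) h3
  have hI0 : Complex.I ∉ ({-Complex.I} : Finset ℂ) := by
    rw [Finset.mem_singleton]
    exact hI
  have hP : (Polynomial.C (1 : ℂ) * Polynomial.X ^ 0 *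
      ∏ c ∈ ({Complex.I, -Complex.I} : Finset ℂ), (Polynomial.X - Polynomial.C c) ^ 1 :
      Polynomial ℂ) = 1 + Polynomial.X ^ 2 := by
    rw [Finset.prod_insert hI0, Finset.prod_singleton, map_one, map_neg]
    have h3 : (Polynomial.C Complex.I : Polynomial ℂ) * Polynomial.C Complex.I = -1 := by
      rw [← map_mul, Complex.I_mul_I, map_neg, map_one]
    linear_combination -h3
  refine not_exact_of_le hδ (e := 0) (κ := 0) (R := {Complex.I, -Complex.I}) (μ := fun _ => 1)
    (s := s) (ε₀ := 1) (ε₁ := -(1 + s * 2)) ?_ h2 (by simp) ?_ le_rfl (by linarith)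
    (fun _ _ => one_pos) ?_ (w := 1) (lam := 1) one_ne_zero one_ne_zero
    (f₀ := 1 + RatFunc.X ^ 2) ?_ ⟨r, ?_⟩
  · rw [Finset.mem_insert, Finset.mem_singleton, not_or]
    exact ⟨Complex.I_ne_zero.symm, (neg_ne_zero.2 Complex.I_ne_zero).symm⟩
  · rw [Finset.sum_insert hI0, Finset.sum_singleton]
    norm_num
  · rw [Finset.card_insert_of_notMem hI0, Finset.card_singleton, if_pos rfl, if_neg (by
      intro h
      linarith)]
  · rw [hP, map_add, map_one, map_pow, RatFunc.algebraMap_X]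
  · rw [map_one, one_mul, pow_zero, map_one, div_eq_inv_mul]
    have h3 : (s : RatFunc ℂ) = algebraMap ℂ (RatFunc ℂ) (s : ℂ) :=
      (map_ratCast (algebraMap ℂ (RatFunc ℂ)) s).symm
    rw [h3]
    exact hr

end YX

end MPb07157
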