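import Pool.Agent.Lib.MP_b07157_agYX.Res2
import Pool.Agent.Lib.MP_b07157_agYX.NT
import Pool.Agent.Lib.MP_b07157_agYL.ExE

/-!
# The residues
-/

noncomputable section

namespace MPb07157

open MvPolynomial TensorProduct

namespace YX

open PC SU SI YL

/-- **The residues.** As `YL.ex_gch_e` (`agYL/ExE.lean`): `exists_root_ext`, `residue_kz`, the
functional `l` with `l(1) = 1` of `not_exact_T`, `lamK l r₀ = w ρ'`, so that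
`i(u₀² J₀) = δ₁ ρ' + i(s₀ d δu₀/u₀ + (s₀ + 1/2) δf₀/f₀) ρ'`; project by `π`, and divide by `u₀²`:
`π ρ' = u₀² r`. -/
theorem ex2_of_root {f : MvPolynomial (Fin 3) ℂ} {d : ℕ} {k : P2}
    {ξ : Fin 3 → MvPowerSeries (Fin 3) ℂ} {U D : MvPowerSeries (Fin 3) ℂ}
    (hc : IsChart f d k 2 ξ U D) {s₀ : ℚ} (h1 : -1 < s₀) (h2 : s₀ < 0)
    {b : Polynomial ℂ} (hb : InPs (f : MvPowerSeries (Fin 3) ℂ) 1
      (b.map (MvPowerSeries.C (σ := Fin 3) (R := ℂ)))) (hb0 : b.eval (s₀ : ℂ) ≠ 0) :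
    Ex2 k (2 + d * s₀) (s₀ + 1 / 2) := by
  intro δ Θ h0 ν N m hν hN hm hsum J₀ f₀ u₀ hf₀ hu₀ J₁ F₁ U₁ hJ hF hΘ
  obtain ⟨δ', hδ'⟩ := PC.exists_deriv
  have hs' : (s₀ : ℂ) * (((2 : ℕ) : ℂ) * (d * m + N)) =
      -(((2 : ℕ) : ℂ) * ν + 2 * ((2 : ℕ) : ℂ) * m + N) := by
    have h3 := congrArg (Rat.cast : ℚ → ℂ) hsum
    push_cast at h3 ⊢
    linear_combination 2 * h3
  have hT : δ' (RatFunc.X : RatFunc ℂ) = 1 := by
    have h1 := hδ' Polynomial.X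
    rwa [RatFunc.algebraMap_X, Polynomial.derivative_X, map_one] at h1
  have hT1 : 1 + (RatFunc.X : RatFunc ℂ) ^ 2 ≠ 0 := by
    have h3 : 1 + (RatFunc.X : RatFunc ℂ) ^ 2 =
        algebraMap (Polynomial ℂ) (RatFunc ℂ) (Polynomial.X ^ 2 + Polynomial.C 1) := by
      rw [map_add, map_pow, RatFunc.algebraMap_X, map_one, map_one, add_comm]
    rw [h3, Ne, map_eq_zero_iff _ (RatFunc.algebraMap_injective ℂ)]
    exact Polynomial.X_pow_add_C_ne_zero two_pos 1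
  obtain ⟨K', _, _, i, δ₁, w, π, hw, hδ₁, hπi, hπ1, hπδ⟩ := exists_root_ext δ hf₀ two_pos
  obtain ⟨r₀, r₁, hr⟩ := residue_kz (B := RatFunc ℂ) two_pos hc hN hν hm hs' hb hb0
    i δ δ₁ hδ₁ hf₀ hu₀ w hw δ' hT1 hT h0 hJ hF hΘ
  obtain ⟨ψ, hψ⟩ : ∃ ψ : RatFunc ℂ, ψ = algebraMap ℂ (RatFunc ℂ) (s₀ : ℂ) *
      ((1 + (RatFunc.X : RatFunc ℂ) ^ 2)⁻¹ * δ' (1 + (RatFunc.X : RatFunc ℂ) ^ 2)) := ⟨_, rfl⟩
  rw [← hψ] at hr
  -- the functional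
  let E : Submodule ℂ (RatFunc ℂ) := LinearMap.range
    (δ'.toLinearMap + LinearMap.mulLeft ℂ ψ)
  have hE : (1 : RatFunc ℂ) ∉ E := by
    rintro ⟨r, hr'⟩
    refine not_exact_T hδ' h1 h2 ⟨r, ?_⟩
    rw [← hψ, ← hr']
    rfl
  obtain ⟨l, hl0, hl1⟩ := SI.exists_functional E hE
  have hl : ∀ b : RatFunc ℂ, l (δ' b + ψ * b) = 0 := fun b => hl0 _ ⟨b, rfl⟩
  have h3 := congrArg (lamK l) hr
  rw [lamK_tmul, hl1, map_one, one_mul, map_add, map_add, lamK_dL, lamK_mul, lamK_dR l δ' hl,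
    add_zero] at h3
  obtain ⟨u, hu⟩ : ∃ u : K', u = ((w⁻¹ : K'ˣ) : K') := ⟨_, rfl⟩
  have hwu : (w : K') * u = 1 := by rw [hu, Units.mul_inv]
  obtain ⟨v, hv⟩ : ∃ v : K', v = (w : K') := ⟨_, rfl⟩
  rw [← hv] at hwu hw
  rw [← hv] at h3
  obtain ⟨ρ, hρ⟩ : ∃ ρ, lamK l r₀ = v * ρ := ⟨u * lamK l r₀, by
    rw [← mul_assoc, hwu, one_mul]⟩
  rw [hρ] at h3
  have h5 : δ₁ (v * ρ) = v * δ₁ ρ + δ₁ v * ρ := by
    rw [Derivation.leibniz, smul_eq_mul, smul_eq_mul]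
    ring
  obtain ⟨g, hg⟩ : ∃ g : K', g = u * δ₁ v := ⟨_, rfl⟩
  have hvg : δ₁ v = v * g := by
    rw [hg, ← mul_assoc, hwu, one_mul]
  have hu2 : u ^ 2 = i f₀⁻¹ := by
    have h8 : i f₀ * i f₀⁻¹ = 1 := by rw [← map_mul, mul_inv_cancel₀ hf₀, map_one]
    have h9 : u ^ 2 * v ^ 2 = 1 := by rw [← mul_pow, mul_comm u v, hwu, one_pow]
    rw [hw] at h9
    linear_combination (i f₀⁻¹) * h9 - (u ^ 2) * h8
  have hg2 : 2 * g = i (δ f₀ / f₀) := by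
    have h8 := congrArg δ₁ hw
    have e1 : (2 - 1 : ℕ) = 1 := rfl
    rw [hδ₁, Derivation.leibniz_pow, e1, pow_one, smul_eq_mul, nsmul_eq_mul, hvg] at h8
    push_cast at h8
    have h9 : u ^ 2 * v ^ 2 = 1 := by rw [← mul_pow, mul_comm u v, hwu, one_pow]
    rw [div_eq_inv_mul, map_mul, ← hu2, ← h8]
    linear_combination -(2 * g) * h9
  have h10 : i (u₀ ^ 2 * J₀) = δ₁ ρ + (g + algebraMap ℂ K' (s₀ : ℂ) *
      i ((d : RatFunc ℂ) * (δ u₀ / u₀) + δ f₀ / f₀)) * ρ := by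
    have h11 : v * i (u₀ ^ 2 * J₀) = v * (δ₁ ρ + (g + algebraMap ℂ K' (s₀ : ℂ) *
      i ((d : RatFunc ℂ) * (δ u₀ / u₀) + δ f₀ / f₀)) * ρ) := by
      rw [h3, h5, hvg]
      ring
    linear_combination u * h11 - (i (u₀ ^ 2 * J₀) - (δ₁ ρ + (g + algebraMap ℂ K' (s₀ : ℂ) *
      i ((d : RatFunc ℂ) * (δ u₀ / u₀) + δ f₀ / f₀)) * ρ)) * hwu
  obtain ⟨G, hG⟩ : ∃ G : RatFunc ℂ, G = (1 / 2 : RatFunc ℂ) * (δ f₀ / f₀) +
      algebraMap ℂ (RatFunc ℂ) (s₀ : ℂ) * ((d : RatFunc ℂ) * (δ u₀ / u₀) + δ f₀ / f₀) := ⟨_, rfl⟩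
  have hiG : g + algebraMap ℂ K' (s₀ : ℂ) *
      i ((d : RatFunc ℂ) * (δ u₀ / u₀) + δ f₀ / f₀) = i G := by
    have h12 : i (1 / 2 : RatFunc ℂ) * 2 = 1 := by
      have : (2 : K') = i (2 : RatFunc ℂ) := (map_ofNat i 2).symm
      rw [this, ← map_mul, one_div, inv_mul_cancel₀ two_ne_zero, map_one]
    obtain ⟨Y, hY⟩ : ∃ Y : RatFunc ℂ, Y = (d : RatFunc ℂ) * (δ u₀ / u₀) + δ f₀ / f₀ := ⟨_, rfl⟩
    rw [hG, ← hY, map_add i, map_mul i, map_mul i, AlgHom.commutes, ← hg2]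
    linear_combination -g * h12
  rw [hiG] at h10
  have h15 := congrArg π h10
  have h16 : ∀ a, π (i a) = a := fun a => by
    have h17 := hπi a 1
    rwa [mul_one, hπ1, mul_one] at h17
  rw [h16, map_add, hπδ, hπi] at h15
  have hsC : algebraMap ℂ (RatFunc ℂ) (s₀ : ℂ) = ((s₀ : ℚ) : RatFunc ℂ) := map_ratCast _ _
  refine ⟨π ρ / u₀ ^ 2, ?_⟩
  obtain ⟨R, hR⟩ : ∃ R : RatFunc ℂ, R = π ρ / u₀ ^ 2 := ⟨_, rfl⟩
  have hR' : π ρ = u₀ ^ 2 * R := by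
    rw [hR, mul_div_cancel₀ _ (pow_ne_zero 2 hu₀)]
  rw [← hR]
  have e1 : (2 - 1 : ℕ) = 1 := rfl
  rw [hR', Derivation.leibniz, Derivation.leibniz_pow, e1, pow_one,
    smul_eq_mul, smul_eq_mul, smul_eq_mul, nsmul_eq_mul, hG, hsC] at h15
  push_cast at h15 ⊢
  refine mul_left_cancel₀ (pow_ne_zero 2 hu₀) ?_
  rw [h15]
  field_simp
  ring

end YX

end MPb07157
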