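import Pool.Agent.Lib.MP_b07157_agYX.Defs

/-!
# Cubics which are singular along an arc

The trilinear form of a cubic form in three variables, and `not_squarefree_cubic'`, used in `Geo3`.
-/

noncomputable section

namespace MPb07157

open MvPolynomial

namespace YX

namespace Tri

/-- The trilinear form with the coefficients `t`. -/
def tri {R : Type*} [CommRing R] (t : Fin 3 → Fin 3 → Fin 3 → R) (x y z : Fin 3 → R) : R :=
  ∑ a, ∑ b, ∑ c, t a b c * x a * y b * z c

section

variable {R : Type*} [CommRing R] (t : Fin 3 → Fin 3 → Fin 3 → R)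

theorem comm12 (h : ∀ a b c, t a b c = t b a c) (x y z : Fin 3 → R) :
    tri t x y z = tri t y x z := by
  unfold tri
  rw [Finset.sum_comm]
  refine Finset.sum_congr rfl fun a _ => Finset.sum_congr rfl fun b _ =>
    Finset.sum_congr rfl fun c _ => ?_
  rw [h b a c]; ring

theorem comm23 (h : ∀ a b c, t a b c = t a c b) (x y z : Fin 3 → R) :
    tri t x y z = tri t x z y := by
  unfold tri
  refine Finset.sum_congr rfl fun a _ => ?_
  rw [Finset.sum_comm]
  refine Finset.sum_congr rfl fun b _ =>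
    Finset.sum_congr rfl fun c _ => ?_
  rw [h a c b]; ring

theorem lin1 (α β γ : R) (x y z u w : Fin 3 → R) :
    tri t (fun a => α * x a + β * y a + γ * z a) u w =
      α * tri t x u w + β * tri t y u w + γ * tri t z u w := by
  unfold tri
  simp only [Finset.mul_sum, ← Finset.sum_add_distrib]
  refine Finset.sum_congr rfl fun a _ => Finset.sum_congr rfl fun b _ =>
    Finset.sum_congr rfl fun c _ => ?_
  ring

theorem lin2 (α β γ : R) (x y z u w : Fin 3 → R) :
    tri t u (fun a => α * x a + β * y a + γ * z a) w =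
      α * tri t u x w + β * tri t u y w + γ * tri t u z w := by
  unfold tri
  simp only [Finset.mul_sum, ← Finset.sum_add_distrib]
  refine Finset.sum_congr rfl fun a _ => Finset.sum_congr rfl fun b _ =>
    Finset.sum_congr rfl fun c _ => ?_
  ring

theorem lin3 (α β γ : R) (x y z u w : Fin 3 → R) :
    tri t u w (fun a => α * x a + β * y a + γ * z a) =
      α * tri t u w x + β * tri t u w y + γ * tri t u w z := by
  unfold tri
  simp only [Finset.mul_sum, ← Finset.sum_add_distrib]
  refine Finset.sum_congr rfl fun a _ => Finset.sum_congr rfl fun b _ =>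
    Finset.sum_congr rfl fun c _ => ?_
  ring

theorem smul3 (α : R) (x y z : Fin 3 → R) :
    tri t (fun a => α * x a) (fun a => α * y a) (fun a => α * z a) = α ^ 3 * tri t x y z := by
  unfold tri
  simp only [Finset.mul_sum]
  refine Finset.sum_congr rfl fun a _ => Finset.sum_congr rfl fun b _ =>
    Finset.sum_congr rfl fun c _ => ?_
  ring

theorem smul2 (α : R) (x y z : Fin 3 → R) :
    tri t x (fun a => α * y a) (fun a => α * z a) = α ^ 2 * tri t x y z := by
  unfold tri
  simp only [Finset.mul_sum]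
  refine Finset.sum_congr rfl fun a _ => Finset.sum_congr rfl fun b _ =>
    Finset.sum_congr rfl fun c _ => ?_
  ring

theorem smul_snd (α : R) (x y z : Fin 3 → R) :
    tri t x (fun a => α * y a) z = α * tri t x y z := by
  unfold tri
  simp only [Finset.mul_sum]
  refine Finset.sum_congr rfl fun a _ => Finset.sum_congr rfl fun b _ =>
    Finset.sum_congr rfl fun c _ => ?_
  ring

theorem map_tri {S : Type*} [CommRing S] (φ : R →+* S) (x y z : Fin 3 → R) :
    φ (tri t x y z) =
      tri (fun a b c => φ (t a b c)) (fun a => φ (x a)) (fun a => φ (y a)) (fun a => φ (z a)) := by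
  unfold tri
  simp only [map_sum, map_mul]

/-- Linearity in the third argument. -/
theorem expand3 (x y z : Fin 3 → R) :
    tri t x y z = ∑ c, z c * tri t x y (Pi.single c 1) := by
  unfold tri
  simp only [Fin.sum_univ_three, Pi.single_apply]
  simp only [show (0 : Fin 3) ≠ 1 from by decide, show (0 : Fin 3) ≠ 2 from by decide,
    show (1 : Fin 3) ≠ 0 from by decide, show (1 : Fin 3) ≠ 2 from by decide,
    show (2 : Fin 3) ≠ 0 from by decide, show (2 : Fin 3) ≠ 1 from by decide, if_true, if_false]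
  ring

theorem zero3 {x y : Fin 3 → R} (h : ∀ c, tri t x y (Pi.single c 1) = 0) (z : Fin 3 → R) :
    tri t x y z = 0 := by
  rw [expand3]
  exact Finset.sum_eq_zero fun c _ => by rw [h c, mul_zero]

end

/-- The determinant with rows `q`, `v`, `w`. -/
def dt {R : Type*} [CommRing R] (q v w : Fin 3 → R) : R :=
  (q 1 * v 2 - q 2 * v 1) * w 0 + (q 2 * v 0 - q 0 * v 2) * w 1 + (q 0 * v 1 - q 1 * v 0) * w 2

theorem cramer {R : Type*} [CommRing R] (q v w x : Fin 3 → R) :
    (fun a => dt q v w * x a) =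
      fun a => dt x v w * q a + dt q x w * v a + dt q v x * w a := by
  funext a
  unfold dt
  fin_cases a
  · change _ * x 0 = _ * q 0 + _ * v 0 + _ * w 0
    ring
  · change _ * x 1 = _ * q 1 + _ * v 1 + _ * w 1
    ring
  · change _ * x 2 = _ * q 2 + _ * v 2 + _ * w 2
    ring

theorem exists_w {q v : Fin 3 → ℂ} {i j : Fin 3} (hv : q i * v j - q j * v i ≠ 0) :
    ∃ w, dt q v w ≠ 0 := by
  by_contra hcon
  push Not at hcon
  apply hv
  have h0 := hcon (Pi.single 0 1)
  have h1 := hcon (Pi.single 1 1)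
  have h2 := hcon (Pi.single 2 1)
  unfold dt at h0 h1 h2
  simp only [Pi.single_apply] at h0 h1 h2
  simp only [show (0 : Fin 3) ≠ 1 from by decide, show (0 : Fin 3) ≠ 2 from by decide,
    show (1 : Fin 3) ≠ 0 from by decide, show (1 : Fin 3) ≠ 2 from by decide,
    show (2 : Fin 3) ≠ 0 from by decide, show (2 : Fin 3) ≠ 1 from by decide, if_true,
    if_false, mul_one, mul_zero, add_zero, zero_add] at h0 h1 h2
  fin_cases i <;> fin_cases j
  · change q 0 * v 0 - q 0 * v 0 = 0; ring
  · change q 0 * v 1 - q 1 * v 0 = 0; exact h2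
  · change q 0 * v 2 - q 2 * v 0 = 0; linear_combination -h1
  · change q 1 * v 0 - q 0 * v 1 = 0; linear_combination -h2
  · change q 1 * v 1 - q 1 * v 1 = 0; ring
  · change q 1 * v 2 - q 2 * v 1 = 0; exact h0
  · change q 2 * v 0 - q 0 * v 2 = 0; exact h1
  · change q 2 * v 1 - q 1 * v 2 = 0; linear_combination -h0
  · change q 2 * v 2 - q 2 * v 2 = 0; ring

/-- The linear algebra: `T(v, v, ·) = 0`. -/
theorem tvv {t : Fin 3 → Fin 3 → Fin 3 → ℂ} (h12 : ∀ a b c, t a b c = t b a c)
    (h23 : ∀ a b c, t a b c = t a c b) {q v v2 v3 w : Fin 3 → ℂ} (hw : dt q v w ≠ 0)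
    (e0 : ∀ z, tri t q q z = 0) (e1 : ∀ z, tri t q v z = 0)
    (e2 : ∀ z, 2 * tri t q v2 z + tri t v v z = 0)
    (e3 : ∀ z, tri t q v3 z + tri t v v2 z = 0) {x y : Fin 3 → ℂ} (hh : tri t q x y ≠ 0)
    (z : Fin 3 → ℂ) : tri t v v z = 0 := by
  have s12 := comm12 t h12
  have s23 := comm23 t h23
  have k1 : ∀ x y, dt q v w ^ 2 * tri t q x y = dt q v x * dt q v y * tri t q w w := by
    intro x y
    rw [← smul2, cramer q v w x, cramer q v w y, lin2, lin3, lin3, lin3]
    rw [s23 q w q, s23 q w v]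
    simp only [e0, e1]
    ring
  have hq : tri t q w w ≠ 0 := by
    intro h
    have h1 := k1 x y
    rw [h, mul_zero] at h1
    rcases mul_eq_zero.1 h1 with h2 | h2
    · exact pow_ne_zero _ hw h2
    · exact hh h2
  have h1 : tri t q v2 v2 = 0 := by
    have a1 := e2 v2
    have a2 := e3 v
    have a3 : tri t q v3 v = 0 := by rw [s23, e1]
    have a4 : tri t v v v2 = tri t v v2 v := s23 _ _ _
    have a5 : (2 : ℂ) * tri t q v2 v2 = 0 := by linear_combination a1 - a2 + a3 - a4
    rcases mul_eq_zero.1 a5 with h | h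
    · norm_num at h
    · exact h
  have h2 : dt q v v2 = 0 := by
    have a1 := k1 v2 v2
    rw [h1, mul_zero] at a1
    rcases mul_eq_zero.1 a1.symm with h | h
    · rcases mul_eq_zero.1 h with h | h
      · exact h
      · exact h
    · exact absurd h hq
  have h3 : tri t q v2 z = 0 := by
    have a1 := k1 v2 z
    rw [h2, zero_mul, zero_mul] at a1
    rcases mul_eq_zero.1 a1 with h | h
    · exact absurd h (pow_ne_zero _ hw)
    · exact h
  have a1 := e2 z
  rw [h3] at a1
  linear_combination a1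

/-- The square of the line divides the cubic form. -/
theorem dvd_cubic {R : Type*} [CommRing R] {t : Fin 3 → Fin 3 → Fin 3 → R}
    (h12 : ∀ a b c, t a b c = t b a c)
    (h23 : ∀ a b c, t a b c = t a c b) {q v w : Fin 3 → R}
    (e0 : ∀ z, tri t q q z = 0) (e1 : ∀ z, tri t q v z = 0) (e2 : ∀ z, tri t v v z = 0)
    (x : Fin 3 → R) : dt q v x * dt q v x ∣ dt q v w ^ 3 * tri t x x x := by
  have s12 := comm12 t h12
  have s23 := comm23 t h23
  rw [← smul3, cramer q v w x]
  simp only [lin1, lin2, lin3]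
  refine ⟨3 * dt x v w * tri t q w w + 3 * dt q x w * tri t v w w + dt q v x * tri t w w w, ?_⟩
  rw [s12 v q q, s12 v q v, s12 v q w, s12 w q q, s12 w q v, s12 w q w, s12 w v v, s12 w v w,
    s12 w v q, s23 q w q, s23 q w v, s23 v w v, s23 v w q, s12 v q w]
  simp only [e0, e1, e2]
  rw [s23 w w q, s23 w w v, s12 w q w, s12 w v w]
  ring

theorem pderiv_comm3 (i j : Fin 3) (F : MvPolynomial (Fin 3) ℂ) :
    pderiv i (pderiv j F) = pderiv j (pderiv i F) := by
  induction F using MvPolynomial.induction_on with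
  | C a => simp
  | add p r hp hr => simp only [map_add, hp, hr]
  | mul_X p l hp =>
    have hX : ∀ a b : Fin 3, pderiv a (pderiv b (X l : MvPolynomial (Fin 3) ℂ)) = 0 := by
      intro a b
      by_cases h : l = b
      · subst h
        rw [pderiv_X_self, pderiv_one]
      · rw [pderiv_X_of_ne h, map_zero]
    simp only [Derivation.leibniz, map_add, smul_eq_mul, hp, hX]
    ring

/-- The coefficients of the trilinear form of a cubic form. -/
def tco (F : MvPolynomial (Fin 3) ℂ) (a b c : Fin 3) : ℂ :=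
  coeff 0 (pderiv c (pderiv b (pderiv a F)))

theorem tco12 (F : MvPolynomial (Fin 3) ℂ) (a b c : Fin 3) : tco F a b c = tco F b a c := by
  unfold tco
  rw [pderiv_comm3 b a]

theorem tco23 (F : MvPolynomial (Fin 3) ℂ) (a b c : Fin 3) : tco F a b c = tco F a c b := by
  unfold tco
  rw [pderiv_comm3 c b]

variable {F : MvPolynomial (Fin 3) ℂ}

theorem C_tco (hF : F.IsHomogeneous 3) (a b c : Fin 3) :
    pderiv c (pderiv b (pderiv a F)) = C (tco F a b c) := by
  have h1 : (pderiv c (pderiv b (pderiv a F))).IsHomogeneous 0 := by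
    have h := ((hF.pderiv (i := a)).pderiv (i := b)).pderiv (i := c)
    exact h
  rw [← totalDegree_zero_iff_isHomogeneous, totalDegree_eq_zero_iff_eq_C] at h1
  exact h1

theorem d2_eq (hF : F.IsHomogeneous 3) (a b : Fin 3) :
    pderiv b (pderiv a F) = ∑ c, X c * C (tco F a b c) := by
  have h1 : (pderiv b (pderiv a F)).IsHomogeneous 1 := (hF.pderiv (i := a)).pderiv (i := b)
  have h2 := h1.sum_X_mul_pderiv
  rw [one_smul] at h2
  rw [← h2]
  exact Finset.sum_congr rfl fun c _ => by rw [C_tco hF]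

theorem d1_eq (hF : F.IsHomogeneous 3) (a : Fin 3) :
    2 * pderiv a F = ∑ b, ∑ c, C (tco F a b c) * (X b * X c) := by
  have h1 : (pderiv a F).IsHomogeneous 2 := hF.pderiv (i := a)
  have h2 := h1.sum_X_mul_pderiv
  have h3 : 2 * pderiv a F = 2 • pderiv a F := by rw [two_mul, two_smul]
  rw [h3, ← h2]
  refine Finset.sum_congr rfl fun b _ => ?_
  rw [d2_eq hF, Finset.mul_sum]
  exact Finset.sum_congr rfl fun c _ => by ring

theorem d0_eq (hF : F.IsHomogeneous 3) :
    6 * F = tri (fun a b c => C (tco F a b c)) X X X := by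
  have h2 := hF.sum_X_mul_pderiv
  have h3 : 6 * F = 2 * (3 • F) := by
    rw [nsmul_eq_mul]; push_cast; ring
  rw [h3, ← h2, Finset.mul_sum]
  unfold tri
  refine Finset.sum_congr rfl fun a _ => ?_
  have h4 : 2 * (X a * pderiv a F) = X a * (2 * pderiv a F) := by ring
  rw [h4, d1_eq hF, Finset.mul_sum]
  refine Finset.sum_congr rfl fun b _ => ?_
  rw [Finset.mul_sum]
  exact Finset.sum_congr rfl fun c _ => by ring

theorem tri_single1 {R : Type*} [CommRing R] (t : Fin 3 → Fin 3 → Fin 3 → R) (j : Fin 3)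
    (y z : Fin 3 → R) :
    tri t (Pi.single j 1) y z = ∑ b, ∑ c, t j b c * (y b * z c) := by
  unfold tri
  rw [Finset.sum_eq_single j]
  · refine Finset.sum_congr rfl fun b _ => Finset.sum_congr rfl fun c _ => ?_
    rw [Pi.single_eq_same]; ring
  · intro a _ ha
    refine Finset.sum_eq_zero fun b _ => Finset.sum_eq_zero fun c _ => ?_
    rw [Pi.single_eq_of_ne ha]; ring
  · intro h
    exact absurd (Finset.mem_univ j) h

theorem tri_single2 {R : Type*} [CommRing R] (t : Fin 3 → Fin 3 → Fin 3 → R) (i j : Fin 3)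
    (z : Fin 3 → R) :
    tri t (Pi.single i 1) (Pi.single j 1) z = ∑ c, t i j c * z c := by
  rw [tri_single1, Finset.sum_eq_single j]
  · refine Finset.sum_congr rfl fun c _ => ?_
    rw [Pi.single_eq_same]; ring
  · intro a _ ha
    refine Finset.sum_eq_zero fun c _ => ?_
    rw [Pi.single_eq_of_ne ha]; ring
  · intro h
    exact absurd (Finset.mem_univ j) h

/-- The coefficients of the gradient along an arc. -/
theorem coeff_grad (hF : F.IsHomogeneous 3) {Γ : Fin 3 → PowerSeries ℂ}
    (hΓ : ∀ j, PowerSeries.X ^ 4 ∣ (aeval Γ (pderiv j F) : PowerSeries ℂ)) {m : ℕ} (hm : m < 4)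
    (j : Fin 3) :
    ∑ p ∈ Finset.HasAntidiagonal.antidiagonal m, tri (tco F) (Pi.single j 1)
      (fun a => PowerSeries.coeff p.1 (Γ a)) (fun a => PowerSeries.coeff p.2 (Γ a)) = 0 := by
  have h1 : PowerSeries.coeff m (aeval Γ (pderiv j F) : PowerSeries ℂ) = 0 :=
    PowerSeries.X_pow_dvd_iff.1 (hΓ j) m hm
  have h2 : (aeval Γ (pderiv j F) : PowerSeries ℂ) + aeval Γ (pderiv j F) =
      ∑ b, ∑ c, PowerSeries.C (tco F j b c) * (Γ b * Γ c) := by
    rw [← map_add, ← two_mul, d1_eq hF]
    simp only [map_sum, map_mul, aeval_X, aeval_C]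
    rfl
  have h3 := congrArg (PowerSeries.coeff m) h2
  rw [map_add, h1, add_zero] at h3
  simp only [map_sum, PowerSeries.coeff_C_mul] at h3
  rw [h3]
  simp only [tri_single1]
  rw [Finset.sum_comm]
  refine Finset.sum_congr rfl fun b _ => ?_
  rw [Finset.sum_comm]
  refine Finset.sum_congr rfl fun c _ => ?_
  rw [PowerSeries.coeff_mul, Finset.mul_sum]

/-- See `not_squarefree_cubic` in `Geo3`. -/
theorem main (hF : F.IsHomogeneous 3)
    {Γ : Fin 3 → PowerSeries ℂ} {i j : Fin 3}
    (hv : PowerSeries.coeff 0 (Γ i) * PowerSeries.coeff 1 (Γ j) -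
      PowerSeries.coeff 0 (Γ j) * PowerSeries.coeff 1 (Γ i) ≠ 0)
    {a b : Fin 3} (hh : eval (fun l => PowerSeries.coeff 0 (Γ l)) (pderiv a (pderiv b F)) ≠ 0)
    (hΓ : ∀ j, PowerSeries.X ^ 4 ∣ (aeval Γ (pderiv j F) : PowerSeries ℂ)) : ¬ Squarefree F := by
  intro hsq
  set q : Fin 3 → ℂ := fun l => PowerSeries.coeff 0 (Γ l) with hqd
  set v : Fin 3 → ℂ := fun l => PowerSeries.coeff 1 (Γ l) with hvd
  set v2 : Fin 3 → ℂ := fun l => PowerSeries.coeff 2 (Γ l) with hv2d
  set v3 : Fin 3 → ℂ := fun l => PowerSeries.coeff 3 (Γ l) with hv3d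
  obtain ⟨w, hw⟩ := exists_w (q := q) (v := v) (i := i) (j := j) hv
  have s12 := comm12 (tco F) (tco12 F)
  have s23 := comm23 (tco F) (tco23 F)
  have s13 : ∀ x y z, tri (tco F) x y z = tri (tco F) y z x := fun x y z => by
    rw [s12 x y z, s23 y x z]
  have g0 : ∀ j, tri (tco F) (Pi.single j 1) q q = 0 := fun j => by
    have h := coeff_grad hF hΓ (m := 0) (by norm_num) j
    rw [Finset.Nat.antidiagonal_zero, Finset.sum_singleton] at h
    exact h
  have g1 : ∀ j, tri (tco F) (Pi.single j 1) q v + tri (tco F) (Pi.single j 1) v q = 0 :=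
    fun j => by
    have h := coeff_grad hF hΓ (m := 1) (by norm_num) j
    rw [Finset.Nat.sum_antidiagonal_eq_sum_range_succ
      (f := fun x y => tri (tco F) (Pi.single j 1)
        (fun a => PowerSeries.coeff x (Γ a)) (fun a => PowerSeries.coeff y (Γ a)))] at h
    rw [Finset.sum_range_succ, Finset.sum_range_one] at h
    exact h
  have g2 : ∀ j, tri (tco F) (Pi.single j 1) q v2 + tri (tco F) (Pi.single j 1) v v +
      tri (tco F) (Pi.single j 1) v2 q = 0 := fun j => by
    have h := coeff_grad hF hΓ (m := 2) (by norm_num) j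
    rw [Finset.Nat.sum_antidiagonal_eq_sum_range_succ
      (f := fun x y => tri (tco F) (Pi.single j 1)
        (fun a => PowerSeries.coeff x (Γ a)) (fun a => PowerSeries.coeff y (Γ a)))] at h
    rw [Finset.sum_range_succ, Finset.sum_range_succ, Finset.sum_range_one] at h
    exact h
  have g3 : ∀ j, tri (tco F) (Pi.single j 1) q v3 + tri (tco F) (Pi.single j 1) v v2 +
      tri (tco F) (Pi.single j 1) v2 v + tri (tco F) (Pi.single j 1) v3 q = 0 := fun j => by
    have h := coeff_grad hF hΓ (m := 3) (by norm_num) j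
    rw [Finset.Nat.sum_antidiagonal_eq_sum_range_succ
      (f := fun x y => tri (tco F) (Pi.single j 1)
        (fun a => PowerSeries.coeff x (Γ a)) (fun a => PowerSeries.coeff y (Γ a)))] at h
    rw [Finset.sum_range_succ, Finset.sum_range_succ, Finset.sum_range_succ,
      Finset.sum_range_one] at h
    exact h
  have e0 : ∀ z, tri (tco F) q q z = 0 := zero3 _ fun c => by rw [← s13]; exact g0 c
  have e1 : ∀ z, tri (tco F) q v z = 0 := zero3 _ fun c => by
    have h := g1 c
    rw [s23 _ v q, s13] at h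
    have h2 : (2 : ℂ) * tri (tco F) q v (Pi.single c 1) = 0 := by linear_combination h
    rcases mul_eq_zero.1 h2 with h3 | h3
    · norm_num at h3
    · exact h3
  have e2 : ∀ z, 2 * tri (tco F) q v2 z + tri (tco F) v v z = 0 := fun z => by
    rw [expand3 (tco F) q v2 z, expand3 (tco F) v v z, Finset.mul_sum, ← Finset.sum_add_distrib]
    refine Finset.sum_eq_zero fun c _ => ?_
    have h := g2 c
    rw [s23 _ v2 q, s13, s13 _ v v] at h
    linear_combination z c * h
  have e3 : ∀ z, tri (tco F) q v3 z + tri (tco F) v v2 z = 0 := fun z => by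
    rw [expand3 (tco F) q v3 z, expand3 (tco F) v v2 z, ← Finset.sum_add_distrib]
    refine Finset.sum_eq_zero fun c _ => ?_
    have h := g3 c
    rw [s23 _ v2 v, s23 _ v3 q, s13, s13 _ v v2] at h
    have h2 : (2 : ℂ) * (tri (tco F) q v3 (Pi.single c 1) + tri (tco F) v v2 (Pi.single c 1)) = 0 := by
      linear_combination h
    rcases mul_eq_zero.1 h2 with h3 | h3
    · norm_num at h3
    · linear_combination z c * h3
  have hh' : tri (tco F) q (Pi.single b 1) (Pi.single a 1) ≠ 0 := by
    intro h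
    apply hh
    rw [s13, tri_single2] at h
    rw [d2_eq hF, map_sum]
    rw [← h]
    refine Finset.sum_congr rfl fun c _ => ?_
    rw [map_mul, eval_X, eval_C]
    ring
  have e4 : ∀ z, tri (tco F) v v z = 0 := tvv (tco12 F) (tco23 F) hw e0 e1 e2 e3 hh'
  -- the same over the ring of polynomials
  let t' : Fin 3 → Fin 3 → Fin 3 → MvPolynomial (Fin 3) ℂ := fun a b c => C (tco F a b c)
  have c12 : ∀ a b c, t' a b c = t' b a c := fun a b c => congrArg C (tco12 F a b c)
  have c23 : ∀ a b c, t' a b c = t' a c b := fun a b c => congrArg C (tco23 F a b c)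
  have lift : ∀ x y : Fin 3 → ℂ, (∀ z, tri (tco F) x y z = 0) →
      ∀ z : Fin 3 → MvPolynomial (Fin 3) ℂ,
        tri t' (fun a => C (x a)) (fun a => C (y a)) z = 0 := by
    intro x y h
    refine zero3 _ fun c => ?_
    have h1 := congrArg (C : ℂ →+* MvPolynomial (Fin 3) ℂ) (h (Pi.single c 1))
    rw [map_tri, map_zero] at h1
    rw [← h1]
    refine congrArg _ (funext fun a => ?_)
    by_cases hac : a = c
    · subst hac
      rw [Pi.single_eq_same, Pi.single_eq_same, map_one]
    · rw [Pi.single_eq_of_ne hac, Pi.single_eq_of_ne hac, map_zero]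
  have hdvd := dvd_cubic c12 c23 (q := fun a => C (q a)) (v := fun a => C (v a))
    (w := fun a => C (w a)) (lift q q e0) (lift q v e1) (lift v v e4) X
  have hdt : dt (fun a => C (q a)) (fun a => C (v a)) (fun a => (C (w a) : MvPolynomial (Fin 3) ℂ)) =
      C (dt q v w) := by
    unfold dt
    simp only [map_add, map_sub, map_mul]
  have h6 : tri t' X X X = C 6 * F := by
    have h := d0_eq hF
    rw [← h]
    rfl
  rw [hdt, h6] at hdvd
  set L := dt (fun a => C (q a)) (fun a => (C (v a) : MvPolynomial (Fin 3) ℂ)) X with hL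
  have hLF : L * L ∣ F := by
    have hu : IsUnit (C (dt q v w) ^ 3 * C 6 : MvPolynomial (Fin 3) ℂ) := by
      refine IsUnit.mul (IsUnit.pow _ ?_) ?_
      · exact (isUnit_iff_ne_zero.2 hw).map (C : ℂ →+* MvPolynomial (Fin 3) ℂ)
      · exact (isUnit_iff_ne_zero.2 (by norm_num)).map (C : ℂ →+* MvPolynomial (Fin 3) ℂ)
    rw [← mul_assoc] at hdvd
    exact (hu.dvd_mul_left).1 hdvd
  have hLu := hsq L hLF
  have h7 := hLu.map (eval q)
  have h8 : eval q L = 0 := by
    rw [hL]
    unfold dt
    simp only [map_add, map_sub, map_mul, eval_C, eval_X]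
    ring
  rw [h8] at h7
  exact not_isUnit_zero h7

end Tri

end YX

end MPb07157
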