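import Pool.Agent.Lib.MP_b07157_agYX.Defs
import Pool.Agent.Lib.MP_b07157_agYX.Geo3a
import Pool.Agent.Lib.MP_b07157_agYL.NodeR
import Pool.Agent.Lib.MP_b07157_agYL.Hess
import Pool.Agent.Lib.MP_b07157_agI.Geo

/-!
# Double points of cubics
-/

noncomputable section

namespace MPb07157

open MvPolynomial

namespace YX

open PC SU SI YL

/-- A symmetric trilinear form in coordinates: a cubic form which is singular along an arc
`q + v t + v₂ t² + v₃ t³` up to order `4`, `q`, `v` independent, is not squarefree. -/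
theorem not_squarefree_cubic {F : MvPolynomial (Fin 3) ℂ} (hF : F.IsHomogeneous 3)
    {Γ : Fin 3 → PowerSeries ℂ} {i j : Fin 3}
    (hv : PowerSeries.coeff 0 (Γ i) * PowerSeries.coeff 1 (Γ j) -
      PowerSeries.coeff 0 (Γ j) * PowerSeries.coeff 1 (Γ i) ≠ 0)
    {a b : Fin 3} (hh : eval (fun l => PowerSeries.coeff 0 (Γ l)) (pderiv a (pderiv b F)) ≠ 0)
    (hΓ : ∀ j, PowerSeries.X ^ 4 ∣ (aeval Γ (pderiv j F) : PowerSeries ℂ)) : ¬ Squarefree F :=
  Tri.main hF hv hh hΓ

namespace Geo3b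

/-- The germ at `q` does not see the other coordinates. -/
theorem aeval_gch (F : MvPolynomial (Fin 3) ℂ) (q : Fin 3 → ℂ) (j₀ : Fin 3)
    (z : Fin 2 → PowerSeries ℂ) :
    aeval z (gch F q j₀) = aeval (j₀.insertNth (α := fun _ => PowerSeries ℂ) 1
      (fun l => z l + PowerSeries.C (q (j₀.succAbove l)))) F := by
  unfold gch
  rw [← AlgHom.comp_apply, comp_aeval]
  congr 2
  funext m
  refine Fin.succAboveCases j₀ ?_ (fun l => ?_) m
  · rw [Fin.insertNth_apply_same, Fin.insertNth_apply_same, map_one]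
  · rw [Fin.insertNth_apply_succAbove, Fin.insertNth_apply_succAbove, map_add, aeval_X, aeval_C]
    exact congrArg _ PowerSeries.algebraMap_apply

theorem pderiv_gch (F : MvPolynomial (Fin 3) ℂ) (q : Fin 3 → ℂ) (j₀ : Fin 3) (i : Fin 2) :
    pderiv i (gch F q j₀) = gch (pderiv (j₀.succAbove i) F) q j₀ := by
  unfold gch
  induction F using MvPolynomial.induction_on with
  | C a => simp
  | add p r hp hr => simp only [map_add, hp, hr]
  | mul_X p l hp =>
    rw [map_mul, aeval_X, Derivation.leibniz, hp, Derivation.leibniz, map_add, smul_eq_mul,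
      smul_eq_mul, smul_eq_mul, smul_eq_mul, map_mul, map_mul, aeval_X]
    rcases Fin.eq_self_or_eq_succAbove j₀ l with rfl | ⟨m, rfl⟩
    · rw [Fin.insertNth_apply_same, pderiv_one, pderiv_X_of_ne (Fin.succAbove_ne _ _).symm]
      simp
    · rw [Fin.insertNth_apply_succAbove, map_add, pderiv_C, add_zero]
      by_cases h : m = i
      · subst h
        rw [pderiv_X_self, pderiv_X_self, map_one]
      · rw [pderiv_X_of_ne h, pderiv_X_of_ne (fun hh => h (Fin.succAbove_right_injective hh))]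
        simp

theorem pderiv_hgsum (N : ℕ) (G : ℕ → MvPolynomial (Fin 2) ℂ) (i : Fin 2) :
    pderiv i.succ (∑ j ∈ Finset.range (N + 1),
      (X 0 : MvPolynomial (Fin 3) ℂ) ^ j * rename Fin.succ (G j)) =
      ∑ j ∈ Finset.range (N + 1),
        (X 0 : MvPolynomial (Fin 3) ℂ) ^ j * rename Fin.succ (pderiv i (G j)) := by
  rw [map_sum]
  refine Finset.sum_congr rfl fun j _ => ?_
  rw [Derivation.leibniz, Derivation.leibniz_pow, pderiv_X_of_ne (Fin.succ_ne_zero i).symm,
    smul_zero, smul_zero, smul_zero, add_zero, smul_eq_mul, pderiv_rename (Fin.succ_injective _)]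

theorem aeval_hgsum {y : Fin 3 → PowerSeries ℂ} (hy : y 0 = 0) (N : ℕ)
    (G : ℕ → MvPolynomial (Fin 2) ℂ) :
    aeval y (∑ j ∈ Finset.range (N + 1),
      (X 0 : MvPolynomial (Fin 3) ℂ) ^ j * rename Fin.succ (G j)) =
      aeval (fun l : Fin 2 => y l.succ) (G 0) := by
  rw [Finset.sum_range_succ', map_add, map_sum, Finset.sum_eq_zero, zero_add, pow_zero, one_mul,
    aeval_rename]
  · rfl
  · intro j _
    rw [map_mul, map_pow, aeval_X, hy, zero_pow (Nat.succ_ne_zero j), zero_mul]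

/-- The line `(0, t, 0)`. -/
def ln3 : Fin 3 → MvPowerSeries Unit ℂ := ![0, MvPowerSeries.X (), 0]

theorem hln3 : MvPowerSeries.HasSubst ln3 :=
  MvPowerSeries.hasSubst_of_constantCoeff_zero fun i => by
    unfold ln3
    fin_cases i
    · exact map_zero _
    · exact MvPowerSeries.constantCoeff_X ()
    · exact map_zero _

/-- The restriction to the line. -/
def SL : MvPowerSeries (Fin 3) ℂ →ₐ[ℂ] PowerSeries ℂ := MvPowerSeries.substAlgHom hln3

theorem SL_X0 : SL (MvPowerSeries.X 0) = 0 := MvPowerSeries.substAlgHom_X hln3 0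

theorem SL_X1 : SL (MvPowerSeries.X 1) = PowerSeries.X := MvPowerSeries.substAlgHom_X hln3 1

theorem SL_X2 : SL (MvPowerSeries.X 2) = 0 := MvPowerSeries.substAlgHom_X hln3 2

theorem SL_decomp (a : MvPowerSeries (Fin 3) ℂ) : ∃ g : Fin 3 → MvPowerSeries (Fin 3) ℂ,
    a = algebraMap ℂ _ (MvPowerSeries.constantCoeff a) + ∑ i, MvPowerSeries.X i * g i := by
  have h1 : LowZ 1 (a - algebraMap ℂ _ (MvPowerSeries.constantCoeff a)) := by
    intro v hv
    have hv0 : v = 0 := by
      ext k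
      have h2 : v k ≤ ∑ i, v i :=
        Finset.single_le_sum (f := fun i => v i) (fun _ _ => Nat.zero_le _) (Finset.mem_univ k)
      simp only [Finsupp.coe_zero, Pi.zero_apply]
      omega
    rw [hv0, MvPowerSeries.coeff_zero_eq_constantCoeff_apply, map_sub,
      MvPowerSeries.algebraMap_apply, MvPowerSeries.constantCoeff_C]
    exact sub_self _
  obtain ⟨g, -, hg⟩ := LowZ.decomp (N := 0) h1
  exact ⟨g, by rw [← hg]; ring⟩

theorem SL_sum (c : ℂ) (g : Fin 3 → MvPowerSeries (Fin 3) ℂ) :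
    SL (algebraMap ℂ _ c + ∑ i, MvPowerSeries.X i * g i) =
      PowerSeries.C c + PowerSeries.X * SL (g 1) := by
  rw [map_add, AlgHom.commutes, Fin.sum_univ_three]
  simp only [map_add, map_mul, SL_X0, SL_X1, SL_X2, zero_mul, zero_add, add_zero]
  exact congrArg (fun z => z + PowerSeries.X * SL (g 1)) PowerSeries.algebraMap_apply

theorem SL_cc (a : MvPowerSeries (Fin 3) ℂ) :
    PowerSeries.coeff 0 (SL a) = MvPowerSeries.constantCoeff a := by
  obtain ⟨g, hg⟩ := SL_decomp a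
  conv_lhs => rw [hg]
  rw [SL_sum, map_add, PowerSeries.coeff_zero_X_mul, add_zero, PowerSeries.coeff_zero_C]

theorem SL_c1 (a : MvPowerSeries (Fin 3) ℂ) :
    PowerSeries.coeff 1 (SL a) = MvPowerSeries.constantCoeff (MvPowerSeries.pderiv ℂ 1 a) := by
  obtain ⟨g, hg⟩ := SL_decomp a
  have h1 : PowerSeries.coeff 1 (SL a) = MvPowerSeries.constantCoeff (g 1) := by
    conv_lhs => rw [hg]
    rw [SL_sum, map_add, PowerSeries.coeff_C, if_neg one_ne_zero, zero_add]
    have h2 := PowerSeries.coeff_succ_X_mul 0 (SL (g 1))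
    rw [zero_add] at h2
    rw [h2, SL_cc]
  rw [h1]
  conv_rhs => rw [hg]
  rw [map_add, Derivation.map_algebraMap, zero_add, Fin.sum_univ_three]
  simp only [map_add]
  rw [Derivation.leibniz, Derivation.leibniz, Derivation.leibniz, NodeRaux.pderiv_X,
    NodeRaux.pderiv_X, NodeRaux.pderiv_X, if_neg (by decide), if_pos rfl, if_neg (by decide)]
  simp only [smul_eq_mul, map_add, map_mul, MvPowerSeries.constantCoeff_X, zero_mul, mul_zero,
    mul_one, map_zero, map_one, zero_add, add_zero]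

/-- The form of `k(u, y) + x^2` near the line. -/
theorem kz_form {k : P2} {M : ℕ} (hk : ∀ j < M, MvPowerSeries.coeff (ex 0 j) k = 0) :
    ∃ a b : MvPowerSeries (Fin 3) ℂ, kz k 2 = MvPowerSeries.X 0 * a +
      MvPowerSeries.X 1 ^ M * b + MvPowerSeries.X 2 ^ 2 := by
  classical
  obtain ⟨k0, hk0⟩ : ∃ k0 : P2, ∀ v, MvPowerSeries.coeff v k0 =
      if v 0 = 0 then MvPowerSeries.coeff v k else 0 :=
    ⟨fun v => if v 0 = 0 then MvPowerSeries.coeff v k else 0, fun v => rfl⟩
  obtain ⟨b, hb⟩ : (MvPowerSeries.X 1 : P2) ^ M ∣ k0 := by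
    rw [MvPowerSeries.X_pow_dvd_iff]
    intro v hv
    rw [hk0]
    split_ifs with h0
    · have h1 : v = ex 0 (v 1) := by
        ext l
        fin_cases l
        · show v 0 = (ex 0 (v 1)) 0
          simp [ex, h0]
        · show v 1 = (ex 0 (v 1)) 1
          simp [ex]
      rw [h1]
      exact hk _ hv
    · rfl
  obtain ⟨a, ha⟩ : (MvPowerSeries.X 0 : P2) ∣ k - k0 := by
    rw [MvPowerSeries.X_dvd_iff]
    intro v hv
    rw [map_sub, hk0, if_pos hv, sub_self]
  have hT : MvPowerSeries.HasSubst (fun j : Fin 2 =>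
      (MvPowerSeries.X j.castSucc : MvPowerSeries (Fin 3) ℂ)) :=
    MvPowerSeries.hasSubst_of_constantCoeff_zero fun j => MvPowerSeries.constantCoeff_X _
  set T : P2 →ₐ[ℂ] MvPowerSeries (Fin 3) ℂ := MvPowerSeries.substAlgHom hT with hTdef
  have hTa : ∀ g : P2, MvPowerSeries.subst (fun j : Fin 2 =>
      (MvPowerSeries.X j.castSucc : MvPowerSeries (Fin 3) ℂ)) g = T g := fun g => by
    rw [hTdef, MvPowerSeries.coe_substAlgHom]
  have hX : ∀ j, T (MvPowerSeries.X j) = MvPowerSeries.X j.castSucc := fun j => by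
    rw [hTdef, MvPowerSeries.substAlgHom_X]
  refine ⟨T a, T b, ?_⟩
  have h1 : k = MvPowerSeries.X 0 * a + MvPowerSeries.X 1 ^ M * b := by
    rw [← ha, ← hb]; ring
  unfold kz
  rw [hTa]
  conv_lhs => rw [h1]
  rw [map_add, map_mul, map_mul, map_pow, hX, hX]
  rfl

/-- The value and the derivatives of `k(u, y) + x^2` on the line. -/
theorem kz_line {k : P2} {M : ℕ} (hM : 1 ≤ M)
    (hk : ∀ j < M, MvPowerSeries.coeff (ex 0 j) k = 0) :
    PowerSeries.X ^ M ∣ SL (kz k 2) ∧
      PowerSeries.X ^ (M - 1) ∣ SL (MvPowerSeries.pderiv ℂ 1 (kz k 2)) ∧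
      PowerSeries.X ^ (M - 1) ∣ SL (MvPowerSeries.pderiv ℂ 2 (kz k 2)) := by
  obtain ⟨a, b, hab⟩ := kz_form hk
  obtain ⟨m, rfl⟩ : ∃ m, M = m + 1 := ⟨M - 1, by omega⟩
  rw [Nat.add_sub_cancel]
  refine ⟨?_, ?_, ?_⟩
  · rw [hab, map_add, map_add, map_mul, map_mul, map_pow, map_pow, SL_X0, SL_X1, SL_X2, zero_mul,
      zero_add, zero_pow two_ne_zero, add_zero]
    exact dvd_mul_right _ _
  · rw [hab]
    simp only [map_add]
    rw [Derivation.leibniz, Derivation.leibniz, Derivation.leibniz_pow,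
      Derivation.leibniz_pow, NodeRaux.pderiv_X, NodeRaux.pderiv_X, NodeRaux.pderiv_X,
      if_neg (by decide), if_pos rfl, if_neg (by decide)]
    simp only [smul_eq_mul, nsmul_eq_mul, map_add, map_mul, map_pow, SL_X0, SL_X1, SL_X2, zero_mul,
      mul_zero, mul_one, map_zero, zero_add, add_zero, Nat.add_sub_cancel]
    refine dvd_add (Dvd.dvd.mul_right (pow_dvd_pow _ (Nat.le_succ m)) _) ?_
    exact Dvd.intro (SL (b * ((m + 1 : ℕ) : MvPowerSeries (Fin 3) ℂ))) (by rw [map_mul]; ring)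
  · rw [hab]
    simp only [map_add]
    rw [Derivation.leibniz, Derivation.leibniz, Derivation.leibniz_pow,
      Derivation.leibniz_pow, NodeRaux.pderiv_X, NodeRaux.pderiv_X, NodeRaux.pderiv_X,
      if_neg (by decide), if_neg (by decide), if_pos rfl]
    simp only [smul_eq_mul, nsmul_eq_mul, map_add, map_mul, map_pow, SL_X0, SL_X1, SL_X2, zero_mul,
      mul_zero, mul_one, map_zero, zero_add, add_zero, Nat.add_sub_cancel, pow_one]
    rw [show (2 - 1 : ℕ) = 1 from rfl, pow_one, mul_zero, add_zero]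
    exact (pow_dvd_pow (PowerSeries.X : PowerSeries ℂ) (Nat.le_succ m)).trans (dvd_mul_right _ _)

end Geo3b

open Geo3b in
/-- A double point of a reduced cubic is a node, a cusp or a tacnode. -/
theorem yOrd_le_four {f : MvPolynomial (Fin 3) ℂ} {q : Fin 3 → ℂ} {j₀ : Fin 3}
    (hq : q j₀ = 1) (h0 : eval q (homogeneousComponent 3 f) = 0)
    (hs : ∀ j, eval q (pderiv j (homogeneousComponent 3 f)) = 0) {i j : Fin 3}
    (hh : eval q (pderiv i (pderiv j (homogeneousComponent 3 f))) ≠ 0)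
    (hsq : Squarefree (homogeneousComponent 3 f)) {k : P2}
    (hk : UEq2 (hg f 3 q j₀ : MvPowerSeries (Fin 3) ℂ) k 2) {M : ℕ} (hM : YOrd k 0 M) :
    M ≤ 4 := by
  by_contra hM4
  rw [not_le] at hM4
  obtain ⟨E, u, w, hE, hE0⟩ := hk
  obtain ⟨-, hM1, -⟩ := hM
  have hkl := kz_line (k := k) (M := M) (by omega) hM1
  set F := homogeneousComponent 3 f with hFdef
  have hF : F.IsHomogeneous 3 := homogeneousComponent_isHomogeneous 3 f
  set ψ : MvPowerSeries (Fin 3) ℂ →ₐ[ℂ] PowerSeries ℂ :=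
    SL.comp (E.symm : MvPowerSeries (Fin 3) ℂ →ₐ[ℂ] MvPowerSeries (Fin 3) ℂ) with hψ
  have hψa : ∀ a, ψ a = SL (E.symm a) := fun a => rfl
  have hψE : ∀ a, ψ (E a) = SL a := fun a => by rw [hψa, E.symm_apply_apply]
  -- the first coordinate
  have hE0' : E.symm (MvPowerSeries.X 0) = MvPowerSeries.X 0 *
      E.symm ((w⁻¹ : (MvPowerSeries (Fin 3) ℂ)ˣ) : MvPowerSeries (Fin 3) ℂ) := by
    have h1 : (MvPowerSeries.X 0 : MvPowerSeries (Fin 3) ℂ) = E (MvPowerSeries.X 0) *
        ((w⁻¹ : (MvPowerSeries (Fin 3) ℂ)ˣ) : MvPowerSeries (Fin 3) ℂ) := by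
      rw [hE0, mul_assoc, Units.mul_inv, mul_one]
    conv_lhs => rw [h1]
    rw [map_mul, E.symm_apply_apply]
  have hψ0 : ψ (MvPowerSeries.X 0) = 0 := by
    rw [hψa, hE0', map_mul, SL_X0, zero_mul]
  -- the values on the curve
  have hψh : PowerSeries.X ^ 4 ∣ ψ (hg f 3 q j₀ : MvPowerSeries (Fin 3) ℂ) := by
    rw [hE, map_mul, hψE]
    exact Dvd.dvd.mul_left ((pow_dvd_pow _ (by omega)).trans hkl.1) _
  have hψd : ∀ l : Fin 2, PowerSeries.X ^ 4 ∣
      ψ (MvPowerSeries.pderiv ℂ l.succ (hg f 3 q j₀ : MvPowerSeries (Fin 3) ℂ)) := by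
    intro l
    have h1 : ψ (MvPowerSeries.pderiv ℂ l.succ (E (MvPowerSeries.X 0))) = 0 := by
      rw [hE0, Derivation.leibniz, NodeRaux.pderiv_X, if_neg (Fin.succ_ne_zero l), smul_zero,
        add_zero, smul_eq_mul, map_mul, hψ0, zero_mul]
    rw [hE, Derivation.leibniz, smul_eq_mul, smul_eq_mul, map_add, map_mul, map_mul, hψE,
      pderiv_equiv, Fin.sum_univ_three, map_add, map_add, map_mul, map_mul, map_mul, h1, zero_mul,
      zero_add, hψE, hψE]
    refine dvd_add (Dvd.dvd.mul_left (dvd_add (Dvd.dvd.mul_left ?_ _) (Dvd.dvd.mul_left ?_ _)) _)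
      (Dvd.dvd.mul_right ((pow_dvd_pow _ (by omega)).trans hkl.1) _)
    · exact (pow_dvd_pow _ (by omega)).trans hkl.2.1
    · exact (pow_dvd_pow _ (by omega)).trans hkl.2.2
  -- the curve in the chart
  have hcoe : ∀ p : MvPolynomial (Fin 3) ℂ, ψ (p : MvPowerSeries (Fin 3) ℂ) =
      aeval (fun i => ψ (MvPowerSeries.X i)) p := by
    intro p
    let c : MvPolynomial (Fin 3) ℂ →ₐ[ℂ] MvPowerSeries (Fin 3) ℂ :=
      MvPolynomial.coeToMvPowerSeries.algHom ℂ
    have hc : ∀ p : MvPolynomial (Fin 3) ℂ, c p = (p : MvPowerSeries (Fin 3) ℂ) := fun p => by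
      show MvPolynomial.coeToMvPowerSeries.algHom ℂ p = _
      rw [MvPolynomial.coeToMvPowerSeries.algHom_apply, Algebra.algebraMap_self,
        MvPowerSeries.map_id]
      rfl
    have h1 : ψ.comp c = aeval (fun i => ψ (MvPowerSeries.X i)) := by
      refine MvPolynomial.algHom_ext fun i => ?_
      rw [aeval_X]
      show ψ (c (X i)) = _
      rw [hc, MvPolynomial.coe_X]
    rw [← h1]
    show _ = ψ (c p)
    rw [hc]
  set Γ : Fin 3 → PowerSeries ℂ := j₀.insertNth (α := fun _ => PowerSeries ℂ) 1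
    (fun l : Fin 2 => ψ (MvPowerSeries.X l.succ) + PowerSeries.C (q (j₀.succAbove l))) with hΓ
  have hΓF : PowerSeries.X ^ 4 ∣ (aeval Γ F : PowerSeries ℂ) := by
    rw [hcoe, hg, aeval_hgsum hψ0, aeval_gch, add_zero] at hψh
    exact hψh
  have hΓd : ∀ l : Fin 2, PowerSeries.X ^ 4 ∣ (aeval Γ (pderiv (j₀.succAbove l) F) :
      PowerSeries ℂ) := by
    intro l
    have h1 := hψd l
    rw [MvPowerSeries.pderiv_coe, hcoe, hg, pderiv_hgsum, aeval_hgsum hψ0, Geo3b.pderiv_gch,
      aeval_gch, add_zero] at h1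
    exact h1
  have hΓ0 : Γ j₀ = 1 := by rw [hΓ, Fin.insertNth_apply_same]
  have hΓl : ∀ l, Γ (j₀.succAbove l) =
      ψ (MvPowerSeries.X l.succ) + PowerSeries.C (q (j₀.succAbove l)) := fun l => by
    rw [hΓ, Fin.insertNth_apply_succAbove]
  have hΓall : ∀ m, PowerSeries.X ^ 4 ∣ (aeval Γ (pderiv m F) : PowerSeries ℂ) := by
    intro m
    rcases Fin.eq_self_or_eq_succAbove j₀ m with rfl | ⟨l, rfl⟩
    · have h1 := congrArg (aeval Γ) hF.sum_X_mul_pderiv
      rw [map_sum, Fin.sum_univ_succAbove _ m, map_mul, aeval_X, hΓ0, one_mul, map_nsmul] at h1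
      rw [eq_sub_of_add_eq h1]
      refine dvd_sub ?_ (Finset.dvd_sum fun l _ => ?_)
      · rw [nsmul_eq_mul]
        exact Dvd.dvd.mul_left hΓF _
      · rw [map_mul]
        exact Dvd.dvd.mul_left (hΓd l) _
    · exact hΓd l
  -- the base point
  have hc0 : ∀ l : Fin 2, PowerSeries.coeff 0 (ψ (MvPowerSeries.X l.succ)) = 0 := by
    intro l
    rw [hψa, SL_cc, constantCoeff_equiv, MvPowerSeries.constantCoeff_X]
  have hΓq : (fun m => PowerSeries.coeff 0 (Γ m)) = q := by
    funext m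
    rcases Fin.eq_self_or_eq_succAbove j₀ m with rfl | ⟨l, rfl⟩
    · rw [hΓ0, hq, PowerSeries.coeff_zero_one]
    · rw [hΓl, map_add, hc0, zero_add, PowerSeries.coeff_zero_C]
  -- the tangent
  obtain ⟨l, hl⟩ : ∃ l : Fin 2, PowerSeries.coeff 1 (ψ (MvPowerSeries.X l.succ)) ≠ 0 := by
    by_contra hcon
    push Not at hcon
    have h1 := (NodeRaux.isUnit_det E.symm).map
      (MvPowerSeries.constantCoeff (σ := Fin 3) (R := ℂ))
    rw [Matrix.det_fin_three] at h1
    simp only [Matrix.of_apply] at h1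
    have g01 : MvPowerSeries.constantCoeff (MvPowerSeries.pderiv ℂ 1
        (E.symm (MvPowerSeries.X 0 : MvPowerSeries (Fin 3) ℂ))) = 0 := by
      rw [hE0', Derivation.leibniz, NodeRaux.pderiv_X, if_neg (by decide), smul_zero, add_zero,
        smul_eq_mul, map_mul, MvPowerSeries.constantCoeff_X, zero_mul]
    have g02 : MvPowerSeries.constantCoeff (MvPowerSeries.pderiv ℂ 2
        (E.symm (MvPowerSeries.X 0 : MvPowerSeries (Fin 3) ℂ))) = 0 := by
      rw [hE0', Derivation.leibniz, NodeRaux.pderiv_X, if_neg (by decide), smul_zero, add_zero,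
        smul_eq_mul, map_mul, MvPowerSeries.constantCoeff_X, zero_mul]
    have g11 : MvPowerSeries.constantCoeff (MvPowerSeries.pderiv ℂ 1
        (E.symm (MvPowerSeries.X 1 : MvPowerSeries (Fin 3) ℂ))) = 0 := by
      have h2 := hcon 0
      rw [hψa, SL_c1] at h2
      exact h2
    have g21 : MvPowerSeries.constantCoeff (MvPowerSeries.pderiv ℂ 1
        (E.symm (MvPowerSeries.X 2 : MvPowerSeries (Fin 3) ℂ))) = 0 := by
      have h2 := hcon 1
      rw [hψa, SL_c1] at h2
      exact h2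
    simp only [map_add, map_sub, map_mul, g01, g02, g11, g21, mul_zero, zero_mul, sub_zero,
      add_zero] at h1
    exact not_isUnit_zero h1
  refine not_squarefree_cubic hF (i := j₀) (j := j₀.succAbove l) ?_ (a := i) (b := j) ?_ hΓall hsq
  · rw [hΓ0, hΓl, map_add, map_add, PowerSeries.coeff_zero_one, one_mul, PowerSeries.coeff_C,
      if_neg one_ne_zero, add_zero, PowerSeries.coeff_one, if_neg one_ne_zero, mul_zero, sub_zero]
    exact hl
  · rw [hΓq]
    exact hh

end YX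

end MPb07157
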