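import Pool.Agent.Lib.MP_b07157_agYX.Defs
import Pool.Agent.Lib.MP_b07157_agYL.Defs
import Pool.Agent.Lib.MP_b07157_agI.Geo
import Pool.Agent.Lib.MP_b07157_agV.R4

/-!
# The normal form at a double point of the tangent cone: the order of `k(0, y)`
-/

noncomputable section

namespace MPb07157

open MvPolynomial

namespace YX

open PC SU SI YL

/-- The substitution `X_0 = 0`. -/
private def sb : Fin 3 → P2 := Fin.cons 0 fun j => MvPowerSeries.X j

private theorem hsb0 (i : Fin 3) : MvPowerSeries.constantCoeff (sb i) = 0 := by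
  refine Fin.cases ?_ (fun j => ?_) i
  · simp [sb]
  · simp [sb]

private theorem hsb : MvPowerSeries.HasSubst sb :=
  MvPowerSeries.hasSubst_of_constantCoeff_zero hsb0

/-- The value of `h` at `X_0 = 0`. -/
private theorem sb_hg (f : MvPolynomial (Fin 3) ℂ) (d : ℕ) (q : Fin 3 → ℂ) (j₀ : Fin 3) :
    MvPowerSeries.subst sb (hg f d q j₀ : MvPowerSeries (Fin 3) ℂ) =
      (gch (homogeneousComponent d f) q j₀ : P2) := by
  rw [MvPowerSeries.subst_coe, hg, map_sum]
  rw [Finset.sum_eq_single 0]
  · rw [pow_zero, one_mul, add_zero, aeval_rename]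
    have h1 : (sb ∘ Fin.succ) = fun j => ((X j : MvPolynomial (Fin 2) ℂ) : P2) := by
      funext j
      simp [sb]
    rw [h1]
    have h2 : (aeval fun j => ((X j : MvPolynomial (Fin 2) ℂ) : P2)) =
        (MvPolynomial.coeToMvPowerSeries.algHom (σ := Fin 2) (R := ℂ) ℂ) := by
      apply MvPolynomial.algHom_ext
      intro j
      simp
    rw [h2]
    simp
  · intro b _ hb
    rw [map_mul, map_pow, aeval_X]
    have h1 : sb 0 = 0 := rfl
    rw [h1, zero_pow hb, zero_mul]
  · intro h
    simp at h

/-- If `k(0, y) = 0`, then `gch f_d = h(0, x, y)` would be a unit times the square of a power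
series without constant term, a contradiction to `SI.isoSing_gch`. -/
theorem exists_yOrd' {f : MvPolynomial (Fin 3) ℂ} {d : ℕ} {q : Fin 3 → ℂ} {j₀ : Fin 3}
    (hq : q j₀ = 1) (hsq : Squarefree (homogeneousComponent d f)) {k : P2}
    (hk0 : MvPowerSeries.constantCoeff k = 0)
    (hk : UEq2 (hg f d q j₀ : MvPowerSeries (Fin 3) ℂ) k 2) : ∃ M, 1 ≤ M ∧ YOrd k 0 M := by
  classical
  by_cases hex : ∃ j, MvPowerSeries.coeff (ex 0 j) k ≠ 0
  · refine ⟨Nat.find hex, ?_, fun i hi => absurd hi (Nat.not_lt_zero _),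
      fun j hj => not_not.1 (Nat.find_min hex hj), Nat.find_spec hex⟩
    rw [Nat.one_le_iff_ne_zero]
    intro h
    have h1 := Nat.find_spec hex
    rw [h] at h1
    apply h1
    have h2 : ex 0 0 = 0 := by simp [ex]
    rw [h2]
    simpa using hk0
  · exfalso
    push Not at hex
    -- `k` is divisible by `X 0`
    have hdvd : (MvPowerSeries.X 0 : P2) ∣ k := by
      rw [MvPowerSeries.X_dvd_iff]
      intro m hm
      have h1 : m = ex 0 (m 1) := by
        ext i
        fin_cases i
        · simp [ex, hm]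
        · simp [ex]
      rw [h1]
      exact hex _
    obtain ⟨k', rfl⟩ := hdvd
    obtain ⟨E, u, w, h1, h2⟩ := hk
    have hcs : MvPowerSeries.HasSubst (fun j : Fin 2 =>
        (MvPowerSeries.X j.castSucc : MvPowerSeries (Fin 3) ℂ)) :=
      MvPowerSeries.hasSubst_of_constantCoeff_zero fun j => by simp
    have h3 : kz (MvPowerSeries.X 0 * k') 2 = MvPowerSeries.X 0 *
        MvPowerSeries.subst (fun j : Fin 2 =>
          (MvPowerSeries.X j.castSucc : MvPowerSeries (Fin 3) ℂ)) k' +
        MvPowerSeries.X 2 ^ 2 := by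
      rw [kz, MvPowerSeries.subst_mul hcs, MvPowerSeries.subst_X hcs]
      rfl
    set g : P2 := (gch (homogeneousComponent d f) q j₀ : P2) with hg'
    set v : P2 := MvPowerSeries.subst sb (E (MvPowerSeries.X 2)) with hv
    have h4 : g = MvPowerSeries.subst sb (u : MvPowerSeries (Fin 3) ℂ) * v ^ 2 := by
      have h5 := sb_hg f d q j₀
      rw [h1, h3, map_add, map_mul, map_pow, h2, MvPowerSeries.subst_mul hsb,
        MvPowerSeries.subst_add hsb, MvPowerSeries.subst_mul hsb, MvPowerSeries.subst_mul hsb,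
        MvPowerSeries.subst_pow hsb, MvPowerSeries.subst_X hsb] at h5
      have h6 : sb 0 = 0 := rfl
      rw [h6, zero_mul, zero_mul, zero_add] at h5
      exact h5.symm
    -- `v` has no constant term
    have hv0 : MvPowerSeries.constantCoeff v = 0 := by
      have h5 : MvPowerSeries.constantCoeff (E (MvPowerSeries.X 2)) = 0 := by
        by_contra h6
        have h7 : IsUnit (E (MvPowerSeries.X 2)) := by
          rw [MvPowerSeries.isUnit_iff_constantCoeff]
          exact isUnit_iff_ne_zero.2 h6
        have h8 := (MulEquiv.isUnit_map E).1 h7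
        rw [MvPowerSeries.isUnit_iff_constantCoeff] at h8
        simp at h8
      exact MvPowerSeries.constantCoeff_subst_eq_zero hsb hsb0 h5
    obtain ⟨N, hN⟩ := isoSing_gch (homogeneousComponent_isHomogeneous d f) hsq (j₀ := j₀) hq
    have hI : Ideal.span {g, MvPowerSeries.pderiv ℂ 0 g, MvPowerSeries.pderiv ℂ 1 g} ≤
        Ideal.span {v} := by
      have hd : ∀ i : Fin 2, v ∣ MvPowerSeries.pderiv ℂ i g := by
        intro i
        rw [h4, Derivation.leibniz, Derivation.leibniz_pow, smul_eq_mul, smul_eq_mul]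
        refine dvd_add (Dvd.dvd.mul_left ?_ _) (Dvd.dvd.mul_right (dvd_pow_self v two_ne_zero) _)
        exact ⟨2 • MvPowerSeries.pderiv ℂ i v, by simp; ring⟩
      rw [Ideal.span_le]
      intro z hz
      simp only [Set.mem_insert_iff, Set.mem_singleton_iff] at hz
      rw [SetLike.mem_coe, Ideal.mem_span_singleton]
      rcases hz with rfl | rfl | rfl
      · rw [h4]
        exact Dvd.dvd.mul_left (dvd_pow_self v two_ne_zero) _
      · exact hd 0
      · exact hd 1
    have hdv : ∀ i : Fin 2, v ∣ (MvPowerSeries.X i : P2) ^ N := fun i =>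
      Ideal.mem_span_singleton.1 (hI (hN i))
    obtain ⟨i, -, hi⟩ := (dvd_prime_pow (prime_X2 0) N).1 (hdv 0)
    have hi0 : i ≠ 0 := by
      rintro rfl
      rw [pow_zero] at hi
      have h5 := associated_one_iff_isUnit.1 hi
      rw [MvPowerSeries.isUnit_iff_constantCoeff, hv0] at h5
      simp at h5
    have h6 : (MvPowerSeries.X 0 : P2) ∣ MvPowerSeries.X 1 ^ N :=
      ((dvd_pow_self _ hi0).trans hi.symm.dvd).trans (hdv 1)
    have h7 := (prime_X2 0).dvd_of_dvd_pow h6
    rw [MvPowerSeries.X_dvd_iff] at h7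
    have h8 := h7 (Finsupp.single 1 1) (by simp)
    rw [MvPowerSeries.coeff_X] at h8
    simp at h8

end YX

end MPb07157
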