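import Pool.Agent.Lib.MP_b07157_agYX.Defs
import Pool.Agent.Lib.MP_b07157_agYL.Hess
import Pool.Agent.Lib.MP_b07157_agI.Geo
import Pool.Agent.Lib.MP_b07157_agYX.Nf2

/-!
# The normal form at a double point of the tangent cone
-/

noncomputable section

namespace MPb07157

open MvPolynomial

namespace YX

open PC SU SI YL

/-- One of the second derivatives with respect to the last two variables is made the last one. -/
private theorem exists_swap2 {h : MvPowerSeries (Fin 3) ℂ}
    (h1 : MvPowerSeries.constantCoeff (MvPowerSeries.pderiv ℂ 1 h) = 0)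
    (h2 : MvPowerSeries.constantCoeff (MvPowerSeries.pderiv ℂ 2 h) = 0) {i j : Fin 2}
    (hh : MvPowerSeries.constantCoeff (MvPowerSeries.pderiv ℂ i.succ
      (MvPowerSeries.pderiv ℂ j.succ h)) ≠ 0) :
    ∃ e : MvPowerSeries (Fin 3) ℂ ≃ₐ[ℂ] MvPowerSeries (Fin 3) ℂ,
      e (MvPowerSeries.X 0) = MvPowerSeries.X 0 ∧ MvPowerSeries.constantCoeff
        (MvPowerSeries.pderiv ℂ 2 (MvPowerSeries.pderiv ℂ 2 (e h))) ≠ 0 := by
  have i2 : (2 : Fin 3) ≠ 0 := by decide
  have key : ∀ t : ℂ, ∃ e : MvPowerSeries (Fin 3) ℂ ≃ₐ[ℂ] MvPowerSeries (Fin 3) ℂ,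
      e (MvPowerSeries.X 0) = MvPowerSeries.X 0 ∧ MvPowerSeries.constantCoeff
        (MvPowerSeries.pderiv ℂ 2 (MvPowerSeries.pderiv ℂ 2 (e h))) =
      t ^ 2 * MvPowerSeries.constantCoeff (MvPowerSeries.pderiv ℂ 1 (MvPowerSeries.pderiv ℂ 1 h)) +
      2 * t * MvPowerSeries.constantCoeff (MvPowerSeries.pderiv ℂ 1 (MvPowerSeries.pderiv ℂ 2 h)) +
      MvPowerSeries.constantCoeff (MvPowerSeries.pderiv ℂ 2 (MvPowerSeries.pderiv ℂ 2 h)) := by
    intro t
    obtain ⟨e, he⟩ := MorseAux.exists_linear (n := 3) ![![1, 0, 0], ![0, 1, t], ![0, 0, 1]] (by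
      intro v hv
      have a0 := hv 0
      have a1 := hv 1
      have a2 := hv 2
      simp [Fin.sum_univ_three] at a0 a1 a2
      rw [a2, mul_zero, add_zero] at a1
      funext i
      fin_cases i
      · exact a0
      · exact a1
      · exact a2)
    have e0 : e (MvPowerSeries.X 0) = MvPowerSeries.X 0 := by
      rw [he, Fin.sum_univ_three]
      simp
    have e1 : e (MvPowerSeries.X 1) = MvPowerSeries.X 1 + MvPowerSeries.C t * MvPowerSeries.X 2 := by
      rw [he, Fin.sum_univ_three]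
      simp
    have e2 : e (MvPowerSeries.X 2) = MvPowerSeries.X 2 := by
      rw [he, Fin.sum_univ_three]
      simp
    have d1 : MvPowerSeries.constantCoeff (MvPowerSeries.pderiv ℂ 2 (e (MvPowerSeries.X 1))) =
        t := by
      rw [e1, map_add, Derivation.leibniz, MvPowerSeries.pderiv_C, Spl.pderiv_X, Spl.pderiv_X,
        if_pos rfl, if_neg (by decide)]
      simp
    have d2 : MvPowerSeries.constantCoeff (MvPowerSeries.pderiv ℂ 2 (e (MvPowerSeries.X 2))) =
        1 := by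
      rw [e2, Spl.pderiv_X, if_pos rfl, map_one]
    refine ⟨e, e0, ?_⟩
    rw [MorseAux.cc_pd2 e0 i2 i2 h1 h2, d1, d2]
    ring
  by_contra hcon
  push Not at hcon
  have k0 : ∀ t : ℂ,
      t ^ 2 * MvPowerSeries.constantCoeff (MvPowerSeries.pderiv ℂ 1 (MvPowerSeries.pderiv ℂ 1 h)) +
      2 * t * MvPowerSeries.constantCoeff (MvPowerSeries.pderiv ℂ 1 (MvPowerSeries.pderiv ℂ 2 h)) +
      MvPowerSeries.constantCoeff (MvPowerSeries.pderiv ℂ 2 (MvPowerSeries.pderiv ℂ 2 h)) = 0 := by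
    intro t
    obtain ⟨e, e1, e2⟩ := key t
    rw [← e2]
    exact hcon e e1
  have q0 := k0 0
  have q1 := k0 1
  have q2 := k0 (-1)
  have hd : MvPowerSeries.constantCoeff
      (MvPowerSeries.pderiv ℂ 2 (MvPowerSeries.pderiv ℂ 2 h)) = 0 := by linear_combination q0
  have ha : MvPowerSeries.constantCoeff
      (MvPowerSeries.pderiv ℂ 1 (MvPowerSeries.pderiv ℂ 1 h)) = 0 := by
    linear_combination (1 / 2 : ℂ) * q1 + (1 / 2 : ℂ) * q2 - hd
  have hb : MvPowerSeries.constantCoeff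
      (MvPowerSeries.pderiv ℂ 1 (MvPowerSeries.pderiv ℂ 2 h)) = 0 := by
    linear_combination (1 / 4 : ℂ) * q1 - (1 / 4 : ℂ) * q2
  apply hh
  fin_cases i <;> fin_cases j
  · exact ha
  · exact hb
  · rw [MorseAux.cc_comm]
    exact hb
  · exact hd

/-- The splitting lemma with parameters. `MorseAux.morse'` (`agYL/Morse.lean`), after a linear
change of the coordinates `X_1`, `X_2` (as `MorseAux.exists_swap`) which makes `∂_2² h(0) ≠ 0`. -/
theorem exists_ueq2 {h : MvPowerSeries (Fin 3) ℂ} (h0 : MvPowerSeries.constantCoeff h = 0)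
    (h1 : MvPowerSeries.constantCoeff (MvPowerSeries.pderiv ℂ 1 h) = 0)
    (h2 : MvPowerSeries.constantCoeff (MvPowerSeries.pderiv ℂ 2 h) = 0) {i j : Fin 2}
    (hh : MvPowerSeries.constantCoeff (MvPowerSeries.pderiv ℂ i.succ
      (MvPowerSeries.pderiv ℂ j.succ h)) ≠ 0) :
    ∃ k : P2, MvPowerSeries.constantCoeff k = 0 ∧ UEq2 h k 2 := by
  have i2 : (2 : Fin 3) ≠ 0 := by decide
  obtain ⟨A, hA1, hA2⟩ := exists_swap2 h1 h2 hh
  have k2 := MorseAux.cc_pd hA1 i2 h1 h2
  obtain ⟨B, b, hB1, hB2⟩ := MorseAux.morse' (m := 2) (G := A h) k2 hA2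
  have hB0 : B (MvPowerSeries.X 0) = MvPowerSeries.X 0 := hB2 0
  have hkz : kz b 2 = Spl.R 2 b + MvPowerSeries.X 2 ^ 2 := by
    unfold kz Spl.R
    rw [MvPowerSeries.rename_eq_subst]
    rfl
  have hB1' : B (A h) = kz b 2 := by
    rw [hkz]
    exact hB1
  refine ⟨b, ?_, (A.trans B).symm, 1, 1, ?_, ?_⟩
  · have e1 : MvPowerSeries.constantCoeff (B (A h)) = 0 := by
      rw [constantCoeff_equiv, constantCoeff_equiv, h0]
    rw [hB1', hkz, map_add, Spl.cc_hom, map_pow, MvPowerSeries.constantCoeff_X] at e1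
    simpa using e1
  · rw [Units.val_one, one_mul, eq_comm, AlgEquiv.symm_apply_eq, AlgEquiv.trans_apply, hB1']
  · rw [Units.val_one, mul_one, AlgEquiv.symm_apply_eq, AlgEquiv.trans_apply, hA1, hB0]

/-- The derivatives of the germ in the chart. -/
private theorem pderiv_gch' (F : MvPolynomial (Fin 3) ℂ) (q : Fin 3 → ℂ) (j₀ : Fin 3)
    (i : Fin 2) : pderiv i (gch F q j₀) = gch (pderiv (j₀.succAbove i) F) q j₀ := by
  unfold gch
  induction F using MvPolynomial.induction_on with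
  | C a => simp
  | add p r hp hr => simp only [map_add, hp, hr]
  | mul_X p l hp =>
    rw [map_mul, aeval_X, Derivation.leibniz, hp, Derivation.leibniz, map_add, smul_eq_mul,
      smul_eq_mul, smul_eq_mul, smul_eq_mul, map_mul, map_mul, aeval_X]
    rcases Fin.eq_self_or_eq_succAbove j₀ l with rfl | ⟨m, rfl⟩
    · rw [Fin.insertNth_apply_same, pderiv_one, pderiv_X_of_ne (Fin.succAbove_ne _ _).symm]
      simp
    · rw [Fin.insertNth_apply_succAbove, map_add, pderiv_C, add_zero]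
      by_cases h : m = i
      · subst h
        rw [pderiv_X_self, pderiv_X_self, map_one]
      · rw [pderiv_X_of_ne h, pderiv_X_of_ne (fun hh => h (Fin.succAbove_right_injective hh))]
        simp

private theorem constantCoeff_gch' (F : MvPolynomial (Fin 3) ℂ) {q : Fin 3 → ℂ} {j₀ : Fin 3}
    (hq : q j₀ = 1) : constantCoeff (gch F q j₀) = eval q F := by
  unfold gch
  induction F using MvPolynomial.induction_on with
  | C a => simp
  | add p r hp hr => simp only [map_add, hp, hr]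
  | mul_X p l hp =>
    rw [map_mul, map_mul, map_mul, hp, aeval_X, eval_X]
    congr 1
    rcases Fin.eq_self_or_eq_succAbove j₀ l with rfl | ⟨m, rfl⟩
    · rw [Fin.insertNth_apply_same, map_one, hq]
    · rw [Fin.insertNth_apply_succAbove]
      simp

private theorem cc_coe (f : MvPolynomial (Fin 3) ℂ) :
    MvPowerSeries.constantCoeff (f : MvPowerSeries (Fin 3) ℂ) = constantCoeff f := by
  rw [← MvPowerSeries.coeff_zero_eq_constantCoeff_apply, MvPolynomial.coeff_coe]
  rfl

private theorem cc_hgsum (N : ℕ) (G : ℕ → MvPolynomial (Fin 2) ℂ) :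
    constantCoeff (∑ j ∈ Finset.range (N + 1),
      (X 0 : MvPolynomial (Fin 3) ℂ) ^ j * rename Fin.succ (G j)) = constantCoeff (G 0) := by
  rw [Finset.sum_range_succ', map_add, map_sum, Finset.sum_eq_zero, zero_add, pow_zero, one_mul,
    constantCoeff_rename]
  intro j _
  rw [pow_succ, mul_assoc, map_mul, map_mul]
  simp

private theorem pd_hgsum (N : ℕ) (G : ℕ → MvPolynomial (Fin 2) ℂ) (i : Fin 2) :
    pderiv i.succ (∑ j ∈ Finset.range (N + 1),
      (X 0 : MvPolynomial (Fin 3) ℂ) ^ j * rename Fin.succ (G j)) =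
      ∑ j ∈ Finset.range (N + 1),
        (X 0 : MvPolynomial (Fin 3) ℂ) ^ j * rename Fin.succ (pderiv i (G j)) := by
  rw [map_sum]
  refine Finset.sum_congr rfl fun j _ => ?_
  rw [Derivation.leibniz, Derivation.leibniz_pow, pderiv_X_of_ne (Fin.succ_ne_zero i).symm,
    smul_zero, smul_zero, smul_zero, add_zero, smul_eq_mul, pderiv_rename (Fin.succ_injective _)]

private theorem pd_comm3 (i j : Fin 3) (F : MvPolynomial (Fin 3) ℂ) :
    pderiv i (pderiv j F) = pderiv j (pderiv i F) := by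
  induction F using MvPolynomial.induction_on with
  | C a => simp
  | add p r hp hr => simp only [map_add, hp, hr]
  | mul_X p l hp =>
    have hX : ∀ a b : Fin 3, pderiv a (pderiv b (X l : MvPolynomial (Fin 3) ℂ)) = 0 := by
      intro a b
      by_cases h : l = b
      · subst h
        rw [pderiv_X_self, pderiv_one]
      · rw [pderiv_X_of_ne h, map_zero]
    simp only [Derivation.leibniz, map_add, smul_eq_mul, hp, hX]
    ring

/-- A nonzero second derivative in the chart. -/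
private theorem exists_hess_ne {F : MvPolynomial (Fin 3) ℂ} {d : ℕ} (hF : F.IsHomogeneous d)
    {q : Fin 3 → ℂ} {j₀ : Fin 3} (hq : q j₀ = 1) (hs : ∀ j, eval q (pderiv j F) = 0)
    {i j : Fin 3} (hh : eval q (pderiv i (pderiv j F)) ≠ 0) :
    ∃ l m : Fin 2, eval q (pderiv (j₀.succAbove l) (pderiv (j₀.succAbove m) F)) ≠ 0 := by
  by_contra hcon
  push Not at hcon
  have hHq : ∀ i, ∑ j, eval q (pderiv i (pderiv j F)) * q j = 0 := by
    intro i
    have h1 := (hF.pderiv (i := i)).sum_X_mul_pderiv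
    have h2 := congrArg (eval q) h1
    rw [map_sum, map_nsmul, hs i, smul_zero] at h2
    rw [← h2]
    refine Finset.sum_congr rfl fun j _ => ?_
    rw [map_mul, eval_X, mul_comm, pd_comm3]
  have h1 : ∀ l : Fin 2, eval q (pderiv (j₀.succAbove l) (pderiv j₀ F)) = 0 := by
    intro l
    have h2 := hHq (j₀.succAbove l)
    rw [Fin.sum_univ_succAbove _ j₀, hq, mul_one, Finset.sum_eq_zero, add_zero] at h2
    · exact h2
    · intro m _
      rw [hcon l m, zero_mul]
  have h3 : eval q (pderiv j₀ (pderiv j₀ F)) = 0 := by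
    have h2 := hHq j₀
    rw [Fin.sum_univ_succAbove _ j₀, hq, mul_one, Finset.sum_eq_zero, add_zero] at h2
    · exact h2
    · intro m _
      rw [pd_comm3, h1 m, zero_mul]
  apply hh
  rcases Fin.eq_self_or_eq_succAbove j₀ i with rfl | ⟨l, rfl⟩
  · rcases Fin.eq_self_or_eq_succAbove i j with rfl | ⟨m, rfl⟩
    · exact h3
    · rw [pd_comm3]
      exact h1 m
  · rcases Fin.eq_self_or_eq_succAbove j₀ j with rfl | ⟨m, rfl⟩
    · exact h1 l
    · exact hcon l m

/-- The normal form at a double point `q` of the curve `f_d = 0`. As `YL.ueq_node`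
(`agYL/Hess.lean`); by Euler's formula the matrix `∂_i ∂_j F(q)`, which kills `q`, has a nonzero
entry with `i, j ≠ j₀`. -/
theorem exists_ueq2_hg {f : MvPolynomial (Fin 3) ℂ} {d : ℕ} {q : Fin 3 → ℂ} {j₀ : Fin 3}
    (hq : q j₀ = 1) (h0 : eval q (homogeneousComponent d f) = 0)
    (hs : ∀ j, eval q (pderiv j (homogeneousComponent d f)) = 0) {i j : Fin 3}
    (hh : eval q (pderiv i (pderiv j (homogeneousComponent d f))) ≠ 0) :
    ∃ k : P2, MvPowerSeries.constantCoeff k = 0 ∧
      UEq2 (hg f d q j₀ : MvPowerSeries (Fin 3) ℂ) k 2 := by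
  have e1 : (1 : Fin 3) = (0 : Fin 2).succ := rfl
  have e2 : (2 : Fin 3) = (1 : Fin 2).succ := rfl
  obtain ⟨l, m, hlm⟩ := exists_hess_ne (homogeneousComponent_isHomogeneous d f) hq hs hh
  refine exists_ueq2 (i := l) (j := m) ?_ ?_ ?_ ?_
  · rw [cc_coe, hg, cc_hgsum, constantCoeff_gch' _ hq]
    exact h0
  · rw [MvPowerSeries.pderiv_coe, cc_coe, hg, e1, pd_hgsum, cc_hgsum,
      pderiv_gch', constantCoeff_gch' _ hq]
    exact hs _
  · rw [MvPowerSeries.pderiv_coe, cc_coe, hg, e2, pd_hgsum, cc_hgsum,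
      pderiv_gch', constantCoeff_gch' _ hq]
    exact hs _
  · rw [MvPowerSeries.pderiv_coe, MvPowerSeries.pderiv_coe, cc_coe, hg, pd_hgsum, pd_hgsum,
      cc_hgsum, pderiv_gch', pderiv_gch', constantCoeff_gch' _ hq]
    exact hlm

/-- If `k(0, y) = 0`, then `gch f_d = h(0, x, y)` would be a unit times the square of a power
series without constant term, a contradiction to `SI.isoSing_gch`. -/
theorem exists_yOrd {f : MvPolynomial (Fin 3) ℂ} {d : ℕ} {q : Fin 3 → ℂ} {j₀ : Fin 3}
    (hq : q j₀ = 1) (hsq : Squarefree (homogeneousComponent d f)) {k : P2}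
    (hk0 : MvPowerSeries.constantCoeff k = 0)
    (hk : UEq2 (hg f d q j₀ : MvPowerSeries (Fin 3) ℂ) k 2) : ∃ M, 1 ≤ M ∧ YOrd k 0 M := by
  exact exists_yOrd' hq hsq hk0 hk

end YX

end MPb07157
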