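import Pool.Agent.Lib.MP_b07157_agYX.Ch2
import Pool.Agent.Lib.MP_b07157_agV.H1
import Pool.Agent.Lib.MP_b07157_agR.Der

/-!
# The components of `k` for isolated singularities
-/

noncomputable section

namespace MPb07157

open MvPolynomial

namespace YX

open PC SU SI YL

/-- If `X_i^2` divides `g ∘ θ`, then `X_i` divides the derivatives of `g` at `θ`. -/
theorem dvd_subst_pderiv {g : P2} {θ : Fin 2 → P2}
    (h0 : ∀ i, MvPowerSeries.constantCoeff (θ i) = 0) {i : Fin 2}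
    (hJ : ¬ MvPowerSeries.X i ∣ jac θ)
    (hB : (MvPowerSeries.X i : P2) ^ 2 ∣ MvPowerSeries.subst θ g) (l : Fin 2) :
    MvPowerSeries.X i ∣ MvPowerSeries.subst θ (MvPowerSeries.pderiv ℂ l g) := by
  have hpr := prime_X2 i
  obtain ⟨c, hc⟩ := hB
  have hd : ∀ j, MvPowerSeries.X i ∣ MvPowerSeries.pderiv ℂ j (MvPowerSeries.subst θ g) := by
    intro j
    rw [hc, Derivation.leibniz, Derivation.leibniz_pow, smul_eq_mul, smul_eq_mul, smul_eq_mul,
      nsmul_eq_mul]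
    exact ⟨MvPowerSeries.X i * MvPowerSeries.pderiv ℂ j c +
      c * (2 * MvPowerSeries.pderiv ℂ j (MvPowerSeries.X i)), by push_cast; ring⟩
  obtain ⟨a, ha⟩ := hd 0
  obtain ⟨b, hb⟩ := hd 1
  rw [PC.pderiv_subst h0, Fin.sum_univ_two] at ha hb
  refine (hpr.dvd_or_dvd ?_).resolve_left hJ
  unfold jac
  rcases (show l = 0 ∨ l = 1 by omega) with rfl | rfl
  · refine ⟨a * MvPowerSeries.pderiv ℂ 1 (θ 1) - b * MvPowerSeries.pderiv ℂ 0 (θ 1), ?_⟩
    linear_combination (MvPowerSeries.pderiv ℂ 1 (θ 1)) * ha -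
      (MvPowerSeries.pderiv ℂ 0 (θ 1)) * hb
  · refine ⟨b * MvPowerSeries.pderiv ℂ 0 (θ 0) - a * MvPowerSeries.pderiv ℂ 1 (θ 0), ?_⟩
    linear_combination (MvPowerSeries.pderiv ℂ 0 (θ 0)) * hb -
      (MvPowerSeries.pderiv ℂ 1 (θ 0)) * ha

/-- Cramer's rule modulo a prime. -/
theorem dvd_of_vecMul {R : Type} [CommRing R] {p : R} (hp : Prime p)
    (M : Matrix (Fin 3) (Fin 3) R) (hM : ¬ p ∣ M.det) (a : Fin 3 → R)
    (h : ∀ j, p ∣ ∑ i, a i * M i j) (i : Fin 3) : p ∣ a i := by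
  have h1 : Matrix.vecMul (Matrix.vecMul a M) M.adjugate = M.det • a := by
    rw [Matrix.vecMul_vecMul, Matrix.mul_adjugate, Matrix.vecMul_smul, Matrix.vecMul_one]
  have h2 := congrFun h1 i
  rw [Pi.smul_apply, smul_eq_mul] at h2
  refine (hp.dvd_or_dvd (a := M.det) (b := a i) ?_).resolve_left hM
  rw [← h2]
  have h3 : Matrix.vecMul (Matrix.vecMul a M) M.adjugate i =
      ∑ j, (∑ i, a i * M i j) * M.adjugate j i := rfl
  rw [h3]
  exact Finset.dvd_sum fun j _ => Dvd.dvd.mul_right (h j) _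

/-- The multiplicity of each component of `k` different from the axis `u = 0` is one. If `k ∘ θ` is
divisible by `X_1^B`, `B ≥ 2`, then `k` and its derivatives vanish at the arc
`t ↦ θ(t, 0)` (chain rule, `X_1 ∤ jac θ`), the derivatives of `u^d (k + x^e) U` vanish at
`t ↦ (θ(t, 0), 0)`, so that those of `f` vanish at the image `X(t) = u ξ` (chain rule,
determinant `u² D ≠ 0`), hence `X_i(t)^N = 0` for all `i`, but some `X_i(t) = u · unit ≠ 0`. -/
theorem axOK2_of_iso {f : MvPolynomial (Fin 3) ℂ} (hf : Isol f) {d e : ℕ} (he : 2 ≤ e) {k : P2}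
    {ξ : Fin 3 → MvPowerSeries (Fin 3) ℂ} {U D : MvPowerSeries (Fin 3) ℂ}
    (hc : IsChart f d k e ξ U D) {s : ℚ} (hs : -1 < s) : AxOK2 k s := by
  intro θ h0 hθ hJ B hB0 hB hcon
  have hpr := prime_X2 1
  have hB2 : 2 ≤ B := by
    by_contra hlt
    have h1 : B = 1 := by omega
    rw [h1] at hcon
    push_cast at hcon
    linarith
  have hk2 : (MvPowerSeries.X 1 : P2) ^ 2 ∣ MvPowerSeries.subst θ k :=
    (pow_dvd_pow _ hB2).trans hB.1
  have hk1 : (MvPowerSeries.X 1 : P2) ∣ MvPowerSeries.subst θ k :=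
    (dvd_pow_self _ two_ne_zero).trans hk2
  have hl := dvd_subst_pderiv h0 hJ hk2
  -- the homomorphisms
  have hΦ0 : ∀ i, MvPowerSeries.constantCoeff (MvPowerSeries.X 0 * ξ i) = 0 := by
    intro i
    rw [map_mul, MvPowerSeries.constantCoeff_X, zero_mul]
  have hΦs : MvPowerSeries.HasSubst (fun i => MvPowerSeries.X 0 * ξ i) :=
    MvPowerSeries.hasSubst_of_constantCoeff_zero hΦ0
  set Φ : MvPowerSeries (Fin 3) ℂ →ₐ[ℂ] MvPowerSeries (Fin 3) ℂ :=
    MvPowerSeries.substAlgHom (R := ℂ) hΦs with hΦdef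
  have hΦa : ∀ a, Φ a = MvPowerSeries.subst (fun i => MvPowerSeries.X 0 * ξ i) a := fun a => by
    rw [hΦdef]
    exact congrFun (MvPowerSeries.coe_substAlgHom hΦs) a
  have hΦX : ∀ i, Φ (MvPowerSeries.X i) = MvPowerSeries.X 0 * ξ i := fun i => by
    rw [hΦa]
    exact MvPowerSeries.subst_X hΦs i
  have hΨ0 : ∀ i, MvPowerSeries.constantCoeff ((![θ 0, θ 1, 0] : Fin 3 → P2) i) = 0 := by
    intro i
    fin_cases i
    · exact h0 0
    · exact h0 1
    · exact map_zero _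
  have hΨs : MvPowerSeries.HasSubst (![θ 0, θ 1, 0] : Fin 3 → P2) :=
    MvPowerSeries.hasSubst_of_constantCoeff_zero hΨ0
  set Ψ : MvPowerSeries (Fin 3) ℂ →ₐ[ℂ] P2 := MvPowerSeries.substAlgHom (R := ℂ) hΨs with hΨdef
  have hΨa : ∀ a, Ψ a = MvPowerSeries.subst (![θ 0, θ 1, 0] : Fin 3 → P2) a := fun a => by
    rw [hΨdef]
    exact congrFun (MvPowerSeries.coe_substAlgHom hΨs) a
  have hΨX : ∀ i, Ψ (MvPowerSeries.X i) = (![θ 0, θ 1, 0] : Fin 3 → P2) i := fun i => by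
    rw [hΨa]
    exact MvPowerSeries.subst_X hΨs i
  have hι0 : ∀ j : Fin 2, MvPowerSeries.constantCoeff
      (MvPowerSeries.X j.castSucc : MvPowerSeries (Fin 3) ℂ) = 0 := fun j =>
    MvPowerSeries.constantCoeff_X _
  have hιs : MvPowerSeries.HasSubst
      (fun j : Fin 2 => (MvPowerSeries.X j.castSucc : MvPowerSeries (Fin 3) ℂ)) :=
    MvPowerSeries.hasSubst_of_constantCoeff_zero hι0
  set ι : P2 →ₐ[ℂ] MvPowerSeries (Fin 3) ℂ := MvPowerSeries.substAlgHom (R := ℂ) hιs with hιdef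
  have hιa : ∀ a, ι a = MvPowerSeries.subst
      (fun j : Fin 2 => (MvPowerSeries.X j.castSucc : MvPowerSeries (Fin 3) ℂ)) a := fun a => by
    rw [hιdef]
    exact congrFun (MvPowerSeries.coe_substAlgHom hιs) a
  have hιX : ∀ j : Fin 2, ι (MvPowerSeries.X j) =
      (MvPowerSeries.X j.castSucc : MvPowerSeries (Fin 3) ℂ) := fun i => by
    rw [hιa]
    exact MvPowerSeries.subst_X hιs i
  have hΨι : ∀ a, Ψ (ι a) = MvPowerSeries.subst θ a := by
    intro a
    rw [hΨa, hιa, MvPowerSeries.subst_comp_subst_apply hιs hΨs]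
    congr 1
    funext j
    rw [MvPowerSeries.subst_X hΨs]
    fin_cases j
    · rfl
    · rfl
  have hunit : ∀ a : MvPowerSeries (Fin 3) ℂ, MvPowerSeries.constantCoeff a ≠ 0 →
      ¬ (MvPowerSeries.X 1 : P2) ∣ Ψ a := by
    intro a ha hdv
    have h1 : IsUnit a := MvPowerSeries.isUnit_iff_constantCoeff.2 (isUnit_iff_ne_zero.2 ha)
    exact hpr.not_isUnit (isUnit_of_dvd_unit hdv (h1.map Ψ))
  -- `h = k + x^e` and its derivatives at the arc
  have hkz : kz k e = ι k + MvPowerSeries.X 2 ^ e := by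
    rw [hιa]
    rfl
  have hX2 : Ψ (MvPowerSeries.X 2) = 0 := by
    rw [hΨX]
    rfl
  have hh : (MvPowerSeries.X 1 : P2) ∣ Ψ (kz k e) := by
    rw [hkz, map_add, hΨι, map_pow, hX2, zero_pow (by omega), add_zero]
    exact hk1
  have hdh : ∀ j, (MvPowerSeries.X 1 : P2) ∣ Ψ (MvPowerSeries.pderiv ℂ j (kz k e)) := by
    intro j
    rw [hkz, map_add, Derivation.leibniz_pow, ARL.chain (θ := ι)
      (fun i => by rw [hιX]; exact hι0 i) (MvPowerSeries.pderiv ℂ j) k, map_add, map_sum,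
      smul_eq_mul, nsmul_eq_mul, map_mul, map_mul, map_pow, hX2, zero_pow (by omega), zero_mul,
      mul_zero, add_zero]
    refine Finset.dvd_sum fun i _ => ?_
    rw [map_mul, hΨι]
    exact (hl i).mul_right _
  -- `F = u^d h U` and its derivatives at the arc
  have hdF : ∀ j, (MvPowerSeries.X 1 : P2) ∣
      Ψ (MvPowerSeries.pderiv ℂ j (Φ (f : MvPowerSeries (Fin 3) ℂ))) := by
    intro j
    rw [hΦa, hc.hf, Derivation.leibniz, Derivation.leibniz (MvPowerSeries.pderiv ℂ j) (kz k e) U,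
      smul_eq_mul, smul_eq_mul, smul_eq_mul, smul_eq_mul, map_add, map_mul, map_add, map_mul,
      map_mul, map_mul, map_mul]
    refine dvd_add (Dvd.dvd.mul_left (dvd_add (hh.mul_right _) ((hdh j).mul_left _)) _) ?_
    exact (hh.mul_right _).mul_right _
  have hsum : ∀ j, (MvPowerSeries.X 1 : P2) ∣ ∑ i, Ψ (Φ (pderiv i f : MvPolynomial (Fin 3) ℂ)) *
      (Matrix.of fun i j : Fin 3 => Ψ (MvPowerSeries.pderiv ℂ j
        (MvPowerSeries.X 0 * ξ i : MvPowerSeries (Fin 3) ℂ))) i j := by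
    intro j
    have h1 := hdF j
    rw [ARL.chain (θ := Φ) (fun i => by rw [hΦX]; exact hΦ0 i) (MvPowerSeries.pderiv ℂ j)
      (f : MvPowerSeries (Fin 3) ℂ), map_sum] at h1
    convert h1 using 1
    refine Finset.sum_congr rfl fun i _ => ?_
    rw [map_mul, hΦX, MvPowerSeries.pderiv_coe, Matrix.of_apply]
  have hdet : (Matrix.of fun i j : Fin 3 => Ψ (MvPowerSeries.pderiv ℂ j
      (MvPowerSeries.X 0 * ξ i : MvPowerSeries (Fin 3) ℂ))).det = θ 0 ^ 2 * Ψ D := by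
    have h1 := congrArg Ψ hc.hdet
    rw [map_mul, map_pow, hΨX] at h1
    rw [AlgHom.map_det] at h1
    exact h1
  have hndet : ¬ (MvPowerSeries.X 1 : P2) ∣ (Matrix.of fun i j : Fin 3 =>
      Ψ (MvPowerSeries.pderiv ℂ j (MvPowerSeries.X 0 * ξ i : MvPowerSeries (Fin 3) ℂ))).det := by
    rw [hdet]
    intro h1
    rcases hpr.dvd_or_dvd h1 with h2 | h2
    · exact hθ (hpr.dvd_of_dvd_pow h2)
    · exact hunit D hc.hD h2
  have hall := dvd_of_vecMul hpr _ hndet _ hsum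
  obtain ⟨N, hN⟩ := hf
  obtain ⟨i, hi⟩ := hc.hξ
  have h1 : Ideal.span (Set.range fun j : Fin 3 =>
      ((pderiv j f : MvPolynomial (Fin 3) ℂ) : MvPowerSeries (Fin 3) ℂ)) ≤
      (Ideal.span {(MvPowerSeries.X 1 : P2)}).comap (Ψ.comp Φ) := by
    rw [Ideal.span_le]
    rintro _ ⟨j, rfl⟩
    rw [SetLike.mem_coe, Ideal.mem_comap, Ideal.mem_span_singleton]
    exact hall j
  have h2 := h1 (hN i)
  rw [Ideal.mem_comap, Ideal.mem_span_singleton, map_pow] at h2
  have h3 := hpr.dvd_of_dvd_pow h2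
  rw [AlgHom.comp_apply, hΦX, map_mul, hΨX] at h3
  rcases hpr.dvd_or_dvd h3 with h4 | h4
  · exact hθ h4
  · exact hunit _ hi h4

end YX

end MPb07157
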