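import Pool.Agent.Lib.MP_b07157_agYL.Hess
import Pool.Agent.Lib.MP_b07157_agI.Geo

/-!
# Double points of curves of low degree
-/

noncomputable section

namespace MPb07157

open MvPolynomial

namespace YX

open PC SU SI YL

namespace Geo2

theorem pderiv_gch (F : MvPolynomial (Fin 3) ℂ) (q : Fin 3 → ℂ) (j₀ : Fin 3) (i : Fin 2) :
    pderiv i (gch F q j₀) = gch (pderiv (j₀.succAbove i) F) q j₀ := by
  unfold gch
  induction F using MvPolynomial.induction_on with
  | C a => simp
  | add p r hp hr => simp only [map_add, hp, hr]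
  | mul_X p l hp =>
    rw [map_mul, aeval_X, Derivation.leibniz, hp, Derivation.leibniz, map_add, smul_eq_mul,
      smul_eq_mul, smul_eq_mul, smul_eq_mul, map_mul, map_mul, aeval_X]
    rcases Fin.eq_self_or_eq_succAbove j₀ l with rfl | ⟨m, rfl⟩
    · rw [Fin.insertNth_apply_same, pderiv_one, pderiv_X_of_ne (Fin.succAbove_ne _ _).symm]
      simp
    · rw [Fin.insertNth_apply_succAbove, map_add, pderiv_C, add_zero]
      by_cases h : m = i
      · subst h
        rw [pderiv_X_self, pderiv_X_self, map_one]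
      · rw [pderiv_X_of_ne h, pderiv_X_of_ne (fun hh => h (Fin.succAbove_right_injective hh))]
        simp

theorem constantCoeff_gch (F : MvPolynomial (Fin 3) ℂ) {q : Fin 3 → ℂ} {j₀ : Fin 3}
    (hq : q j₀ = 1) : constantCoeff (gch F q j₀) = eval q F := by
  unfold gch
  induction F using MvPolynomial.induction_on with
  | C a => simp
  | add p r hp hr => simp only [map_add, hp, hr]
  | mul_X p l hp =>
    rw [map_mul, map_mul, map_mul, hp, aeval_X, eval_X]
    congr 1
    rcases Fin.eq_self_or_eq_succAbove j₀ l with rfl | ⟨m, rfl⟩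
    · rw [Fin.insertNth_apply_same, map_one, hq]
    · rw [Fin.insertNth_apply_succAbove]
      simp

theorem constantCoeff_coe' {n : ℕ} (f : MvPolynomial (Fin n) ℂ) :
    MvPowerSeries.constantCoeff (f : MvPowerSeries (Fin n) ℂ) = constantCoeff f := by
  rw [← MvPowerSeries.coeff_zero_eq_constantCoeff_apply, MvPolynomial.coeff_coe]
  rfl

theorem hess2_gch (F : MvPolynomial (Fin 3) ℂ) {q : Fin 3 → ℂ} {j₀ : Fin 3} (hq : q j₀ = 1) :
    hess2 (gch F q j₀ : PC.P2) =
      eval q (pderiv (j₀.succAbove 0) (pderiv (j₀.succAbove 0) F)) *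
        eval q (pderiv (j₀.succAbove 1) (pderiv (j₀.succAbove 1) F)) -
      eval q (pderiv (j₀.succAbove 0) (pderiv (j₀.succAbove 1) F)) ^ 2 := by
  unfold hess2
  simp only [MvPowerSeries.pderiv_coe, constantCoeff_coe', pderiv_gch, constantCoeff_gch _ hq]

theorem pderiv_comm3 (i j : Fin 3) (F : MvPolynomial (Fin 3) ℂ) :
    pderiv i (pderiv j F) = pderiv j (pderiv i F) := by
  induction F using MvPolynomial.induction_on with
  | C a => simp
  | add p r hp hr => simp only [map_add, hp, hr]
  | mul_X p l hp =>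
    have hX : ∀ a b : Fin 3, pderiv a (pderiv b (X l : MvPolynomial (Fin 3) ℂ)) = 0 := by
      intro a b
      by_cases h : l = b
      · subst h
        rw [pderiv_X_self, pderiv_one]
      · rw [pderiv_X_of_ne h, map_zero]
    simp only [Derivation.leibniz, map_add, smul_eq_mul, hp, hX]
    ring

/-- A form of degree zero is a constant. -/
theorem eq_C {G : MvPolynomial (Fin 3) ℂ} (hG : G.IsHomogeneous 0) (q : Fin 3 → ℂ) :
    G = C (eval q G) := by
  rw [← totalDegree_zero_iff_isHomogeneous, totalDegree_eq_zero_iff_eq_C] at hG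
  rw [hG, eval_C]

/-- A form of degree one is the sum of its partial derivatives times the variables. -/
theorem eq_sum {G : MvPolynomial (Fin 3) ℂ} (hG : G.IsHomogeneous 1) :
    G = ∑ i, X i * pderiv i G := by
  have h := hG.sum_X_mul_pderiv
  rw [one_smul] at h
  exact h.symm

/-- Square roots of a degenerate binary quadratic form. -/
theorem exists_sqrt {a b c : ℂ} (h : a * c - b ^ 2 = 0) :
    ∃ α β : ℂ, α ^ 2 = a ∧ α * β = b ∧ β ^ 2 = c := by
  by_cases ha : a = 0
  · subst ha
    have hb : b = 0 := by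
      have h1 : b ^ 2 = 0 := by linear_combination -h
      exact pow_eq_zero_iff (two_ne_zero) |>.1 h1
    obtain ⟨β, hβ⟩ := IsAlgClosed.exists_pow_nat_eq c (n := 2) (by norm_num)
    exact ⟨0, β, by ring, by rw [hb, zero_mul], hβ⟩
  · obtain ⟨α, hα⟩ := IsAlgClosed.exists_pow_nat_eq a (n := 2) (by norm_num)
    have hα0 : α ≠ 0 := by
      rintro rfl
      apply ha
      rw [← hα]
      ring
    refine ⟨α, b / α, hα, by field_simp, ?_⟩
    rw [div_pow, hα]
    field_simp
    linear_combination -h

end Geo2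

open Geo2 in
/-- A reduced curve of degree at most two has only nodes. -/
theorem three_le {F : MvPolynomial (Fin 3) ℂ} {d : ℕ} (hF : F.IsHomogeneous d)
    (hsq : Squarefree F) {q : Fin 3 → ℂ} {j₀ : Fin 3} (hq : q j₀ = 1)
    (hs : ∀ j, eval q (pderiv j F) = 0) (hh : hess2 (gch F q j₀ : P2) = 0)
    (h0 : eval q F = 0) : 3 ≤ d := by
  by_contra hd
  have hF0 : F ≠ 0 := hsq.ne_zero
  have hd' : d = 0 ∨ d = 1 ∨ d = 2 := by omega
  rcases hd' with rfl | rfl | rfl
  · apply hF0
    rw [eq_C hF q, h0, C_0]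
  · apply hF0
    rw [eq_sum hF]
    refine Finset.sum_eq_zero fun i _ => ?_
    have h1 : (pderiv i F).IsHomogeneous 0 := hF.pderiv
    rw [eq_C h1 q, hs i, C_0, mul_zero]
  · have hF1 : ∀ i, (pderiv i F).IsHomogeneous 1 := fun i => hF.pderiv
    set H : Fin 3 → Fin 3 → ℂ := fun i j => eval q (pderiv i (pderiv j F)) with hH
    have hHC : ∀ i j, pderiv i (pderiv j F) = C (H i j) := fun i j => by
      have h1 : (pderiv i (pderiv j F)).IsHomogeneous 0 := (hF1 j).pderiv
      exact eq_C h1 q
    have hsymm : ∀ i j, H i j = H j i := fun i j => by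
      simp only [hH]
      rw [pderiv_comm3]
    have hlin : ∀ j, pderiv j F = ∑ i, X i * C (H i j) := fun j => by
      rw [eq_sum (hF1 j)]
      exact Finset.sum_congr rfl fun i _ => by rw [hHC]
    have hHq : ∀ j, ∑ i, q i * H i j = 0 := fun j => by
      have h1 := hs j
      rw [hlin j, map_sum] at h1
      simpa using h1
    have h2F : (2 : MvPolynomial (Fin 3) ℂ) * F = ∑ j, X j * ∑ i, X i * C (H i j) := by
      have h1 := hF.sum_X_mul_pderiv
      rw [two_smul, ← two_mul] at h1
      rw [← h1]
      exact Finset.sum_congr rfl fun j _ => by rw [hlin j]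
    rw [hess2_gch F hq] at hh
    obtain ⟨α, β, hα, hαβ, hβ⟩ := exists_sqrt hh
    set a := j₀.succAbove 0 with ha
    set b := j₀.succAbove 1 with hb
    have hsum : ∀ {M : Type} [AddCommMonoid M] (g : Fin 3 → M),
        ∑ i, g i = g j₀ + (g a + g b) := by
      intro M _ g
      rw [Fin.sum_univ_succAbove _ j₀, Fin.sum_univ_two]
    change α ^ 2 = H a a at hα
    change α * β = H a b at hαβ
    change β ^ 2 = H b b at hβ
    have hqa := hHq a
    have hqb := hHq b
    have hq0 := hHq j₀
    rw [hsum, hq, one_mul] at hqa hqb hq0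
    have e1 : H j₀ a = -(q a * H a a + q b * H b a) := by linear_combination hqa
    have e2 : H j₀ b = -(q a * H a b + q b * H b b) := by linear_combination hqb
    have e3 : H j₀ j₀ = -(q a * H a j₀ + q b * H b j₀) := by linear_combination hq0
    set L : MvPolynomial (Fin 3) ℂ :=
      C α * (X a - C (q a) * X j₀) + C β * (X b - C (q b) * X j₀) with hL
    have key : (2 : MvPolynomial (Fin 3) ℂ) * F = L * L := by
      rw [h2F]
      simp only [hsum]
      rw [hsymm b a, ← hαβ] at e1
      rw [← hαβ, ← hβ] at e2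
      rw [← hα] at e1
      rw [hsymm a j₀, hsymm b j₀, e1, e2] at e3
      rw [hsymm a j₀, hsymm b j₀, hsymm b a, e1, e2, e3, ← hα, ← hαβ, ← hβ, hL]
      simp only [map_neg, map_add, map_mul, map_pow]
      ring
    have hdvd : L * L ∣ F := by
      refine ⟨C (1 / 2), ?_⟩
      rw [← key]
      have h3 : (C (1 / 2) : MvPolynomial (Fin 3) ℂ) * 2 = 1 := by
        rw [← map_ofNat (C : ℂ →+* MvPolynomial (Fin 3) ℂ) 2, ← map_mul]
        norm_num
      linear_combination (-F) * h3
    have hu : IsUnit L := hsq L hdvd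
    have hu2 : IsUnit F := by
      have h3 : IsUnit ((2 : MvPolynomial (Fin 3) ℂ) * F) := by
        rw [key]
        exact hu.mul hu
      exact isUnit_of_mul_isUnit_right h3
    obtain ⟨c, hc, hcF⟩ := (MvPolynomial.isUnit_iff_eq_C_of_isReduced).1 hu2
    have h4 : F.IsHomogeneous 0 := by
      rw [hcF]
      exact isHomogeneous_C _ _
    exact absurd (hF.inj_right h4 hF0) (by norm_num)

end YX

end MPb07157
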