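import Pool.Agent.Lib.MP_b07157_agV.R3

/-!
# Forms with real exponents which are not exact
-/

noncomputable section

namespace MPb07157

open MvPolynomial

namespace YX

open PC

/-- The form `z^{e + s κ + a₀ κ'} ∏ (z - c)^{s μ_c} dz` is not exact if it has at least three special
points and all `ε` are at most `1`. As `PC.not_exact_of_le` (`agV/R3.lean`). -/
theorem not_exact_of_le2 {δ : Derivation ℂ (RatFunc ℂ) (RatFunc ℂ)}
    (hδ : ∀ P : Polynomial ℂ, δ (algebraMap (Polynomial ℂ) (RatFunc ℂ) P) =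
      algebraMap (Polynomial ℂ) (RatFunc ℂ) (Polynomial.derivative P))
    {e κ κ' : ℕ} {R : Finset ℂ} (hR0 : (0 : ℂ) ∉ R) {μ : ℂ → ℕ} {a₀ s : ℚ} (hs : s < 0)
    {ε₀ ε₁ : ℚ} (h₀ : ε₀ = e + 1 + s * κ + a₀ * κ')
    (h₁ : ε₁ = -(ε₀ + s * ∑ c ∈ R, (μ c : ℚ)))
    (h₀u : ε₀ ≤ 1) (h₁u : ε₁ ≤ 1) (hc : ∀ c ∈ R, 0 < μ c)
    (h3 : 3 ≤ R.card + (if ε₀ = 1 then 0 else 1) + (if ε₁ = 1 then 0 else 1))
    {w lam v : ℂ} (hw : w ≠ 0) (hlam : lam ≠ 0) (hv : v ≠ 0) {f₀ u₀ : RatFunc ℂ}
    (hf₀ : f₀ = algebraMap (Polynomial ℂ) (RatFunc ℂ)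
      (Polynomial.C lam * Polynomial.X ^ κ * ∏ c ∈ R, (Polynomial.X - Polynomial.C c) ^ μ c))
    (hu₀ : u₀ = algebraMap (Polynomial ℂ) (RatFunc ℂ) (Polynomial.C v * Polynomial.X ^ κ')) :
    ¬ ∃ r : RatFunc ℂ, algebraMap (Polynomial ℂ) (RatFunc ℂ)
      (Polynomial.C w * Polynomial.X ^ e) = δ r + ((a₀ : RatFunc ℂ) * (δ u₀ / u₀) +
        (s : RatFunc ℂ) * (δ f₀ / f₀)) * r := by
  classical
  rintro ⟨r, hr⟩
  set φ := algebraMap (Polynomial ℂ) (RatFunc ℂ) with hφ
  have hinj : Function.Injective φ := RatFunc.algebraMap_injective ℂ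
  have hne : ∀ {p : Polynomial ℂ}, p ≠ 0 → φ p ≠ 0 := fun hp h =>
    hp ((map_eq_zero_iff _ hinj).1 h)
  set T : Polynomial ℂ := ∏ c ∈ R, (Polynomial.X - Polynomial.C c) with hT
  set L : Polynomial ℂ := ∑ c ∈ R, Polynomial.C (μ c : ℂ) *
    ∏ d ∈ R.erase c, (Polynomial.X - Polynomial.C d) with hL
  set g : Polynomial ℂ := Polynomial.C lam * Polynomial.X ^ κ *
    ∏ c ∈ R, (Polynomial.X - Polynomial.C c) ^ μ c with hg
  set κ₀ : ℚ := ε₀ - 1 with hκ₀
  set V : Polynomial ℂ := Polynomial.C w * Polynomial.X ^ e with hV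
  have hg0 : g ≠ 0 := by
    rw [hg]
    refine mul_ne_zero (mul_ne_zero (Polynomial.C_ne_zero.2 hlam)
      (pow_ne_zero _ Polynomial.X_ne_zero)) (Finset.prod_ne_zero_iff.2 fun c _ =>
      pow_ne_zero _ (Polynomial.X_sub_C_ne_zero c))
  have hV0 : V ≠ 0 := mul_ne_zero (Polynomial.C_ne_zero.2 hw) (pow_ne_zero _ Polynomial.X_ne_zero)
  have hT0 : T ≠ 0 := Finset.prod_ne_zero_iff.2 fun c _ => Polynomial.X_sub_C_ne_zero c
  have hVd : Polynomial.X * Polynomial.derivative V = Polynomial.C (e : ℂ) * V := by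
    rw [hV, Polynomial.derivative_C_mul]
    rcases e with _ | e
    · simp
    · rw [Polynomial.derivative_X_pow, Nat.add_sub_cancel]
      ring
  have hgd : φ (Polynomial.X * T) * δ f₀ = φ (Polynomial.C (κ : ℂ) * T + Polynomial.X * L) * f₀ := by
    rw [hf₀, hδ, ← map_mul, ← map_mul, mul_deriv_f0]
  have hf0 : f₀ ≠ 0 := by
    rw [hf₀]
    exact hne hg0
  have hfd : φ (Polynomial.X * T) * (δ f₀ / f₀) =
      φ (Polynomial.C (κ : ℂ) * T + Polynomial.X * L) := by
    rw [← mul_div_assoc, hgd, mul_div_assoc, div_self hf0, mul_one]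
  have hu0 : u₀ ≠ 0 := by
    rw [hu₀]
    exact hne (mul_ne_zero (Polynomial.C_ne_zero.2 hv) (pow_ne_zero _ Polynomial.X_ne_zero))
  have hud : φ Polynomial.X * (δ u₀ / u₀) = φ (Polynomial.C (κ' : ℂ)) := by
    have h5 : Polynomial.X * Polynomial.derivative (Polynomial.C v * Polynomial.X ^ κ') =
        Polynomial.C (κ' : ℂ) * (Polynomial.C v * Polynomial.X ^ κ') := by
      rw [Polynomial.derivative_C_mul]
      rcases κ' with _ | κ'
      · simp
      · rw [Polynomial.derivative_X_pow, Nat.add_sub_cancel]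
        ring
    rw [← mul_div_assoc, div_eq_iff hu0]
    rw [hu₀, hδ, ← map_mul, ← map_mul, h5]
  -- the reduced equation
  set ρ : RatFunc ℂ := r / φ V with hρ
  have hrρ : r = φ V * ρ := by
    rw [hρ, mul_div_cancel₀ _ (hne hV0)]
  have hsφ : (s : RatFunc ℂ) = φ (Polynomial.C (s : ℂ)) := by
    have h5 : φ (Polynomial.C (s : ℂ)) = algebraMap ℂ (RatFunc ℂ) (s : ℂ) := rfl
    rw [h5, map_ratCast]
  have haφ : (a₀ : RatFunc ℂ) = φ (Polynomial.C (a₀ : ℂ)) := by
    have h5 : φ (Polynomial.C (a₀ : ℂ)) = algebraMap ℂ (RatFunc ℂ) (a₀ : ℂ) := rfl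
    rw [h5, map_ratCast]
  have hred : φ (Polynomial.X * T) = φ (Polynomial.X * T) * δ ρ +
      φ (Polynomial.C (κ₀ : ℂ) * T + Polynomial.C (s : ℂ) * Polynomial.X * L) * ρ := by
    have h5 : δ r = φ (Polynomial.derivative V) * ρ + φ V * δ ρ := by
      rw [hrρ, Derivation.leibniz, hδ, smul_eq_mul, smul_eq_mul]
      ring
    have h6 : φ V * φ (Polynomial.X * T) = φ V * (φ (Polynomial.X * T) * δ ρ +
      φ (Polynomial.C (κ₀ : ℂ) * T + Polynomial.C (s : ℂ) * Polynomial.X * L) * ρ) := by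
      have h7 : φ V * φ (Polynomial.X * T) = φ (T * (Polynomial.X * Polynomial.derivative V)) * ρ +
          φ V * φ (Polynomial.X * T) * δ ρ + ((a₀ : RatFunc ℂ) *
            (φ T * (φ Polynomial.X * (δ u₀ / u₀))) + (s : RatFunc ℂ) *
            (φ (Polynomial.X * T) * (δ f₀ / f₀))) * r := by
        simp only [map_mul]
        linear_combination (φ Polynomial.X * φ T) * hr + (φ Polynomial.X * φ T) * h5
      rw [h7, hfd, hud, hVd, hrρ, hsφ, haφ]
      have h8 : (κ₀ : ℂ) = (e : ℂ) + (s : ℂ) * (κ : ℂ) + (a₀ : ℂ) * (κ' : ℂ) := by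
        rw [hκ₀, h₀]
        push_cast
        ring
      rw [h8]
      simp only [map_mul, map_add]
      ring
    exact mul_left_cancel₀ (hne hV0) h6
  -- the polynomial equation
  set P := ρ.num with hP
  set Q := ρ.denom with hQ
  have hQ0 : Q ≠ 0 := ρ.denom_ne_zero
  have hPQ : φ P = ρ * φ Q := by
    rw [hP, hQ, hφ]
    exact ((div_eq_iff (hne ρ.denom_ne_zero)).1 ρ.num_div_denom)
  have hdρ : δ ρ * φ Q ^ 2 = φ (Polynomial.derivative P * Q - P * Polynomial.derivative Q) := by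
    have h5 := congrArg δ hPQ
    rw [Derivation.leibniz, hδ, hδ, smul_eq_mul, smul_eq_mul] at h5
    rw [map_sub, map_mul, map_mul, h5, hPQ]
    ring
  have hE : Polynomial.X * T * (Polynomial.derivative P * Q - P * Polynomial.derivative Q) +
      (Polynomial.C (κ₀ : ℂ) * T + Polynomial.C (s : ℂ) * Polynomial.X * L) * P * Q =
        (Polynomial.X * T) * Q ^ 2 := by
    apply hinj
    rw [map_add, map_mul φ (Polynomial.X * T), ← hdρ,
      map_mul φ (Polynomial.X * T) (Q ^ 2), map_pow, hred,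
      map_mul φ _ Q, map_mul φ _ P, hPQ, ← hred]
    linear_combination (-(φ Q ^ 2)) * hred
  have hTc : ∀ c ∈ R, T.eval c = 0 := by
    intro c hc
    rw [hT, Polynomial.eval_prod]
    exact Finset.prod_eq_zero hc (by simp)
  have hT0' : T.eval 0 ≠ 0 := by
    rw [hT, Polynomial.eval_prod]
    refine Finset.prod_ne_zero_iff.2 fun c hc => ?_
    simp only [Polynomial.eval_sub, Polynomial.eval_X, Polynomial.eval_C, zero_sub]
    refine neg_ne_zero.2 ?_
    rintro rfl
    exact hR0 hc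
  have hdeg : Q.natDegree = 0 := by
    refine natDegree_den _ _ P Q _ ρ.isCoprime_num_denom hQ0 hE ?_
    intro a ha k hk hak
    rw [Polynomial.derivative_mul, Polynomial.derivative_X, one_mul] at hak
    simp only [Polynomial.eval_add, Polynomial.eval_mul, Polynomial.eval_C,
      Polynomial.eval_X] at hak
    by_cases ha0 : a = 0
    · subst ha0
      rw [mul_zero, zero_mul, add_zero, zero_mul, add_zero] at hak
      have h5 : (κ₀ : ℂ) = (k : ℂ) := mul_right_cancel₀ hT0' hak
      have h6 : κ₀ = k := by exact_mod_cast h5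
      have h7 : (0 : ℚ) < k := by exact_mod_cast hk
      linarith
    · have hTa : T.eval a = 0 := by
        rw [Polynomial.eval_mul, Polynomial.eval_X] at ha
        exact (mul_eq_zero.1 ha).resolve_left ha0
      have haR : a ∈ R := by
        rw [hT, Polynomial.eval_prod] at hTa
        obtain ⟨c, hc, hca⟩ := Finset.prod_eq_zero_iff.1 hTa
        simp only [Polynomial.eval_sub, Polynomial.eval_X, Polynomial.eval_C] at hca
        rw [sub_eq_zero.1 hca]
        exact hc
      set T1 : Polynomial ℂ := ∏ d ∈ R.erase a, (Polynomial.X - Polynomial.C d) with hT1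
      have hTT : T = (Polynomial.X - Polynomial.C a) * T1 := by
        rw [hT, hT1, Finset.mul_prod_erase R (fun c => Polynomial.X - Polynomial.C c) haR]
      have hT1a : T1.eval a ≠ 0 := by
        rw [hT1, Polynomial.eval_prod]
        refine Finset.prod_ne_zero_iff.2 fun d hd => ?_
        simp only [Polynomial.eval_sub, Polynomial.eval_X, Polynomial.eval_C]
        exact sub_ne_zero.2 (Ne.symm (Finset.ne_of_mem_erase hd))
      have hdT : (Polynomial.derivative T).eval a = T1.eval a := by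
        rw [hTT, Polynomial.derivative_mul, Polynomial.derivative_X_sub_C]
        simp
      have hLa : L.eval a = μ a * T1.eval a := by
        rw [hL, Polynomial.eval_finsetSum, Finset.sum_eq_single a]
        · rw [Polynomial.eval_mul, Polynomial.eval_C]
        · intro d hd hda
          rw [Polynomial.eval_mul, Polynomial.eval_prod,
            Finset.prod_eq_zero (Finset.mem_erase.2 ⟨Ne.symm hda, haR⟩) (by simp), mul_zero]
        · intro h
          exact absurd haR h
      rw [hTa, hdT, hLa, mul_zero, zero_add, zero_add] at hak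
      have h5 : (s : ℂ) * (μ a : ℂ) = (k : ℂ) := by
        apply mul_right_cancel₀ (mul_ne_zero ha0 hT1a)
        linear_combination hak
      have h6 : s * (μ a : ℚ) = k := by exact_mod_cast h5
      have h7 : (0 : ℚ) < k := by exact_mod_cast hk
      have h8 : (0 : ℚ) < μ a := by exact_mod_cast hc a haR
      nlinarith
  have hQ1 : Q = 1 := Polynomial.eq_one_of_monic_natDegree_zero (RatFunc.monic_denom ρ) hdeg
  rw [hQ1, Polynomial.derivative_one, mul_zero, sub_zero, mul_one, mul_one, one_pow,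
    mul_one] at hE
  have hcount := poly_count hR0 hs hc (κ₀ := κ₀) (by rw [h₁] at h₁u; linarith) hE
  have h5 : (if κ₀ = 0 then 0 else 1) = (if ε₀ = 1 then 0 else 1) := by
    have : κ₀ = 0 ↔ ε₀ = 1 := by rw [hκ₀]; constructor <;> intro h <;> linarith
    simp only [this]
  have h6 : (if κ₀ + s * ∑ c ∈ R, (μ c : ℚ) = -2 then 1 else 0) =
      (if ε₁ = 1 then 1 else 0) := by
    have : κ₀ + s * ∑ c ∈ R, (μ c : ℚ) = -2 ↔ ε₁ = 1 := by
      rw [hκ₀, h₁]; constructor <;> intro h <;> linarith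
    simp only [this]
  rw [h5, h6] at hcount
  split_ifs at hcount h3 <;> omega

end YX

end MPb07157
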