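import Pool.Agent.Lib.MP_b07157_agYX.Defs
import Pool.Agent.Lib.MP_b07157_agYX.NE

/-!
# The roots of the edges
-/

noncomputable section

namespace MPb07157

open MvPolynomial

namespace YX

open PC

/-- The substitution `(x u^p, y u^q)` in a power series, modulo `u`. -/
theorem subst_kapK_const {K : Type} [Field K] [Algebra ℂ K] {p q : ℕ} (hp : 0 < p) (hq : 0 < q)
    (x y : K) (V : P2) :
    ∃ V₁ : PowerSeries K,
      (MvPowerSeries.subst (kapK p q x y : Fin 2 → MvPowerSeries Unit K) V : PowerSeries K) =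
        PowerSeries.C (algebraMap ℂ K (MvPowerSeries.constantCoeff V)) + PowerSeries.X * V₁ := by
  have h0 := fun i => constantCoeff_kapK (K := K) hp hq x y i
  have hk := hasSubst_kapK (K := K) hp hq x y
  obtain ⟨W₁, hW₁⟩ := X_dvd_subst h0 (W := V - MvPowerSeries.C (MvPowerSeries.constantCoeff V))
    (by rw [map_sub, MvPowerSeries.constantCoeff_C, sub_self])
  refine ⟨W₁, ?_⟩
  have h2 := MvPowerSeries.subst_sub hk V
    (MvPowerSeries.C (MvPowerSeries.constantCoeff V) : P2)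
  have h3 : MvPowerSeries.subst (kapK p q x y : Fin 2 → MvPowerSeries Unit K)
      (MvPowerSeries.C (MvPowerSeries.constantCoeff V) : P2) =
      (PowerSeries.C (algebraMap ℂ K (MvPowerSeries.constantCoeff V)) : PowerSeries K) := by
    rw [← MvPowerSeries.coe_substAlgHom hk]
    exact ((MvPowerSeries.substAlgHom hk).commutes _).trans PowerSeries.algebraMap_apply
  rw [h3] at h2
  have h4 : (MvPowerSeries.subst (kapK p q x y : Fin 2 → MvPowerSeries Unit K) V :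
    PowerSeries K) - PowerSeries.C (algebraMap ℂ K (MvPowerSeries.constantCoeff V)) =
      PowerSeries.X * W₁ := h2.symm.trans hW₁
  linear_combination h4

/-- **Key theorem, root side.** As `PC.root_edge'` (`agV/R5.lean`), with `not_exact_of_le2`; the
first coordinate of the arc is `X^(m p) (v z^(β m) + ⋯)`, `v` the constant coefficient of the unit. -/
theorem root_edge2 {g : P2} {θ : Fin 2 → P2} {F : P2} {ν m : ℕ} (hst : IsStg g θ F ν m)
    {p q A B : ℕ} {lam : ℂ} {R : Finset ℂ} {μ : ℂ → ℕ} (hE : IsEdge F p q A B lam R μ)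
    {a₀ s : ℚ} (hs : s < 0)
    (h : ((ν : ℚ) + a₀ * m) * p + q + s * (edgeN p q A B R μ : ℕ) = 0)
    (h₁ : ((ν : ℚ) + a₀ * m + A * s) / q < 1)
    (h3 : 2 ≤ R.card + (if p = 1 ∧ B = 0 then 0 else 1)) : ¬ Ex2 g a₀ s := by
  intro hex
  obtain ⟨δ, hδ⟩ := exists_deriv
  have hz : δ (RatFunc.X : RatFunc ℂ) = 1 := by
    have h1 := hδ Polynomial.X
    rwa [RatFunc.algebraMap_X, Polynomial.derivative_X, map_one] at h1
  obtain ⟨α, β, hαβ⟩ := exists_bezout hE.hp hE.hq hE.hpq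
  obtain ⟨W, hW0, hW⟩ := hst.st.hjac
  obtain ⟨V, hV0, hV⟩ := hst.hx
  obtain ⟨J₁, hJ₁⟩ := jacK_stage δ hz hE.hp hE.hq hαβ hst.st.ha hW
  obtain ⟨F₁, hF₁⟩ := subst_kapK_of_edge (K := RatFunc ℂ) hαβ RatFunc.X hE
  obtain ⟨V₁, hV₁⟩ := subst_kapK_const (K := RatFunc ℂ) hE.hp hE.hq (RatFunc.X ^ β)
    (RatFunc.X ^ α) V
  have hk := hasSubst_kapK (K := RatFunc ℂ) hE.hp hE.hq (RatFunc.X ^ β) (RatFunc.X ^ α)
  have h0k := fun i => constantCoeff_kapK (K := RatFunc ℂ) hE.hp hE.hq (RatFunc.X ^ β)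
    (RatFunc.X ^ α) i
  have hθ := MvPowerSeries.hasSubst_of_constantCoeff_zero hst.st.h0
  set Θ : Fin 2 → PowerSeries (RatFunc ℂ) := fun i => (MvPowerSeries.subst
      (kapK p q (RatFunc.X ^ β) (RatFunc.X ^ α) : Fin 2 → MvPowerSeries Unit (RatFunc ℂ)) (θ i) :
        PowerSeries (RatFunc ℂ)) with hΘ
  have h0Θ : ∀ i, PowerSeries.constantCoeff (Θ i) = 0 := fun i =>
    PowerSeries.X_dvd_iff.1 (X_dvd_subst h0k (hst.st.h0 i))
  have hcomp : (MvPowerSeries.subst (Θ : Fin 2 → MvPowerSeries Unit (RatFunc ℂ)) g :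
      PowerSeries (RatFunc ℂ)) = (MvPowerSeries.subst
        (kapK p q (RatFunc.X ^ β) (RatFunc.X ^ α) : Fin 2 → MvPowerSeries Unit (RatFunc ℂ)) F :
          PowerSeries (RatFunc ℂ)) := by
    rw [hst.st.hF]
    exact (MvPowerSeries.subst_comp_subst_apply hθ hk g).symm
  set κ := β * A + α * B + β * q * ∑ c ∈ R, μ c with hκ
  set e := β * ν + α - 1 with he
  set v := MvPowerSeries.constantCoeff V with hv
  have hΘ0 : Θ 0 = PowerSeries.X ^ (m * p) * (PowerSeries.C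
      (algebraMap ℂ (RatFunc ℂ) v * RatFunc.X ^ (β * m)) +
        PowerSeries.X * (PowerSeries.C (RatFunc.X ^ (β * m)) * V₁)) := by
    have h5 : kapK p q (RatFunc.X ^ β : RatFunc ℂ) (RatFunc.X ^ α) 0 =
      PowerSeries.C (RatFunc.X ^ β) * PowerSeries.X ^ p := rfl
    have h6 : Θ 0 = (MvPowerSeries.subst
      (kapK p q (RatFunc.X ^ β) (RatFunc.X ^ α) : Fin 2 → MvPowerSeries Unit (RatFunc ℂ)) (θ 0) :
        PowerSeries (RatFunc ℂ)) := rfl
    rw [h6, hV, MvPowerSeries.subst_mul hk, MvPowerSeries.subst_pow hk,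
      MvPowerSeries.subst_X hk, hV₁, h5]
    have e1 : (RatFunc.X : RatFunc ℂ) ^ (β * m) = (RatFunc.X ^ β) ^ m := pow_mul _ _ _
    rw [mul_comm m p, pow_mul PowerSeries.X p m, e1, map_mul, map_pow (PowerSeries.C)
      (RatFunc.X ^ β) m, mul_pow]
    ring
  have hpol : (algebraMap ℂ (RatFunc ℂ) lam * RatFunc.X ^ κ *
      ∏ c ∈ R, (RatFunc.X - algebraMap ℂ (RatFunc ℂ) c) ^ μ c : RatFunc ℂ) =
      algebraMap (Polynomial ℂ) (RatFunc ℂ)
        (Polynomial.C lam * Polynomial.X ^ κ * ∏ c ∈ R, (Polynomial.X - Polynomial.C c) ^ μ c) := by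
    rw [map_mul, map_mul, map_pow, map_prod, RatFunc.algebraMap_X, algebraMap_polynomial_C]
    congr 1
    refine Finset.prod_congr rfl fun c _ => ?_
    rw [map_pow, map_sub, RatFunc.algebraMap_X, algebraMap_polynomial_C]
  have hpol2 : (algebraMap ℂ (RatFunc ℂ) (MvPowerSeries.constantCoeff W) * RatFunc.X ^ e :
      RatFunc ℂ) = algebraMap (Polynomial ℂ) (RatFunc ℂ)
        (Polynomial.C (MvPowerSeries.constantCoeff W) * Polynomial.X ^ e) := by
    rw [map_mul, map_pow, RatFunc.algebraMap_X, algebraMap_polynomial_C]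
  have hpol3 : (algebraMap ℂ (RatFunc ℂ) v * RatFunc.X ^ (β * m) :
      RatFunc ℂ) = algebraMap (Polynomial ℂ) (RatFunc ℂ)
        (Polynomial.C v * Polynomial.X ^ (β * m)) := by
    rw [map_mul, map_pow, RatFunc.algebraMap_X, algebraMap_polynomial_C]
  rw [hpol] at hF₁
  rw [hpol2] at hJ₁
  rw [hpol3] at hΘ0
  set f₀ := algebraMap (Polynomial ℂ) (RatFunc ℂ)
    (Polynomial.C lam * Polynomial.X ^ κ * ∏ c ∈ R, (Polynomial.X - Polynomial.C c) ^ μ c)
    with hf₀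
  set u₀ := algebraMap (Polynomial ℂ) (RatFunc ℂ)
    (Polynomial.C v * Polynomial.X ^ (β * m)) with hu₀
  have hf₀0 : f₀ ≠ 0 := by
    rw [hf₀, Ne, map_eq_zero_iff _ (RatFunc.algebraMap_injective ℂ)]
    exact mul_ne_zero (mul_ne_zero (by simpa using hE.hlam) (pow_ne_zero _ Polynomial.X_ne_zero))
      (Finset.prod_ne_zero_iff.2 fun c _ => pow_ne_zero _ (Polynomial.X_sub_C_ne_zero c))
  have hu₀0 : u₀ ≠ 0 := by
    rw [hu₀, Ne, map_eq_zero_iff _ (RatFunc.algebraMap_injective ℂ)]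
    exact mul_ne_zero (by simpa using hV0) (pow_ne_zero _ Polynomial.X_ne_zero)
  have hS : 0 < ∑ c ∈ R, μ c := Finset.sum_pos hE.hm hE.hR
  have hN : 0 < edgeN p q A B R μ := by
    unfold edgeN
    have := Nat.mul_pos (Nat.mul_pos hE.hp hE.hq) hS
    omega
  have hν : 0 < ν * p + q := by
    have := hE.hq
    omega
  have hmp : 0 < m * p := Nat.mul_pos hst.hm hE.hp
  have hnum : ((ν * p + q : ℕ) : ℚ) + a₀ * (m * p : ℕ) + s * (edgeN p q A B R μ : ℕ) = 0 := by
    push_cast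
    linarith
  obtain ⟨r, hr⟩ := hex δ Θ h0Θ _ _ _ hν hN hmp hnum _ _ _ hf₀0 hu₀0 _ _ _ hJ₁
    (hcomp.trans hF₁) hΘ0
  have hpQ : (0 : ℚ) < p := by exact_mod_cast hE.hp
  have hqQ : (0 : ℚ) < q := by exact_mod_cast hE.hq
  have hsN : s * ((p : ℚ) * A + q * B + p * q * ∑ c ∈ R, (μ c : ℚ)) =
      -(((ν : ℚ) + a₀ * m) * p + q) := by
    have h1 := h
    unfold edgeN at h1
    push_cast at h1
    linarith
  have hαβQ : (p : ℚ) * α = q * β + 1 := by exact_mod_cast hαβ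
  have hα1 : 1 ≤ α := by
    rcases α with _ | α
    · omega
    · omega
  have heQ : ((e : ℕ) : ℚ) = β * ν + α - 1 := by
    rw [he, Nat.cast_sub (by omega)]
    push_cast
    ring
  have hε₀ : ((e : ℕ) : ℚ) + 1 + s * (κ : ℕ) + a₀ * (β * m : ℕ) = (1 + B * s) / p := by
    rw [heQ, hκ, eq_div_iff hpQ.ne']
    push_cast
    linear_combination (β : ℚ) * hsN + (1 + B * s) * hαβQ
  have hε₁ : -((1 + B * s) / p + s * ∑ c ∈ R, (μ c : ℚ)) = ((ν : ℚ) + a₀ * m + A * s) / q := by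
    rw [eq_div_iff hqQ.ne']
    refine mul_left_cancel₀ hpQ.ne' ?_
    have h1 : (p : ℚ) * ((1 + B * s) / p) = 1 + B * s := mul_div_cancel₀ _ hpQ.ne'
    linear_combination (-(q : ℚ)) * h1 - hsN
  refine not_exact_of_le2 hδ hE.hR0 hs hε₀.symm hε₁.symm ?_ h₁.le hE.hm ?_ hW0 hE.hlam hV0 hf₀
    hu₀ ⟨r, hr⟩
  · rw [div_le_one hpQ]
    have h1 : (B : ℚ) * s ≤ 0 := mul_nonpos_of_nonneg_of_nonpos (Nat.cast_nonneg B) hs.le
    have h2 : (1 : ℚ) ≤ p := by exact_mod_cast hE.hp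
    linarith
  · have h5 : (if p = 1 ∧ B = 0 then 0 else 1) ≤ (if (1 + B * s) / p = 1 then 0 else 1) := by
      by_cases h6 : (1 + B * s) / p = 1
      · rw [div_eq_one_iff_eq hpQ.ne'] at h6
        have h1 : (B : ℚ) * s ≤ 0 := mul_nonpos_of_nonneg_of_nonpos (Nat.cast_nonneg B) hs.le
        have h2 : (1 : ℚ) ≤ p := by exact_mod_cast hE.hp
        have h7 : (B : ℚ) * s = 0 := by linarith
        have h8 : (p : ℚ) = 1 := by linarith
        have h9 : B = 0 := by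
          rcases mul_eq_zero.1 h7 with h | h
          · exact_mod_cast h
          · exact absurd h hs.ne
        rw [if_pos ⟨by exact_mod_cast h8, h9⟩]
        exact Nat.zero_le _
      · rw [if_neg h6]
        split_ifs <;> omega
    rw [if_neg h₁.ne]
    omega

end YX

end MPb07157
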