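import Pool.Agent.Lib.MP_b07157_agYX.Defs
import Pool.Agent.Lib.MP_b07157_agU.L1
import Pool.Agent.Lib.MP_b07157_agV.S1a

/-!
# Changes of coordinates
-/

noncomputable section

namespace MPb07157

open MvPolynomial

namespace YX

open PC SU

variable {r : ℕ}

/-- As `SU.ZR_shY` (`agU/L1.lean`), term by term in `k`. -/
theorem ZX_shY (F : P2) (e : Fin r → ℕ) (a c A K : ℕ) {φ : PowerSeries ℂ}
    (hφ : PowerSeries.constantCoeff φ = 0) :
    ZX (MvPowerSeries.subst (shY φ) F) e a c A K = ZX F e a c A K := by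
  ext m
  unfold ZX
  rw [PowerSeries.coeff_mk, PowerSeries.coeff_mk]
  rcases Nat.eq_zero_or_pos K with hK | hK
  · subst hK
    simp
  refine Finset.sum_congr rfl fun k _ => ?_
  have hm : m < K * (m + 1) := by
    calc m < 1 * (m + 1) := by omega
      _ ≤ K * (m + 1) := Nat.mul_le_mul_right _ hK
  obtain ⟨M, hM⟩ : ∃ M, K * (m + 1) = M + 1 := ⟨K * (m + 1) - 1, by omega⟩
  rw [hM] at hm ⊢
  rw [L1aux.muJ_shear F e (show m - c * k < M + 1 by omega) (i := 0) (j := 1) (by decide) hφ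
    (θ := shY φ) rfl rfl (isConstr_Xo (M + 1) k) (fun γ γ' h => mem_Xo_congr h)
    (isConstr_Rg e _ _)]

theorem isStg_id (g : P2) : IsStg g MvPowerSeries.X g 1 1 := by
  refine ⟨isStage_id g, le_rfl, 1, ?_, ?_⟩
  · rw [map_one]
    exact one_ne_zero
  · rw [pow_one, mul_one]

theorem IsStg.shY {g : P2} {θ : Fin 2 → P2} {F : P2} {ν m : ℕ} (h : IsStg g θ F ν m)
    {φ : PowerSeries ℂ} (hφ : PowerSeries.constantCoeff φ = 0) :
    IsStg g (fun i => MvPowerSeries.subst (shY φ) (θ i)) (MvPowerSeries.subst (shY φ) F) ν m := by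
  have hk := S1aux.shY_const hφ
  have hs : MvPowerSeries.HasSubst (PC.shY φ) := MvPowerSeries.hasSubst_of_constantCoeff_zero hk
  obtain ⟨V, hV, h0⟩ := h.hx
  refine ⟨h.st.shY hφ, h.hm, MvPowerSeries.subst (PC.shY φ) V, ?_, ?_⟩
  · rwa [S1aux.constantCoeff_subst' hk]
  · have e0 : PC.shY φ 0 = MvPowerSeries.X 0 := rfl
    rw [h0, MvPowerSeries.subst_mul hs, MvPowerSeries.subst_pow hs, MvPowerSeries.subst_X hs, e0]

theorem IsStg.sub {g : P2} {θ : Fin 2 → P2} {F : P2} {ν m : ℕ} (h : IsStg g θ F ν m)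
    {p q α β : ℕ} (hp : 0 < p) (hq : 0 < q) (hab : p * α = q * β + 1) {c : ℂ} (hc : c ≠ 0) :
    IsStg g (fun i => MvPowerSeries.subst (kap p q α β c) (θ i))
      (MvPowerSeries.subst (kap p q α β c) F) (ν * p + q) (m * p) := by
  have hk := S1aux.kap_const hp hq α β c
  have hs : MvPowerSeries.HasSubst (kap p q α β c) :=
    MvPowerSeries.hasSubst_of_constantCoeff_zero hk
  obtain ⟨V, hV, h0⟩ := h.hx
  refine ⟨h.st.sub hp hq hab hc, Nat.mul_pos h.hm hp,
    (MvPowerSeries.X 1 + MvPowerSeries.C c) ^ (β * m) * MvPowerSeries.subst (kap p q α β c) V,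
    ?_, ?_⟩
  · rw [map_mul, S1aux.constantCoeff_subst' hk, map_pow, map_add, MvPowerSeries.constantCoeff_X,
      MvPowerSeries.constantCoeff_C, zero_add]
    exact mul_ne_zero (pow_ne_zero _ hc) hV
  · have e0 : kap p q α β c 0 = MvPowerSeries.X 0 ^ p *
        (MvPowerSeries.X 1 + MvPowerSeries.C c) ^ β := rfl
    rw [h0, MvPowerSeries.subst_mul hs, MvPowerSeries.subst_pow hs, MvPowerSeries.subst_X hs, e0,
      mul_pow, ← pow_mul, ← pow_mul, mul_comm p m]
    ring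

end YX

end MPb07157
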