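import Pool.Agent.Lib.MP_b07157_agYX.K2
import Pool.Agent.Lib.MP_b07157_agYX.Sh2
import Pool.Agent.Lib.MP_b07157_agYX.RE
import Pool.Agent.Lib.MP_b07157_agU.S1

/-!
# The recursion for s < 0
-/

noncomputable section

namespace MPb07157

open MvPolynomial

namespace YX

open PC SU

variable {r : ℕ}

/-- The inequalities at an edge. `x = ν + a₀ m + A₀ s`, `x' = ν + a₀ m + A s`. -/
theorem later2_ineq {x x' s : ℚ} (hs : s < 0) {p q H M : ℕ} (hp : 1 ≤ p) (hq : 1 ≤ q)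
    (hx : x' ≤ x) (hH : H ≤ M) (h : x < 1 ∨ -2 < s * M) :
    (x' * p + q * (1 + s * H) = 0 → x' / q < 1) ∧
      ∀ μ : ℕ, p * μ ≤ H → x' * p + q * (1 + s * H) < 1 ∨ -2 < s * μ := by
  have hp' : (1 : ℚ) ≤ p := by exact_mod_cast hp
  have hq' : (1 : ℚ) ≤ q := by exact_mod_cast hq
  have hH' : (H : ℚ) ≤ M := by exact_mod_cast hH
  have hsM : s * M ≤ s * H := mul_le_mul_of_nonpos_left hH' hs.le
  constructor
  · intro h0
    rw [div_lt_one (by linarith)]
    rcases h with h | h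
    · linarith
    · have h1 : -2 < s * H := by linarith
      by_contra hc
      push Not at hc
      have h2 : (q : ℚ) * p ≤ x' * p := mul_le_mul_of_nonneg_right hc (by linarith)
      have h3 : (q : ℚ) * (p + 1 + s * H) ≤ 0 := by nlinarith
      have h4 : 0 < (q : ℚ) * (p + 1 + s * H) := mul_pos (by linarith) (by linarith)
      linarith
  · intro μ hμ
    by_contra hc
    push Not at hc
    obtain ⟨h1, h2⟩ := hc
    have hμ' : (p : ℚ) * μ ≤ H := by exact_mod_cast hμ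
    have h3 : s * H ≤ s * (p * μ) := mul_le_mul_of_nonpos_left hμ' hs.le
    have h4 : s * (p * μ) ≤ -2 * p := by nlinarith
    have h5 : s * M ≤ -2 := by nlinarith
    have h6 : x < 1 := by
      rcases h with h | h
      · exact h
      · linarith
    have h7 : x' * p < p := by nlinarith
    have h8 : (q : ℚ) * (1 + s * H) ≤ 1 + s * H := by nlinarith
    nlinarith

/-- The stages. -/
theorem later2 {g : P2} {e : Fin r → ℕ} (he : ∀ i, 0 < e i) {s₀ : ℚ} (hs : s₀ + hn e < 0)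
    {D b : ℕ} (hD : 1 ≤ D) (hb : 1 ≤ b) (hex : Ex2 g ((b : ℚ) - 1 + D * s₀) (s₀ + hn e))
    (hax : AxOK2 g (s₀ + hn e)) (h1 : s₀ ≠ -1) {K : ℕ} (hK : 1 ≤ K) (hKs : -s₀ < K) (M : ℕ) :
    ∀ (θ : Fin 2 → P2) (F : P2) (ν m A : ℕ), IsStg g θ F ν m → YOrd F A M → 1 ≤ M →
      ((ν : ℚ) + ((b : ℚ) - 1 + D * s₀) * m + A * (s₀ + hn e) < 1 ∨ -2 < (s₀ + hn e) * M) →
      (ν : ℚ) + ((b : ℚ) - 1 + D * s₀) * m + A * (s₀ + hn e) ≠ 0 →
      ZX F e (ν + (b - 1) * m) (D * m) A K ∈ regularAt s₀ := by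
  induction M using Nat.strong_induction_on with
  | _ M IH =>
  intro θ F ν m A₀ hst hY hM hor hne
  obtain ⟨φ, hφ0, hφ, -⟩ := exists_shY F
  rw [← ZX_shY F e _ _ A₀ K hφ0]
  have hst' := hst.shY hφ0
  have hY' := hY.shY hφ0
  set G := MvPowerSeries.subst (shY φ) F with hG
  have hG0 : G ≠ 0 := by
    intro h
    apply hY'.2.2
    rw [h]
    exact map_zero _
  have hb1 : (((b - 1 : ℕ) : ℚ)) = (b : ℚ) - 1 := by
    rw [Nat.cast_sub hb, Nat.cast_one]
  have hEn : ∀ (p q A B : ℕ) (R : Finset ℂ) (μ : ℂ → ℕ),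
      ((ν : ℚ) + ((b : ℚ) - 1 + D * s₀) * m) * p + q + (s₀ + hn e) * (edgeN p q A B R μ : ℕ) =
      ((ν : ℚ) + ((b : ℚ) - 1 + D * s₀) * m + A * (s₀ + hn e)) * p +
        q * (1 + (s₀ + hn e) * (B + p * ∑ c ∈ R, μ c : ℕ)) := by
    intro p q A B R μ
    unfold edgeN
    push_cast
    ring
  have hlow : ∀ A : ℕ, A₀ ≤ A → (ν : ℚ) + ((b : ℚ) - 1 + D * s₀) * m + A * (s₀ + hn e) ≤
      (ν : ℚ) + ((b : ℚ) - 1 + D * s₀) * m + A₀ * (s₀ + hn e) := by
    intro A hA
    have hA' : (A₀ : ℚ) ≤ A := by exact_mod_cast hA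
    have := mul_le_mul_of_nonpos_right hA' hs.le
    linarith
  have hroot0 : ∀ (p q A B : ℕ) (lam : ℂ) (R : Finset ℂ) (μ : ℂ → ℕ),
      IsEdge G p q A B lam R μ →
        ((ν : ℚ) + ((b : ℚ) - 1 + D * s₀) * m) * p + q +
          (s₀ + hn e) * (edgeN p q A B R μ : ℕ) ≠ 0 := by
    intro p q A B lam R μ hE h
    obtain ⟨hA, hB⟩ := hY'.edge_le hE
    have hi := (later2_ineq hs hE.hp hE.hq (hlow A hA) hB hor).1 (by rw [← hEn]; exact h)
    refine root_edge2 hst' hE hs h hi ?_ hex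
    by_cases h2 : p = 1 ∧ B = 0
    · have := not_bad_card hφ hE h2.1 h2.2
      rw [if_pos h2]; omega
    · have := Finset.card_pos.2 hE.hR
      rw [if_neg h2]; omega
  have hcast : ∀ (p q : ℕ), (((ν + (b - 1) * m) * p + q : ℕ) : ℚ) + ((D * m) * p : ℕ) * s₀ =
      ((ν : ℚ) + ((b : ℚ) - 1 + D * s₀) * m) * p + q := by
    intro p q
    push_cast
    rw [hb1]
    ring
  refine ZX_mem_of_edges hG0 he (hst.st.ha.trans (Nat.le_add_right _ _))
    (Nat.mul_pos hD hst.hm) ⟨hY'.dvd, ?_⟩ ?_ h1 hK hKs ?_ ?_ ?_ ?_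
  · rw [MvPowerSeries.X_pow_dvd_iff]
    intro h
    exact hY'.2.2 (h _ (by rw [s1b_ex0]; omega))
  · intro v hv
    constructor
    · by_contra hcon
      apply hv
      rw [s1b_eq_ex v]
      exact hY'.1 _ (by omega) _
    · rintro rfl
      exact hv (hY'.2.1 0 (by omega))
  · intro h
    apply hne
    rw [← h]
    push_cast
    rw [hb1]
    ring
  · intro B hB hB0 h
    obtain ⟨W, hW, hJ⟩ := hst'.st.hjac
    obtain ⟨V, hV, hx0⟩ := hst'.hx
    have hF' := hst'.st.hF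
    rw [hF'] at hB
    refine hax _ hst'.st.h0 ?_ ?_ B hB0 hB h
    · rw [hx0]
      exact not_X_dvd hV (by decide) _
    · rw [hJ]
      exact not_X_dvd hW (by decide) _
  · intro p q A B lam R μ hE
    rw [hcast]
    exact hroot0 p q A B lam R μ hE
  · intro p q A B lam R μ hE c hc α β hab
    have hc0 : c ≠ 0 := by
      rintro rfl
      exact hE.hR0 hc
    obtain ⟨hA, hB⟩ := hY'.edge_le hE
    have hμS : μ c ≤ ∑ c ∈ R, μ c := Finset.single_le_sum (fun _ _ => Nat.zero_le _) hc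
    have hS := Finset.sum_pos hE.hm hE.hR
    have hlt : μ c < M := by
      by_contra hcon
      have h2 : 1 * ∑ c ∈ R, μ c ≤ p * ∑ c ∈ R, μ c := Nat.mul_le_mul_right _ hE.hp
      have h3 : B = 0 := by omega
      have h4 : p = 1 := by
        by_contra hp
        have : 2 * ∑ c ∈ R, μ c ≤ p * ∑ c ∈ R, μ c :=
          Nat.mul_le_mul_right _ (by have := hE.hp; omega)
        omega
      have h5 := not_bad_card hφ hE h4 h3
      obtain ⟨c', hc', hne'⟩ := Finset.exists_mem_ne (show 1 < R.card by omega) c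
      have h6 : μ c + μ c' ≤ ∑ c ∈ R, μ c := by
        rw [← Finset.add_sum_erase _ _ hc]
        exact Nat.add_le_add_left (Finset.single_le_sum (f := μ) (fun _ _ => Nat.zero_le _)
          (Finset.mem_erase.2 ⟨hne', hc'⟩)) _
      have := hE.hm c' hc'
      omega
    have hμH : p * μ c ≤ B + p * ∑ c ∈ R, μ c := by
      have := Nat.mul_le_mul_left p hμS
      omega
    have hE0 : ((ν * p + q : ℕ) : ℚ) + ((b : ℚ) - 1 + D * s₀) * (m * p : ℕ) +
        (edgeN p q A B R μ : ℕ) * (s₀ + hn e) =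
        ((ν : ℚ) + ((b : ℚ) - 1 + D * s₀) * m) * p + q +
          (s₀ + hn e) * (edgeN p q A B R μ : ℕ) := by
      push_cast
      ring
    have h7 := IH (μ c) hlt _ _ _ _ _ (hst'.sub hE.hp hE.hq hab hc0) (YOrd.sub hE hc hab)
      (hE.hm c hc) (by
        rw [hE0, hEn]
        exact (later2_ineq hs hE.hp hE.hq (hlow A hA) hB hor).2 (μ c) hμH)
      (by rw [hE0]; exact hroot0 p q A B lam R μ hE)
    have e1 : (ν + (b - 1) * m) * p + q = ν * p + q + (b - 1) * (m * p) := by ring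
    have e2 : D * m * p = D * (m * p) := by ring
    rw [e1, e2]
    exact h7

end YX

end MPb07157
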