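import Pool.Agent.Lib.MP_b07157_agYX.K2
import Pool.Agent.Lib.MP_b07157_agYX.Sh2
import Pool.Agent.Lib.MP_b07157_agU.S2a
import Pool.Agent.Lib.MP_b07157_agU.S2

/-!
# The recursion outside of -1 < s₀, s < 0
-/

noncomputable section

namespace MPb07157

open MvPolynomial

namespace YX

open PC SU

variable {r : ℕ}

namespace Out2aux

/-- The edges after the normalization of `y`: their height is at least two, and the
multiplicities are smaller. -/
theorem edge_norm {G : P2} (hφ : ¬ BadY G) {A₀ M : ℕ} (hY : YOrd G A₀ M) (hM : 1 < M)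
    {p q A B : ℕ} {lam : ℂ} {R : Finset ℂ} {μ : ℂ → ℕ} (hE : IsEdge G p q A B lam R μ) :
    A₀ ≤ A ∧ 2 ≤ B + p * ∑ c ∈ R, μ c ∧ ∀ c ∈ R, μ c < M := by
  obtain ⟨hA, hB⟩ := hY.edge_le hE
  have hS := Finset.sum_pos hE.hm hE.hR
  have hp := hE.hp
  have hcS : R.card ≤ ∑ c ∈ R, μ c := by
    rw [Finset.card_eq_sum_ones]
    exact Finset.sum_le_sum fun c hc => hE.hm c hc
  refine ⟨hA, ?_, ?_⟩
  · by_contra hcon
    have h2 : 1 * ∑ c ∈ R, μ c ≤ p * ∑ c ∈ R, μ c := Nat.mul_le_mul_right _ hp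
    have h3 : B = 0 := by omega
    have h4 : p = 1 := by
      by_contra hp1
      have : 2 * ∑ c ∈ R, μ c ≤ p * ∑ c ∈ R, μ c := Nat.mul_le_mul_right _ (by omega)
      omega
    have h5 := not_bad_card hφ hE h4 h3
    omega
  · intro c hc
    by_contra hcon
    have hμS : μ c ≤ ∑ c ∈ R, μ c := Finset.single_le_sum (fun _ _ => Nat.zero_le _) hc
    have h2 : 1 * ∑ c ∈ R, μ c ≤ p * ∑ c ∈ R, μ c := Nat.mul_le_mul_right _ hp
    have h3 : B = 0 := by omega
    have h4 : p = 1 := by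
      by_contra hp1
      have : 2 * ∑ c ∈ R, μ c ≤ p * ∑ c ∈ R, μ c := Nat.mul_le_mul_right _ (by omega)
      omega
    have h5 := not_bad_card hφ hE h4 h3
    obtain ⟨c', hc', hne'⟩ := Finset.exists_mem_ne (show 1 < R.card by omega) c
    have h6 : μ c + μ c' ≤ ∑ c ∈ R, μ c := by
      rw [← Finset.add_sum_erase _ _ hc]
      exact Nat.add_le_add_left (Finset.single_le_sum (f := μ) (fun _ _ => Nat.zero_le _)
        (Finset.mem_erase.2 ⟨hne', hc'⟩)) _
    have := hE.hm c' hc'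
    omega

/-- The number of an edge. -/
theorem num_eq (a c p q A B S : ℕ) (s₀ s : ℚ) :
    ((a * p + q : ℕ) : ℚ) + (c * p : ℕ) * s₀ + s * ((p * A + q * B + p * q * S : ℕ) : ℚ) =
      p * (a + c * s₀ + A * s) + q * (1 + s * ((B + p * S : ℕ) : ℚ)) := by
  push_cast
  ring

end Out2aux

open Out2aux S2aux

/-- As `SU.later_out` (`agU/S2.lean`), the case `0 ≤ s`; the number of each stage stays positive. -/
theorem out_pos {e : Fin r → ℕ} (he : ∀ i, 0 < e i) {s₀ : ℚ} (hs : 0 ≤ s₀ + hn e)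
    (h1 : s₀ ≠ -1) {K : ℕ} (hK : 1 ≤ K) (hKs : -s₀ < K) (M : ℕ) :
    ∀ (F : P2) (a c A : ℕ), 1 ≤ a → 1 ≤ c → YOrd F A M → 1 ≤ M →
      0 < (a : ℚ) + c * s₀ + A * (s₀ + hn e) → ZX F e a c A K ∈ regularAt s₀ := by
  induction M using Nat.strong_induction_on with
  | _ M IH =>
  intro F a c A₀ ha hc hY hM hpos
  rcases Nat.eq_or_lt_of_le hM with hM1 | hM1
  · exact ZX_simple (by rw [hM1]; exact hY) he ha hc hK h1 hpos.ne'
  obtain ⟨φ, hφ0, hφ, -⟩ := exists_shY F
  rw [← ZX_shY F e a c A₀ K hφ0]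
  have hY' := hY.shY hφ0
  set G := MvPowerSeries.subst (shY φ) F with hG
  have hG0 : G ≠ 0 := by
    intro h
    apply hY'.2.2
    rw [h]
    exact map_zero _
  have hnum : ∀ (p q A B : ℕ) (lam : ℂ) (R : Finset ℂ) (μ : ℂ → ℕ), IsEdge G p q A B lam R μ →
      0 < ((a * p + q : ℕ) : ℚ) + (c * p : ℕ) * s₀ + (s₀ + hn e) * (edgeN p q A B R μ : ℕ) := by
    intro p q A B lam R μ hE
    obtain ⟨hA, -, -⟩ := edge_norm hφ hY' hM1 hE
    have hp : (0 : ℚ) < p := by exact_mod_cast hE.hp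
    have hq : (0 : ℚ) < q := by exact_mod_cast hE.hq
    have hAq : (A₀ : ℚ) ≤ A := by exact_mod_cast hA
    unfold edgeN
    rw [num_eq]
    have k1 : (0 : ℚ) < a + c * s₀ + A * (s₀ + hn e) := by
      have := mul_le_mul_of_nonneg_right hAq hs
      linarith
    have k2 : (0 : ℚ) ≤ (s₀ + hn e) * ((B + p * ∑ c ∈ R, μ c : ℕ) : ℚ) :=
      mul_nonneg hs (Nat.cast_nonneg _)
    have k3 := mul_pos hp k1
    have k4 : (0 : ℚ) < q * (1 + (s₀ + hn e) * ((B + p * ∑ c ∈ R, μ c : ℕ) : ℚ)) :=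
      mul_pos hq (by linarith)
    linarith
  refine ZX_mem_of_edges hG0 he ha hc (yOrd_exactPow hY') (fun v hv => yOrd_supp hY' hM hv) h1 hK
    hKs hpos.ne' ?_ ?_ ?_
  · intro B _ hB0 h
    have hB : (0 : ℚ) < B := by exact_mod_cast hB0
    have := mul_nonneg hs hB.le
    linarith
  · intro p q A B lam R μ hE
    exact (hnum p q A B lam R μ hE).ne'
  · intro p q A B lam R μ hE c' hc' α β hab
    have hp := hE.hp
    have hq := hE.hq
    obtain ⟨-, -, k2⟩ := edge_norm hφ hY' hM1 hE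
    refine IH (μ c') (k2 c' hc') _ _ _ _ (by omega) (Nat.mul_pos hc hp) (YOrd.sub hE hc' hab)
      (hE.hm c' hc') ?_
    have := hnum p q A B lam R μ hE
    rw [mul_comm (s₀ + hn e)] at this
    exact this

/-- As `SU.later_out` (`agU/S2.lean`), the case `s < -1/2`; the number of each stage stays negative,
because the edges have height at least two (the others are removed by `shY`); for `s = -1` a
component `y = 0` of multiplicity one is removed by `y ↦ y + x^L`. -/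
theorem out_neg {e : Fin r → ℕ} (he : ∀ i, 0 < e i) {s₀ : ℚ} (hs : s₀ + hn e < -(1 / 2))
    (h1 : s₀ ≠ -1) {K : ℕ} (hK : 1 ≤ K) (hKs : -s₀ < K) (M : ℕ) :
    ∀ (F : P2) (a c A : ℕ), 1 ≤ a → 1 ≤ c → YOrd F A M → 1 ≤ M →
      (a : ℚ) + c * s₀ + A * (s₀ + hn e) < 0 → ZX F e a c A K ∈ regularAt s₀ := by
  induction M using Nat.strong_induction_on with
  | _ M IH =>
  intro F a c A₀ ha hc hY hM hneg
  rcases Nat.eq_or_lt_of_le hM with hM1 | hM1
  · exact ZX_simple (by rw [hM1]; exact hY) he ha hc hK h1 hneg.ne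
  obtain ⟨φ, hφ0, hφ, -⟩ := exists_shY F
  rw [← ZX_shY F e a c A₀ K hφ0]
  have hY' := hY.shY hφ0
  set G := MvPowerSeries.subst (shY φ) F with hG
  have hG0 : G ≠ 0 := by
    intro h
    apply hY'.2.2
    rw [h]
    exact map_zero _
  have hs0 : s₀ + hn e < 0 := by linarith
  have hedge : ∀ (p q A B : ℕ) (lam : ℂ) (R : Finset ℂ) (μ : ℂ → ℕ), IsEdge G p q A B lam R μ →
      ((a * p + q : ℕ) : ℚ) + (c * p : ℕ) * s₀ + (s₀ + hn e) * (edgeN p q A B R μ : ℕ) < 0 ∧
        ∀ c ∈ R, μ c < M := by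
    intro p q A B lam R μ hE
    obtain ⟨hA, hH, hlt⟩ := edge_norm hφ hY' hM1 hE
    refine ⟨?_, hlt⟩
    have hp : (0 : ℚ) < p := by exact_mod_cast hE.hp
    have hq : (0 : ℚ) < q := by exact_mod_cast hE.hq
    have hAq : (A₀ : ℚ) ≤ A := by exact_mod_cast hA
    have hHq : (2 : ℚ) ≤ ((B + p * ∑ c ∈ R, μ c : ℕ) : ℚ) := by exact_mod_cast hH
    unfold edgeN
    rw [num_eq]
    have k1 : (a : ℚ) + c * s₀ + A * (s₀ + hn e) < 0 := by
      have := mul_le_mul_of_nonpos_right hAq hs0.le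
      linarith
    have k2 : (1 : ℚ) + (s₀ + hn e) * ((B + p * ∑ c ∈ R, μ c : ℕ) : ℚ) < 0 := by
      have := mul_le_mul_of_nonpos_left hHq hs0.le
      linarith
    have k3 := mul_neg_of_pos_of_neg hp k1
    have k4 := mul_neg_of_pos_of_neg hq k2
    linarith
  -- the key theorem
  have key : ∀ H : P2, H ≠ 0 → YOrd H A₀ M →
      (∀ B, ExactPow H 1 B → 0 < B → (1 : ℚ) ≠ -(s₀ + hn e) * B) →
      (∀ (p q A B : ℕ) (lam : ℂ) (R : Finset ℂ) (μ : ℂ → ℕ), IsEdge H p q A B lam R μ →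
        ((a * p + q : ℕ) : ℚ) + (c * p : ℕ) * s₀ + (s₀ + hn e) * (edgeN p q A B R μ : ℕ) < 0 ∧
          ∀ c ∈ R, μ c < M) →
      ZX H e a c A₀ K ∈ regularAt s₀ := by
    intro H hH0 hYH hy hEd
    refine ZX_mem_of_edges hH0 he ha hc (yOrd_exactPow hYH) (fun v hv => yOrd_supp hYH hM hv) h1
      hK hKs hneg.ne hy ?_ ?_
    · intro p q A B lam R μ hE
      exact (hEd p q A B lam R μ hE).1.ne
    · intro p q A B lam R μ hE c' hc' α β hab
      have hp := hE.hp
      have hq := hE.hq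
      obtain ⟨k1, k2⟩ := hEd p q A B lam R μ hE
      refine IH (μ c') (k2 c' hc') _ _ _ _ (by omega) (Nat.mul_pos hc hp) (YOrd.sub hE hc' hab)
        (hE.hm c' hc') ?_
      rw [mul_comm (s₀ + hn e)] at k1
      exact k1
  by_cases hb : s₀ + hn e = -1 ∧ ExactPow G 1 1
  · obtain ⟨A', hB⟩ := exists_bot (i := 0) (j := 1) (by decide) hb.2
    have hL : A' < A' + 1 := by omega
    have hL0 : PowerSeries.constantCoeff ((PowerSeries.X : PowerSeries ℂ) ^ (A' + 1)) = 0 :=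
      constantCoeff_X_pow (by omega)
    rw [← ZX_shY G e a c A₀ K hL0]
    have hAA : A₀ ≤ A' := by
      have := (yOrd_supp hY' hM hB.ne).1
      rwa [mo_i (by decide)] at this
    refine key _ ?_ (hY'.shY hL0) ?_ ?_
    · rw [← n1sh_zero]
      exact sh_ne_zero hL0 hG0
    · intro B hB1 hB0
      rw [← n1sh_zero] at hB1
      exact absurd hB1 (hB.not_exact (by decide) hL hB0)
    · intro p q A B lam R μ hE
      rw [← n1sh_zero] at hE
      rcases edge_shY hG0 hB hL hE with h | ⟨rfl, rfl, rfl, rfl, hS⟩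
      · exact hedge _ _ _ _ _ _ _ h
      · constructor
        · unfold edgeN
          rw [hS, hb.1]
          rw [hb.1] at hneg
          have hAq : (A₀ : ℚ) ≤ A := by exact_mod_cast hAA
          push_cast
          linarith
        · intro c hc
          have hμS : μ c ≤ ∑ c ∈ R, μ c := Finset.single_le_sum (fun _ _ => Nat.zero_le _) hc
          omega
  · refine key G hG0 hY' ?_ hedge
    intro B hB hB0 h
    rcases Nat.eq_or_lt_of_le (show 1 ≤ B from hB0) with h2 | h2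
    · rw [← h2] at hB h
      rw [Nat.cast_one, mul_one] at h
      exact hb ⟨by linarith, hB⟩
    · have hBq : (2 : ℚ) ≤ B := by exact_mod_cast h2
      have := mul_le_mul_of_nonpos_left hBq hs0.le
      linarith

end YX

end MPb07157
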