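import Pool.Agent.Lib.MP_b07157_agYX.ExR
import Pool.Agent.Lib.MP_b07157_agYX.Nf
import Pool.Agent.Lib.MP_b07157_agYX.Ser2
import Pool.Agent.Lib.MP_b07157_agYX.Iso2
import Pool.Agent.Lib.MP_b07157_agYX.Geo2
import Pool.Agent.Lib.MP_b07157_agYX.Geo3
import Pool.Agent.Lib.MP_b07157_agYX.Out2
import Pool.Agent.Lib.MP_b07157_agYX.Later2
import Pool.Agent.Lib.MP_b07157_agYL.Main

/-!
# Surface germs with reduced tangent cones with double points: the main theorem
-/

noncomputable section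

namespace MPb07157

open MvPolynomial

namespace YX

open PC SU SI YL

/-- `f = f_d + f_{d+e} + f_{d+e+1} + ⋯`, `f_d` is squarefree, and at each singular point `q` of the
curve `f_d = 0`: `f_{d+e}(q) ≠ 0`; or `q` is a node; or `d ≤ 6`, `f` is an isolated singularity and
`q` is a double point. -/
structure IsTC2 (f : MvPolynomial (Fin 3) ℂ) (d e : ℕ) : Prop where
  low : ∀ j < d, homogeneousComponent j f = 0
  mid : ∀ j, 0 < j → j < e → homogeneousComponent (d + j) f = 0
  sqf : Squarefree (homogeneousComponent d f)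
  sing : ∀ q : Fin 3 → ℂ, q ≠ 0 → (∀ j, eval q (pderiv j (homogeneousComponent d f)) = 0) →
    eval q (homogeneousComponent (d + e) f) ≠ 0 ∨ NodeAt (homogeneousComponent d f) q ∨
      (d ≤ 6 ∧ Isol f ∧ ∃ i j, eval q (pderiv i (pderiv j (homogeneousComponent d f))) ≠ 0)

theorem hn_two : hn (fun _ : Fin 1 => 2) = 1 / 2 := by
  unfold hn
  rw [Fin.sum_univ_one]
  norm_num

/-- The double points which are not nodes. -/
theorem double_case {f : MvPolynomial (Fin 3) ℂ} {d : ℕ} (hd : 0 < d) (hd6 : d ≤ 6)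
    (hf : Isol f) (hlow : ∀ j < d, homogeneousComponent j f = 0)
    (hsq : Squarefree (homogeneousComponent d f)) {q : Fin 3 → ℂ} {j₀ : Fin 3} (hq : q j₀ = 1)
    (h0 : eval q (homogeneousComponent d f) = 0)
    (hs : ∀ j, eval q (pderiv j (homogeneousComponent d f)) = 0)
    (hh : hess2 (gch (homogeneousComponent d f) q j₀ : P2) = 0) {i j : Fin 3}
    (hij : eval q (pderiv i (pderiv j (homogeneousComponent d f))) ≠ 0) {s₀ : ℚ}
    (h : ((3 : ℕ) : ℚ) / d ≠ -s₀) (h1 : s₀ ≠ -1) (hreg : lineSer f d q ∉ regularAt s₀)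
    {b : Polynomial ℂ} (hb : InPs (f : MvPowerSeries (Fin 3) ℂ) 1
      (b.map (MvPowerSeries.C (σ := Fin 3) (R := ℂ)))) : b.eval (s₀ : ℂ) = 0 := by
  have hd3 : 3 ≤ d := three_le (homogeneousComponent_isHomogeneous d f) hsq hq hs hh h0
  have hdQ : (0 : ℚ) < d := by exact_mod_cast hd
  have hd3Q : (3 : ℚ) ≤ d := by exact_mod_cast hd3
  have hd6Q : (d : ℚ) ≤ 6 := by exact_mod_cast hd6
  obtain ⟨k, hk0, hk⟩ := exists_ueq2_hg hq h0 hs hij
  obtain ⟨M, hM1, hM⟩ := exists_yOrd hq hsq hk0 hk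
  obtain ⟨K, hK⟩ := exists_nat_gt (-s₀)
  have hK1 : 1 ≤ K + 1 := by omega
  have hK2 : -s₀ < ((K + 1 : ℕ) : ℚ) := by
    push_cast
    linarith
  rw [lineSer_eq_ZX hd hq hk hK1] at hreg
  have he : ∀ l : Fin 1, 0 < (fun _ : Fin 1 => 2) l := fun _ => two_pos
  have h3 : (3 : ℚ) + d * s₀ ≠ 0 := by
    intro h3
    apply h
    rw [div_eq_iff hdQ.ne']
    push_cast
    linarith
  by_contra hb0
  apply hreg
  rcases lt_or_ge s₀ (-1) with hs1 | hs1
  · refine out_neg he ?_ h1 hK1 hK2 M k 3 d 0 (by omega) (by omega) hM hM1 ?_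
    · rw [hn_two]
      linarith
    · push_cast
      nlinarith
  rcases le_or_gt (-(1 / 2)) s₀ with hs2 | hs2
  · refine out_pos he ?_ h1 hK1 hK2 M k 3 d 0 (by omega) (by omega) hM hM1 ?_
    · rw [hn_two]
      linarith
    · push_cast
      have h4 : 0 ≤ (3 : ℚ) + d * s₀ := by nlinarith
      rw [zero_mul, add_zero]
      exact lt_of_le_of_ne h4 (Ne.symm h3)
  have hs1' : -1 < s₀ := lt_of_le_of_ne hs1 (Ne.symm h1)
  obtain ⟨ξ, U, D, hc⟩ := exists_chart hlow hk
  have hex := ex2_of_root hc hs1' (by linarith) hb hb0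
  have hax : AxOK2 k (s₀ + hn (fun _ : Fin 1 => 2)) := by
    refine axOK2_of_iso hf le_rfl hc ?_
    rw [hn_two]
    linarith
  have key := later2 (g := k) he (s₀ := s₀) (by rw [hn_two]; linarith) (D := d) (b := 3)
    (by omega) (by omega) (by
      rw [hn_two]
      have e1 : (((3 : ℕ) : ℚ) - 1 + d * s₀) = 2 + d * s₀ := by
        push_cast
        ring
      rw [e1]
      exact hex) hax h1 hK1 hK2 M MvPowerSeries.X k 1 1 0 (isStg_id k) hM hM1 (by
      rw [hn_two]
      push_cast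
      rcases Nat.lt_or_ge d 4 with hd4 | hd4
      · right
        have hdeq : d = 3 := by omega
        subst hdeq
        have hM4 := yOrd_le_four hq h0 hs hij hsq hk hM
        have hM4Q : (M : ℚ) ≤ 4 := by exact_mod_cast hM4
        have hM1Q : (1 : ℚ) ≤ M := by exact_mod_cast hM1
        nlinarith
      · left
        have hd4Q : (4 : ℚ) ≤ d := by exact_mod_cast hd4
        nlinarith) (by
      rw [hn_two]
      push_cast
      intro h5
      apply h3
      linarith)
  have e2 : (1 + (3 - 1) * 1 : ℕ) = 3 := rfl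
  rw [e2, mul_one] at key
  exact key

/-- **Surface germs with reduced tangent cones, double points.** -/
theorem smc_tc2 {f : MvPolynomial (Fin 3) ℂ} {d e : ℕ} (hd : 0 < d) (he : 0 < e)
    (hf : IsTC2 f d e) {s₀ : ℚ} (hlct : s₀ = -(3 / (d : ℚ)) → d = 3 ∨ Cond3 f d)
    (hp : IsPole (Zmot0 f) s₀) {b : Polynomial ℂ}
    (hb : InDnForm f 1 (b.map (MvPowerSeries.C (σ := Fin 3) (R := ℂ)))) :
    b.eval (s₀ : ℂ) = 0 := by
  have hF0 : homogeneousComponent d f ≠ 0 := hf.sqf.ne_zero
  have hf0 : f ≠ 0 := by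
    rintro rfl
    exact hF0 (map_zero _)
  have h00 : coeff 0 f = 0 := by
    have h1 := hf.low 0 hd
    rw [homogeneousComponent_zero] at h1
    exact C_eq_zero.1 h1
  by_cases hs1 : s₀ = -1
  · subst hs1
    exact neg_one_root hf0 (by rwa [notMem_support_iff]) b hb
  have hdQ : (0 : ℚ) < d := by exact_mod_cast hd
  have heQ : (0 : ℚ) < e := by exact_mod_cast he
  by_cases hs2 : s₀ = -(3 / (d : ℚ))
  · rcases hlct hs2 with hd3 | hc | hc
    · exfalso
      apply hs1
      rw [hs2, hd3]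
      norm_num
    · have h1 := Lct.root_order hd (by norm_num) hf0 hf.low (by exact_mod_cast hc) hb
      rw [hs2]
      exact_mod_cast h1
    · have h1 := SI.root_of_nonEx hd hf.low hF0 hc hb
      rw [hs2]
      push_cast
      exact h1
  have hcand : ((3 : ℕ) : ℚ) / d ≠ -s₀ := by
    intro h
    apply hs2
    push_cast at h
    rw [← neg_eq_iff_eq_neg, ← h]
  -- the singular point
  obtain ⟨q, j₀, hq, hsing, hFq, hreg⟩ := exists_pole_line hd hf.low hf.sqf hcand hs1 hp
  have hq0 : q ≠ 0 := by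
    rintro rfl
    simp at hq
  have hd2 : 2 ≤ d := by
    by_contra hcon
    have hd1 : d = 1 := by omega
    subst hd1
    exact hF0 (eq_zero_of_linear (homogeneousComponent_isHomogeneous 1 f) hsing)
  have hbps := inPs_of_form hb
  by_cases hh : hess2 (gch (homogeneousComponent d f) q j₀ : PC.P2) = 0
  swap
  · exact root_or_regular_node hd2 hf.low hq hFq hsing hh hcand hs1 hreg hbps
  rcases hf.sing q hq0 hsing with hne | h | ⟨hd6, hI, i, j, hij⟩
  · have hnode : ¬ PC.IsNode (gch (homogeneousComponent d f) q j₀ : PC.P2) := fun h =>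
      hess2_of_isNode h hh
    have hiso := isoSing_gch (homogeneousComponent_isHomogeneous d f) hf.sqf hq
    have hg0 := ne_zero_of_isoSing hiso
    have hc : eval 0 (gch (homogeneousComponent d f) q j₀) = 0 := by
      rw [pole_eval_gch _ q j₀ hq]
      exact hFq
    have hc' : MvPowerSeries.constantCoeff
        ((gch (homogeneousComponent d f) q j₀ : MvPolynomial (Fin 2) ℂ) : PC.P2) = 0 := by
      rw [← MvPowerSeries.coeff_zero_eq_constantCoeff_apply, MvPolynomial.coeff_coe,
        ← MvPolynomial.constantCoeff_eq, ← hc, MvPolynomial.eval_zero]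
    obtain ⟨K, hK⟩ := exists_nat_gt (-s₀)
    have hK1 : 1 ≤ K + 1 := by omega
    have hK2 : -s₀ < ((K + 1 : ℕ) : ℚ) := by
      push_cast
      linarith
    rw [lineSer_eq_ZY hd he hf.mid hq hne hK1] at hreg
    set s₁ : ℚ := (((d : ℚ) + e) * s₀ + 3) / e with hs₁
    have hP : YP.Par e d 3 s₀ s₁ := by
      refine ⟨he, hd, by norm_num, ?_, hs1, ?_⟩
      · rw [hs₁, mul_div_cancel₀ _ heQ.ne']
        push_cast
        ring
      · intro h
        apply hcand
        rw [div_eq_iff hdQ.ne']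
        exact h
    by_cases hout : s₁ ≤ -1 ∨ 0 ≤ s₁
    · exact absurd (YP.first_out hg0 hc' hnode hP hout hK1 hK2) hreg
    push Not at hout
    obtain ⟨h1, h2⟩ := hout
    by_contra hb0
    have hex := ex_gch_e hd2 he hf.low hf.mid hq hne hs1 h1 h2 hbps hb0
    exact hreg (YP.first hg0 hc' hP hex
      (fun θ h0 i B hJ hB0 hB => PC.axis_ne hiso h0 hJ hB0 hB h1.ne') hK1 hK2)
  · exact absurd hh (hess2_of_nodeAt (homogeneousComponent_isHomogeneous d f) hq hsing h)
  · exact double_case hd hd6 hI hf.low hf.sqf hq hFq hsing hh hij hcand hs1 hreg hbps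

end YX

/-- Surface germs with reduced tangent cones with double points, with the condition at `-3/d` for
`d ≠ 3`. -/
theorem SmcLoc.of_tc2 {f : MvPolynomial (Fin 3) ℂ} {d e : ℕ} (hd : 0 < d) (he : 0 < e)
    (hf : YX.IsTC2 f d e) (hc : d = 3 ∨ SI.Cond3 f d) : SmcLoc f :=
  fun _ _ hp _ hb => YX.smc_tc2 hd he hf (fun _ => hc) hp hb

end MPb07157
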