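import Pool.Agent.Lib.MP_b07157_agU.Defs
import Pool.Agent.Lib.MP_b07157_agV.R5

/-!
# Double points of the tangent cone: definitions

In this directory: the zeta functions of `x^c (F(x, y) + ∑ z_i^{e_i})` and the forms
`x^(a-1) dx dy dz`, `s = s₀ + ∑ 1/e_i`, and exponents `a₀` of `x`.
-/

noncomputable section

namespace MPb07157

open MvPolynomial

namespace YX

open PC SU

variable {r : ℕ}

/-- The zeta function of `x^c (F(x, y) + ∑ z_i^{e_i})` and `x^(a-1) dx dy dz`, restricted to the arcs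
with `e_i ord z_i > A ord x`; level `N = K (m + 1)`. -/
def ZX (F : P2) (e : Fin r → ℕ) (a c A K : ℕ) : PowerSeries Mot :=
  PowerSeries.mk fun m => ∑ k ∈ Finset.Icc 1 (K * (m + 1)),
    if c * k ≤ m then P1aux.Lp ((a - 1) * k) *
      muJ F e (K * (m + 1)) (m - c * k) (Start 2 1 (K * (m + 1)) ∩ Xo (K * (m + 1)) k)
        (Rg e (K * (m + 1)) (A * k)) else 0

/-- A stage `F = g ∘ θ` such that the first coordinate of `θ` is `x^m` times a unit. -/
structure IsStg (g : P2) (θ : Fin 2 → P2) (F : P2) (ν m : ℕ) : Prop where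
  st : IsStage g θ F ν
  hm : 1 ≤ m
  hx : ∃ V : P2, MvPowerSeries.constantCoeff V ≠ 0 ∧ θ 0 = MvPowerSeries.X 0 ^ m * V

/-- The conclusion of the residue lemma for the function `x^a₀ g^s` and the field `ℂ(z)`. -/
def Ex2 (g : P2) (a₀ s : ℚ) : Prop :=
  ∀ (δ : Derivation ℂ (RatFunc ℂ) (RatFunc ℂ)) (Θ : Fin 2 → PowerSeries (RatFunc ℂ)),
    (∀ i, PowerSeries.constantCoeff (Θ i) = 0) → ∀ ν N m : ℕ, 0 < ν → 0 < N → 0 < m →
    (ν : ℚ) + a₀ * m + s * N = 0 → ∀ J₀ f₀ u₀ : RatFunc ℂ, f₀ ≠ 0 → u₀ ≠ 0 →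
    ∀ J₁ F₁ U₁ : PowerSeries (RatFunc ℂ),
    jacK δ Θ = PowerSeries.X ^ (ν - 1) * (PowerSeries.C J₀ + PowerSeries.X * J₁) →
    (MvPowerSeries.subst (Θ : Fin 2 → MvPowerSeries Unit (RatFunc ℂ)) g :
      PowerSeries (RatFunc ℂ)) = PowerSeries.X ^ N * (PowerSeries.C f₀ + PowerSeries.X * F₁) →
    Θ 0 = PowerSeries.X ^ m * (PowerSeries.C u₀ + PowerSeries.X * U₁) →
    ∃ r : RatFunc ℂ, J₀ = δ r + ((a₀ : RatFunc ℂ) * (δ u₀ / u₀) +
      (s : RatFunc ℂ) * (δ f₀ / f₀)) * r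

/-- `s` is not one of the candidates `-1/B` of the components of `g` different from the axis
`x = 0`. -/
def AxOK2 (g : P2) (s : ℚ) : Prop :=
  ∀ θ : Fin 2 → P2, (∀ i, MvPowerSeries.constantCoeff (θ i) = 0) →
    ¬ MvPowerSeries.X 1 ∣ θ 0 → ¬ MvPowerSeries.X 1 ∣ jac θ → ∀ B : ℕ, 0 < B →
      ExactPow (MvPowerSeries.subst θ g) 1 B → (1 : ℚ) ≠ -s * B

/-- The power series `k(u, y) + x^e`, in the variables `(u, y, x)`. -/
def kz (k : P2) (e : ℕ) : MvPowerSeries (Fin 3) ℂ :=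
  MvPowerSeries.subst (fun j : Fin 2 => (MvPowerSeries.X j.castSucc : MvPowerSeries (Fin 3) ℂ)) k +
    MvPowerSeries.X 2 ^ e

/-- `h` is `k(u, y) + x^e`, up to a unit and a formal change of coordinates which preserves the
plane `u = 0`. -/
def UEq2 (h : MvPowerSeries (Fin 3) ℂ) (k : P2) (e : ℕ) : Prop :=
  ∃ (E : MvPowerSeries (Fin 3) ℂ ≃ₐ[ℂ] MvPowerSeries (Fin 3) ℂ)
    (u w : (MvPowerSeries (Fin 3) ℂ)ˣ),
    h = u * E (kz k e) ∧ E (MvPowerSeries.X 0) = MvPowerSeries.X 0 * (w : MvPowerSeries (Fin 3) ℂ)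

/-- The germ at the origin is an isolated singularity: a power of each variable belongs to the ideal
of the partial derivatives, in the ring of power series. -/
def Isol (f : MvPolynomial (Fin 3) ℂ) : Prop :=
  ∃ N : ℕ, ∀ i : Fin 3, (MvPowerSeries.X i : MvPowerSeries (Fin 3) ℂ) ^ N ∈
    Ideal.span (Set.range fun j : Fin 3 => (pderiv j f : MvPowerSeries (Fin 3) ℂ))

end YX

end MPb07157
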