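import Pool.Agent.Lib.MP_b07157_agYX.Defs
import Pool.Agent.Lib.MP_b07157_agU.K1

/-!
# Explicit formula for the zeta functions `ZX`
-/

noncomputable section

namespace MPb07157

open MvPolynomial

namespace YX

open PC SU

variable {r : ℕ}

namespace K2

/-- `∑_{k ≥ 1} f(E_{Nk}) L^{-νk-σ(Nk)} T^{N'k}`. -/
def serX (e : Fin r → ℕ) (f : Finset (Fin r) → Mot) (ν N N' : ℕ) : PowerSeries Mot :=
  PowerSeries.mk fun m => ∑ k ∈ Finset.Icc 1 m,
    if N' * k = m then f (En e (N * k)) * P1aux.Lp (ν * k + sg e (N * k)) else 0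

/-- `∑_{k, j ≥ 1} f(E_{Nk}) L^{-νk-σ(Nk)-j} T^{N'k+j}`. -/
def ser2X (e : Fin r → ℕ) (f : Finset (Fin r) → Mot) (ν N N' : ℕ) : PowerSeries Mot :=
  PowerSeries.mk fun m => ∑ k ∈ Finset.Icc 1 m,
    if N' * k < m then f (En e (N * k)) * P1aux.Lp (ν * k + sg e (N * k) + (m - N' * k)) else 0

theorem coeff_serX (e : Fin r → ℕ) (f : Finset (Fin r) → Mot) (ν N : ℕ) {N' : ℕ} (hN : 0 < N')
    (m : ℕ) :
    PowerSeries.coeff m (serX e f ν N N') = if N' ∣ m ∧ 0 < m then
      f (En e (N * (m / N'))) * P1aux.Lp (ν * (m / N') + sg e (N * (m / N'))) else 0 := by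
  rw [serX, PowerSeries.coeff_mk]
  split_ifs with h
  · obtain ⟨⟨k, rfl⟩, h2⟩ := h
    have hk : 0 < k := Nat.pos_of_ne_zero (by rintro rfl; simp at h2)
    rw [Finset.sum_eq_single_of_mem k (Finset.mem_Icc.2 ⟨hk, Nat.le_mul_of_pos_left _ hN⟩)]
    · rw [if_pos rfl, Nat.mul_div_cancel_left k hN]
    · intro j _ hj
      rw [if_neg]
      intro h3
      exact hj (Nat.eq_of_mul_eq_mul_left hN h3)
  · refine Finset.sum_eq_zero fun k hk => ?_
    rw [if_neg]
    rintro rfl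
    exact h ⟨dvd_mul_right N' k, Nat.mul_pos hN (Finset.mem_Icc.1 hk).1⟩

theorem serX_mem {e : Fin r → ℕ} (he : ∀ i, 0 < e i) (f : Finset (Fin r) → Mot) {ν N N' : ℕ}
    (hN : 0 < N') {s₀ : ℚ} (h : (ν : ℚ) + N' * s₀ + hn e * N ≠ 0) :
    serX e f ν N N' ∈ regularAt s₀ := by
  have hD : 0 < ∏ i, e i := Finset.prod_pos fun i _ => he i
  have hd : ∀ i, e i ∣ N * ∏ i, e i := fun i =>
    (Finset.dvd_prod_of_mem e (Finset.mem_univ i)).mul_left N
  have hD' : ((∏ i, e i : ℕ) : ℚ) ≠ 0 := by exact_mod_cast hD.ne'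
  refine mem_of_rec (a := ν * ∏ i, e i + sg e (N * ∏ i, e i)) (b := N' * ∏ i, e i)
    (Nat.mul_pos hN hD) ?_ ?_ ?_
  · intro m hm
    rw [coeff_serX e f ν N hN, coeff_serX e f ν N hN]
    by_cases h1 : N' ∣ m
    · rw [if_pos ⟨Nat.dvd_add h1 (dvd_mul_right N' _), by omega⟩, if_pos ⟨h1, hm⟩,
        Nat.add_mul_div_left _ _ hN, mul_add, mul_add, En_add hd, sg_add he hd]
      have e1 : ν * (m / N') + ν * ∏ i, e i + (sg e (N * (m / N')) + sg e (N * ∏ i, e i)) =
          (ν * ∏ i, e i + sg e (N * ∏ i, e i)) + (ν * (m / N') + sg e (N * (m / N'))) := by ring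
      rw [e1, P1aux.Lp_add (ν * ∏ i, e i + sg e (N * ∏ i, e i))]
      ring
    · rw [if_neg, if_neg (fun h => h1 h.1), mul_zero]
      intro h2
      exact h1 ((Nat.dvd_add_left (dvd_mul_right N' _)).1 h2.1)
  · rw [coeff_serX e f ν N hN, if_neg (fun h => absurd h.2 (lt_irrefl 0))]
  · intro h2
    apply h
    rw [Nat.cast_add, sg_cast he hd] at h2
    push_cast at h2 hD'
    have h3 : ((ν : ℚ) + N' * s₀ + hn e * N) * ∏ i, (e i : ℚ) = 0 := by linear_combination h2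
    rcases mul_eq_zero.1 h3 with h4 | h4
    · exact h4
    · exact absurd h4 hD'

theorem ser2X_eq (e : Fin r → ℕ) (f : Finset (Fin r) → Mot) (ν N : ℕ) {N' : ℕ} (hN : 0 < N') :
    ser2X e f ν N N' = serX e f ν N N' * geo 1 1 := by
  ext m
  rw [PowerSeries.coeff_mul, ser2X, PowerSeries.coeff_mk]
  have e1 : ∀ j : ℕ, PowerSeries.coeff j (geo 1 1) = if 0 < j then P1aux.Lp j else 0 := by
    intro j
    rw [geo_eq_geoK 1 one_pos]
    unfold geoK
    rw [PowerSeries.coeff_mk]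
    by_cases hj : 0 < j
    · rw [if_pos ⟨one_dvd j, hj⟩, if_pos hj, Nat.div_one, ← Units.val_pow_eq_pow_val,
        ← zpow_natCast, ← zpow_mul]
      unfold P1aux.Lp
      congr 2
      push_cast
      ring
    · rw [if_neg hj, if_neg fun h => hj h.2]
  have e2 : ∀ i : ℕ, i ≤ m → PowerSeries.coeff i (serX e f ν N N') = ∑ k ∈ Finset.Icc 1 m,
      if N' * k = i then f (En e (N * k)) * P1aux.Lp (ν * k + sg e (N * k)) else 0 := by
    intro i hi
    rw [serX, PowerSeries.coeff_mk]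
    refine Finset.sum_subset (Finset.Icc_subset_Icc le_rfl hi) fun k hk hk' => ?_
    rw [if_neg]
    rintro rfl
    exact hk' (Finset.mem_Icc.2 ⟨(Finset.mem_Icc.1 hk).1, Nat.le_mul_of_pos_left _ hN⟩)
  have e3 : ∀ p ∈ Finset.HasAntidiagonal.antidiagonal m, PowerSeries.coeff p.1 (serX e f ν N N') *
      PowerSeries.coeff p.2 (geo 1 1) = ∑ k ∈ Finset.Icc 1 m,
        if N' * k = p.1 ∧ 0 < p.2 then
          f (En e (N * k)) * P1aux.Lp (ν * k + sg e (N * k) + p.2) else 0 := by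
    intro p hp
    have hp' := Finset.HasAntidiagonal.mem_antidiagonal.1 hp
    rw [e1, e2 p.1 (by omega), Finset.sum_mul]
    refine Finset.sum_congr rfl fun k _ => ?_
    by_cases h1 : N' * k = p.1
    · by_cases h2 : 0 < p.2
      · rw [if_pos h1, if_pos h2, if_pos ⟨h1, h2⟩, P1aux.Lp_add (ν * k + sg e (N * k)), mul_assoc]
      · rw [if_neg h2, mul_zero, if_neg fun h => h2 h.2]
    · rw [if_neg h1, zero_mul, if_neg fun h => h1 h.1]
  rw [Finset.sum_congr rfl e3, Finset.sum_comm]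
  refine Finset.sum_congr rfl fun k _ => ?_
  split_ifs with h
  · rw [Finset.sum_eq_single_of_mem (N' * k, m - N' * k)
      (Finset.HasAntidiagonal.mem_antidiagonal.2 (by omega))]
    · rw [if_pos ⟨rfl, by show 0 < m - N' * k; omega⟩]
    · rintro ⟨i, j⟩ hp hne
      rw [if_neg]
      rintro ⟨h1, h2⟩
      have hp' := Finset.HasAntidiagonal.mem_antidiagonal.1 hp
      apply hne
      simp only at h1 h2 hp'
      rw [h1]
      congr 1
      omega
  · symm
    refine Finset.sum_eq_zero fun p hp => ?_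
    rw [if_neg]
    rintro ⟨h1, h2⟩
    have hp' := Finset.HasAntidiagonal.mem_antidiagonal.1 hp
    omega

theorem ser2X_mem {e : Fin r → ℕ} (he : ∀ i, 0 < e i) (f : Finset (Fin r) → Mot) {ν N N' : ℕ}
    (hN : 0 < N') {s₀ : ℚ} (h : (ν : ℚ) + N' * s₀ + hn e * N ≠ 0) (h1 : s₀ ≠ -1) :
    ser2X e f ν N N' ∈ regularAt s₀ := by
  rw [ser2X_eq e f ν N hN]
  refine mul_mem (serX_mem he f hN h) (geo_mem one_pos ?_)
  intro h2
  apply h1
  push_cast at h2
  linarith

theorem coeff_ZX (F : P2) (e : Fin r → ℕ) (a c A K m : ℕ) :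
    PowerSeries.coeff m (ZX F e a c A K) =
    ∑ k ∈ Finset.Icc 1 (K * (m + 1)), if c * k ≤ m then P1aux.Lp ((a - 1) * k) *
      muJ F e (K * (m + 1)) (m - c * k) (Start 2 1 (K * (m + 1)) ∩ Xo (K * (m + 1)) k)
        (Rg e (K * (m + 1)) (A * k)) else 0 := PowerSeries.coeff_mk _ _

/-- The contribution of one ray. -/
theorem ray_formulaX {F g : P2} {e : Fin r → ℕ} (he : ∀ i, 0 < e i) {a A₀ : ℕ} (ha : 1 ≤ a)
    {p q A B : ℕ} {lam lam' : ℂ} {R R' : Finset ℂ} {μ μ' : ℂ → ℕ}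
    (hE : IsEdge F p q A B lam R μ) (hE' : IsEdge g p q A B lam' R' μ')
    (hN' : edgeN p q A B R' μ' = edgeN p q A B R μ) (hA₀ : A₀ * p < edgeN p q A B R μ)
    {α β : ℕ} (hab : p * α = q * β + 1) {k N m : ℕ} (hk : 0 < k) (hm : m < N) (c : ℕ) :
    (if k * p ≤ N ∧ k * q ≤ N then (if c * (k * p) ≤ m then P1aux.Lp ((a - 1) * (k * p)) *
      (muJ F e N (m - c * (k * p)) (Strat N ![k * p, k * q]) (Rg e N (A₀ * (k * p))) -
        muJ g e N (m - c * (k * p)) (Strat N ![k * p, k * q]) (Rg e N (A₀ * (k * p)))) else 0)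
      else 0) =
    (if (edgeN p q A B R μ + c * p) * k = m then
      K1.f₁ e (edgeP p q A B lam R μ) (edgeP p q A B lam' R' μ') (En e (edgeN p q A B R μ * k)) *
        P1aux.Lp ((a * p + q) * k + sg e (edgeN p q A B R μ * k)) else 0) +
    (if (edgeN p q A B R μ + c * p) * k < m then
      K1.f₂ e (edgeP p q A B lam R μ) (edgeP p q A B lam' R' μ') (En e (edgeN p q A B R μ * k)) *
        P1aux.Lp ((a * p + q) * k + sg e (edgeN p q A B R μ * k) +
          (m - (edgeN p q A B R μ + c * p) * k)) else 0) +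
    (∑ x ∈ R, (if c * p * k ≤ m then P1aux.Lp ((a * p + q - 1) * k) *
        muJ (MvPowerSeries.subst (kap p q α β x) F) e N (m - c * p * k) (Start 2 1 N ∩ Xo N k)
          (Rg e N (edgeN p q A B R μ * k)) else 0) -
      ∑ x ∈ R', (if c * p * k ≤ m then P1aux.Lp ((a * p + q - 1) * k) *
        muJ (MvPowerSeries.subst (kap p q α β x) g) e N (m - c * p * k) (Start 2 1 N ∩ Xo N k)
          (Rg e N (edgeN p q A B R μ * k)) else 0)) := by
  have ec : c * (k * p) = c * p * k := by ring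
  have eE : (edgeN p q A B R μ + c * p) * k = edgeN p q A B R μ * k + c * p * k := by ring
  rw [ec, eE]
  by_cases h : c * p * k ≤ m
  · have h0 := K1.ray_formula he ha hE hE' hN' hA₀ hab hk (N := N) (m := m - c * p * k)
      (lt_of_le_of_lt (Nat.sub_le _ _) hm)
    simp only [if_pos h]
    rw [h0]
    congr 1
    congr 1
    · by_cases h1 : edgeN p q A B R μ * k = m - c * p * k
      · rw [if_pos h1, if_pos (by omega)]
      · rw [if_neg h1, if_neg (by omega)]
    · by_cases h1 : edgeN p q A B R μ * k < m - c * p * k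
      · rw [if_pos h1, if_pos (by omega), Nat.sub_sub, Nat.add_comm (c * p * k)]
      · rw [if_neg h1, if_neg (by omega)]
  · have h1 : ¬ edgeN p q A B R μ * k + c * p * k = m := fun h2 =>
      h (h2 ▸ Nat.le_add_left _ _)
    have h2 : ¬ edgeN p q A B R μ * k + c * p * k < m := fun h2 =>
      h (le_trans (Nat.le_add_left _ _) h2.le)
    simp only [if_neg h, if_neg h1, if_neg h2, Finset.sum_const_zero, ite_self, sub_zero,
      add_zero]

/-- The sum over one ray. -/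
theorem ray_sumX {F g : P2} {e : Fin r → ℕ} (he : ∀ i, 0 < e i) {a A₀ : ℕ} (ha : 1 ≤ a)
    {p q A B : ℕ} {lam lam' : ℂ} {R R' : Finset ℂ} {μ μ' : ℂ → ℕ}
    (hE : IsEdge F p q A B lam R μ) (hE' : IsEdge g p q A B lam' R' μ')
    (hN' : edgeN p q A B R' μ' = edgeN p q A B R μ) (hA₀ : A₀ * p < edgeN p q A B R μ)
    {α β : ℕ} (hab : p * α = q * β + 1) {K m : ℕ} (hK : 1 ≤ K) (c : ℕ) :
    (∑ k ∈ Finset.Icc 1 (K * (m + 1)), if k * p ≤ K * (m + 1) ∧ k * q ≤ K * (m + 1) then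
      (if c * (k * p) ≤ m then P1aux.Lp ((a - 1) * (k * p)) *
      (muJ F e (K * (m + 1)) (m - c * (k * p)) (Strat (K * (m + 1)) ![k * p, k * q])
          (Rg e (K * (m + 1)) (A₀ * (k * p))) -
        muJ g e (K * (m + 1)) (m - c * (k * p)) (Strat (K * (m + 1)) ![k * p, k * q])
          (Rg e (K * (m + 1)) (A₀ * (k * p)))) else 0) else 0) =
    PowerSeries.coeff m (
      serX e (K1.f₁ e (edgeP p q A B lam R μ) (edgeP p q A B lam' R' μ')) (a * p + q)
        (edgeN p q A B R μ) (edgeN p q A B R μ + c * p) +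
      ser2X e (K1.f₂ e (edgeP p q A B lam R μ) (edgeP p q A B lam' R' μ')) (a * p + q)
        (edgeN p q A B R μ) (edgeN p q A B R μ + c * p) +
      (∑ x ∈ R, ZX (MvPowerSeries.subst (kap p q α β x) F) e (a * p + q) (c * p)
        (edgeN p q A B R μ) K -
      ∑ x ∈ R', ZX (MvPowerSeries.subst (kap p q α β x) g) e (a * p + q) (c * p)
        (edgeN p q A B R μ) K)) := by
  have hN : 0 < edgeN p q A B R μ + c * p := Nat.add_pos_left (P1aux.edgeN_pos hE) _
  have hm : m < K * (m + 1) := by nlinarith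
  rw [Finset.sum_congr rfl fun k hk => ray_formulaX he ha hE hE' hN' hA₀ hab
      (Finset.mem_Icc.1 hk).1 hm c, Finset.sum_add_distrib, Finset.sum_add_distrib,
    Finset.sum_sub_distrib, map_add, map_add, map_sub, map_sum, map_sum]
  congr 1
  · congr 1
    · rw [serX, PowerSeries.coeff_mk, P1aux.sum_Icc_eq hN hm]
      intro k hk
      rw [if_neg (by omega)]
    · rw [ser2X, PowerSeries.coeff_mk, P1aux.sum_Icc_eq hN hm]
      intro k hk
      rw [if_neg (by omega)]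
  · congr 1
    · rw [Finset.sum_comm]
      simp only [coeff_ZX]
    · rw [Finset.sum_comm]
      simp only [coeff_ZX]

/-- The coefficients, as a sum over the orders of both coordinates. -/
theorem coeff_ZX_strat (F : P2) (e : Fin r → ℕ) (a c A : ℕ) {K : ℕ} (hK : 1 ≤ K) (m : ℕ) :
    PowerSeries.coeff m (ZX F e a c A K) =
      ∑ w ∈ Fintype.piFinset (fun _ : Fin 2 => Finset.Icc 1 (K * (m + 1))),
        if c * w 0 ≤ m then
        P1aux.Lp ((a - 1) * w 0) * muJ F e (K * (m + 1)) (m - c * w 0) (Strat (K * (m + 1)) w)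
          (Rg e (K * (m + 1)) (A * w 0)) else 0 := by
  have hm : m < K * (m + 1) := by nlinarith
  rw [coeff_ZX, K1.sum_pi]
  refine Finset.sum_congr rfl fun k hk => ?_
  rw [Finset.mem_Icc] at hk
  by_cases h : c * k ≤ m
  · rw [if_pos h, muJ_Xo F e (lt_of_le_of_lt (Nat.sub_le _ _) hm) hk.1 hk.2 (isConstr_Rg e _ _),
      Finset.mul_sum]
    refine Finset.sum_congr rfl fun l _ => ?_
    have h' : c * (![k, l] : Fin 2 → ℕ) 0 ≤ m := h
    exact (if_pos h').symm
  · rw [if_neg h]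
    refine (Finset.sum_eq_zero fun l _ => ?_).symm
    have h' : ¬ c * (![k, l] : Fin 2 → ℕ) 0 ≤ m := h
    exact if_neg h'

/-- **Explicit formula.** -/
theorem ZX_formula {F : P2} (hF : F ≠ 0) {e : Fin r → ℕ} (he : ∀ i, 0 < e i) {A₀ : ℕ}
    (hFA : ∀ v, MvPowerSeries.coeff v F ≠ 0 → A₀ ≤ v 0 ∧ v ≠ ex A₀ 0) :
    ∃ g : MvPolynomial (Fin 2) ℂ, g ≠ 0 ∧
    (∀ v ∈ g.support, MvPowerSeries.coeff v F ≠ 0) ∧
    (∀ a : Fin 2 → ℕ, (∀ j, 1 ≤ a j) → NondegAt g (face g a (nuf g a))) ∧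
    (∀ (w : Fin 2 → ℕ) (N : ℕ), IsFacetWt g w N →
      (∃ A k, ExactPow F 0 A ∧ 0 < A ∧ 0 < k ∧ w = ![k, 0] ∧ N = k * A) ∨
      (∃ B k, ExactPow F 1 B ∧ 0 < B ∧ 0 < k ∧ w = ![0, k] ∧ N = k * B) ∨
      (∃ (p q A B : ℕ) (lam : ℂ) (R : Finset ℂ) (μ : ℂ → ℕ) (k : ℕ), IsEdge F p q A B lam R μ ∧
        0 < k ∧ w = ![k * p, k * q] ∧ N = k * edgeN p q A B R μ)) ∧
    ∃ (ι : Type) (_ : Fintype ι) (p q A B α β : ι → ℕ) (lam : ι → ℂ) (R R' : ι → Finset ℂ)
      (μ : ι → ℂ → ℕ),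
      (∀ i, IsEdge F (p i) (q i) (A i) (B i) (lam i) (R i) (μ i)) ∧
      (∀ i, IsEdge (g : P2) (p i) (q i) (A i) (B i) 1 (R' i) (fun _ => 1)) ∧
      (∀ i, edgeN (p i) (q i) (A i) (B i) (R' i) (fun _ => 1) =
        edgeN (p i) (q i) (A i) (B i) (R i) (μ i)) ∧
      (∀ i, p i * α i = q i * β i + 1) ∧
      ∀ (a c K : ℕ), 1 ≤ a → 1 ≤ K → ZX F e a c A₀ K = ZX (g : P2) e a c A₀ K +
        ∑ i, (serX e (K1.f₁ e (edgeP (p i) (q i) (A i) (B i) (lam i) (R i) (μ i))
              (edgeP (p i) (q i) (A i) (B i) 1 (R' i) (fun _ => 1))) (a * p i + q i)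
              (edgeN (p i) (q i) (A i) (B i) (R i) (μ i))
              (edgeN (p i) (q i) (A i) (B i) (R i) (μ i) + c * p i) +
            ser2X e (K1.f₂ e (edgeP (p i) (q i) (A i) (B i) (lam i) (R i) (μ i))
              (edgeP (p i) (q i) (A i) (B i) 1 (R' i) (fun _ => 1))) (a * p i + q i)
              (edgeN (p i) (q i) (A i) (B i) (R i) (μ i))
              (edgeN (p i) (q i) (A i) (B i) (R i) (μ i) + c * p i) +
            (∑ x ∈ R i, ZX (MvPowerSeries.subst (kap (p i) (q i) (α i) (β i) x) F) e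
              (a * p i + q i) (c * p i) (edgeN (p i) (q i) (A i) (B i) (R i) (μ i)) K -
            ∑ x ∈ R' i, ZX (MvPowerSeries.subst (kap (p i) (q i) (α i) (β i) x) (g : P2)) e
              (a * p i + q i) (c * p i) (edgeN (p i) (q i) (A i) (B i) (R i) (μ i)) K)) := by
  classical
  obtain ⟨g, hg0, hgF, hg1, hg2, hg3, hg4⟩ := exists_model' hF
  obtain ⟨ι, hι, p, q, A, B, lam, R, μ, hEd, hinj, hcov⟩ := exists_edges hF
  choose R' hR' hN' using fun i => K1.model_edge (hEd i) (hg2 _ _ _ _ _ _ _ (hEd i))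
  choose α β hab using fun i => P1aux.exists_ab (hEd i).hp (hEd i).hq (hEd i).hpq
  refine ⟨g, hg0, hgF, hg3, hg4, ι, hι, p, q, A, B, α, β, lam, R, R', μ, hEd, hR', hN', hab, ?_⟩
  intro a c K ha hK
  ext m
  have hm : m < K * (m + 1) := by nlinarith
  rw [map_add, map_sum, coeff_ZX_strat F e a c A₀ hK, coeff_ZX_strat (g : P2) e a c A₀ hK,
    ← sub_eq_iff_eq_add', ← Finset.sum_sub_distrib,
    ← Finset.sum_congr rfl fun i _ => ray_sumX he ha (hEd i) (hR' i) (hN' i)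
      (K1.edgeN_gt (hEd i) hFA) (hab i) hK c]
  refine Eq.trans ?_ (P1aux.sum_box (fun i => (hEd i).hp) (fun i => (hEd i).hq)
    (fun i => (hEd i).hpq) hinj (K * (m + 1)) (fun w => if c * w 0 ≤ m then
      P1aux.Lp ((a - 1) * w 0) *
      (muJ F e (K * (m + 1)) (m - c * w 0) (Strat (K * (m + 1)) w)
          (Rg e (K * (m + 1)) (A₀ * w 0)) -
        muJ (g : P2) e (K * (m + 1)) (m - c * w 0) (Strat (K * (m + 1)) w)
          (Rg e (K * (m + 1)) (A₀ * w 0))) else 0) ?_)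
  · refine Finset.sum_congr rfl fun w _ => ?_
    split_ifs
    · rw [mul_sub]
    · rw [sub_zero]
  · intro w hw hwN
    rcases hcov w hw with ⟨n, v, l, hI⟩ | h
    · left
      obtain ⟨hl, hwt, hcv, -⟩ := VM.init_mono hI
      obtain ⟨hv1, hv2⟩ := hFA v (by rw [hcv]; exact hl)
      have hn : A₀ * w 0 < n := by
        rw [← hwt, VM.wt2]
        rcases Nat.eq_zero_or_pos (v 1) with h1 | h1
        · have h2 : A₀ ≠ v 0 := by
            intro h2
            apply hv2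
            rw [h2]
            exact VM.ext2 (VM.ex_zero _ _).symm (by rw [VM.ex_one, h1])
          have h3 : (A₀ + 1) * w 0 ≤ v 0 * w 0 := Nat.mul_le_mul_right _ (by omega)
          have h4 := hw 0
          rw [add_mul, one_mul] at h3
          rw [mul_comm (w 0)]
          omega
        · have h3 : A₀ * w 0 ≤ v 0 * w 0 := Nat.mul_le_mul_right _ hv1
          have h4 : 0 < w 1 * v 1 := Nat.mul_pos (hw 1) h1
          rw [mul_comm (w 0)]
          omega
      show (if c * w 0 ≤ m then _ else 0) = 0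
      split_ifs
      · rw [cone_eq he (lt_of_le_of_lt (Nat.sub_le _ _) hm) hw hwN hI (hg1 w n v l hw hI) hn,
          sub_self, mul_zero]
      · rfl
    · exact Or.inr h

end K2

end YX

end MPb07157
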