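import Pool.Agent.Lib.MP_b07157_agYX.K2f
import Pool.Agent.Lib.MP_b07157_agU.M3

/-!
# The stages with a simple root
-/

noncomputable section

namespace MPb07157

open MvPolynomial

namespace YX

open PC SU SU.M3h

variable {r : ℕ}

namespace Smp

/-- As `SU.M3h.muJ_simple`, also for `A = 0`. -/
theorem muJ_simpleX {F : P2} {A : ℕ} (hF : YOrd F A 1) {e : Fin r → ℕ}
    (he : ∀ i, 0 < e i) {N m k : ℕ} (hk : 1 ≤ k) (hkN : k < N) (hm : m < N)
    (hkm : A * k < m) :
    muJ F e N m (Start 2 1 N ∩ Xo N k) (Rg e N (A * k)) =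
      clsM A1 * clsM A1 * P1aux.Lp (r + 2) * P1aux.Lp (k + sg e (A * k) + (m - A * k)) := by
  obtain ⟨M, rfl⟩ : ∃ M, m = A * k + (M + 1) := ⟨m - A * k - 1, by omega⟩
  have hAk : A ≤ A * k := Nat.le_mul_of_pos_right A hk
  have hMN : M + 1 < N := by omega
  obtain ⟨P, hP'⟩ := exists_trunc F (N - 1)
  have hP : ∀ v : Fin 2 →₀ ℕ, v 0 + v 1 < N → MvPowerSeries.coeff v F = P.coeff v := fun v hv =>
    (hP' v).resolve_right fun h => by omega
  have hP0 : ∀ v : Fin 2 →₀ ℕ, P.coeff v ≠ 0 → A ≤ v 0 := by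
    intro v hv
    by_contra h
    apply hv
    have h1 : MvPowerSeries.coeff v F = 0 := by
      have hvv : v = ex (v 0) (v 1) := VM.ext2 (VM.ex_zero _ _).symm (VM.ex_one _ _).symm
      rw [hvv]
      exact hF.1 _ (not_le.1 h) _
    rcases hP' v with h2 | h2
    · rw [← h2, h1]
    · exact h2.2
  have hPA : P.coeff (ex A 1) ≠ 0 := by
    rw [← hP _ (by rw [VM.ex_zero, VM.ex_one]; omega)]
    exact hF.2.2
  choose Q hQ using fun n : ℕ => exists_val_poly P e N n
  have htri := tri_cls (dd_injective (r := r) hMN) (S := M3h.SS e N k (A * k)) (M3h.isConstr_SS e N k _)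
    (fun x y hxy => M3h.mem_SS_congr hxy) (fun j => Q (A * k + (1 + (j : ℕ))))
    (fun x => P.coeff (ex A 1) * (xyP x (0, ⟨k, by omega⟩)) ^ A) (by
      intro x hx
      exact mul_ne_zero hPA (pow_ne_zero _ (hx.1.2.2 (by omega)))) (by
      intro x y hxy
      show _ * _ ^ A = _ * _ ^ A
      rw [xyP_zero_of hxy]) (by
      intro j x hx y hy hxy
      have h0 : ∀ i, xyP x (0, i) = xyP y (0, i) :=
        xyP_zero_of (fun s hs => hxy s fun l _ => hs l)
      have h1 := xyP_one_of (j := (j : ℕ)) (x := x) (y := y) (h := hMN)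
        (fun s hs => hxy s fun l hl => hs l hl)
      have hz : zP x = zP y := zP_of (fun s hs => hxy s fun l _ => hs l)
      have ha0 : arc (xyP x) 0 = arc (xyP y) 0 := by
        ext n
        rw [coeff_arc, coeff_arc]
        split_ifs with h
        · exact h0 _
        · rfl
      have hd : (PowerSeries.X : PowerSeries ℂ) ^ (1 + (j : ℕ)) ∣
          arc (xyP x) 1 - arc (xyP y) 1 := by
        rw [PowerSeries.X_pow_dvd_iff]
        intro n hn
        rw [map_sub, coeff_arc, coeff_arc]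
        split_ifs with h
        · rw [h1 ⟨n, h⟩ hn, sub_self]
        · rw [sub_self]
      have hdiff := coeff_diff (P := P) hP0 hk ha0 (X_pow_dvd_arc_zero hx.1)
        (X_dvd_arc_one hx.1) (X_dvd_arc_one hy.1) hd
      have hjN : 1 + (j : ℕ) < N := by
        have := j.2
        omega
      have c1 : PowerSeries.coeff k (arc (xyP x) 0) = xyP x (0, ⟨k, by omega⟩) := by
        rw [coeff_arc, dif_pos]
      have c2 : ∀ z : JI r N → ℂ, PowerSeries.coeff (1 + (j : ℕ)) (arc (xyP z) 1) =
          z (dd hMN j) := by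
        intro z
        rw [coeff_arc, dif_pos hjN]
        rfl
      rw [c1, c2, c2] at hdiff
      show eval x (Q _) - _ = eval y (Q _) - _
      rw [hQ, hQ, map_add, map_add, hz, ← h0]
      linear_combination hdiff) (isConstr_TT M)
  have hset : jset F e N (A * k + (M + 1)) (Start 2 1 N ∩ Xo N k) (Rg e N (A * k)) =
      {x | x ∈ M3h.SS e N k (A * k) ∧
        (fun j : Fin (M + 1) => eval x (Q (A * k + (1 + (j : ℕ))))) ∈ TT M} := by
    ext x
    have key : x ∈ M3h.SS e N k (A * k) → ((val F e x).order = (A * k + (M + 1) : ℕ) ↔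
        (fun j : Fin (M + 1) => eval x (Q (A * k + (1 + (j : ℕ))))) ∈ TT M) := by
      intro hx
      have hd : (PowerSeries.X : PowerSeries ℂ) ^ (A * k + 1) ∣ val F e x :=
        dvd_add (valF_dvd hF hk hx.1) (dvd_of_mem_Rg he (by omega) hx.2)
      rw [PowerSeries.X_pow_dvd_iff] at hd
      have hc : ∀ n, n < N → eval x (Q n) = PowerSeries.coeff n (val F e x) := by
        intro n hn
        rw [hQ, coeff_val hP e hx.1.1 hn]
      rw [PowerSeries.order_eq_nat]
      constructor
      · rintro ⟨h1, h2⟩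
        refine ⟨fun j hj => ?_, ?_⟩
        · show eval x (Q _) = 0
          rw [hc _ (by omega)]
          exact h2 _ (by omega)
        · show eval x (Q _) ≠ 0
          rw [Fin.val_last, hc _ (by omega), add_comm 1 M]
          exact h1
      · rintro ⟨h1, h2⟩
        refine ⟨?_, fun i hi => ?_⟩
        · have h3 : eval x (Q (A * k + (1 + ((Fin.last M : Fin (M + 1)) : ℕ)))) ≠ 0 := h2
          rw [Fin.val_last, hc _ (by omega), add_comm 1 M] at h3
          exact h3
        · rcases lt_or_ge i (A * k + 1) with h3 | h3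
          · exact hd i h3
          · obtain ⟨j, rfl⟩ : ∃ j, i = A * k + (1 + j) := ⟨i - (A * k + 1), by omega⟩
            have h4 := h1 ⟨j, by omega⟩ (by show j < M; omega)
            have h5 : eval x (Q (A * k + (1 + j))) = 0 := h4
            rwa [hc _ (by omega)] at h5
    constructor
    · rintro ⟨h1, h2, h3⟩
      exact ⟨⟨h1, h2⟩, (key ⟨h1, h2⟩).1 h3⟩
    · rintro ⟨h1, h2⟩
      exact ⟨h1.1, h1.2, (key h1).2 h2⟩
  have hcl : clsM (jset F e N (A * k + (M + 1)) (Start 2 1 N ∩ Xo N k) (Rg e N (A * k))) =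
      P1aux.Lp (M + 1) * (clsM (M3h.SS e N k (A * k)) * clsM A1) := by
    have h1 := congrArg (algebraMap K0 Mot) htri
    rw [← hset, map_mul, map_mul, map_pow, ← LU_val, ← Units.val_pow_eq_pow_val, cls_TT] at h1
    unfold clsM
    rw [← h1, ← mul_assoc]
    unfold P1aux.Lp
    rw [← Units.val_mul, ← zpow_natCast, ← zpow_add, neg_add_cancel, zpow_zero, Units.val_one,
      one_mul]
  have hS : ((LU ^ ((2 + r) * N))⁻¹ : Motˣ) * clsM (M3h.SS e N k (A * k)) =
      P1aux.Lp (k + 2) * clsM A1 * P1aux.Lp (sg e (A * k) + r) := by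
    have hAN : A * k < N := by omega
    rw [← muN_SX hk hkN, ← mJ_Rg he hAN isConstr_SX]
    rfl
  unfold muJ mJ
  rw [hcl]
  have h3 : (((LU ^ ((2 + r) * N))⁻¹ : Motˣ) : Mot) * (P1aux.Lp (M + 1) *
      (clsM (M3h.SS e N k (A * k)) * clsM A1)) = P1aux.Lp (M + 1) *
      ((((LU ^ ((2 + r) * N))⁻¹ : Motˣ) : Mot) * clsM (M3h.SS e N k (A * k))) * clsM A1 := by ring
  rw [h3, hS]
  have h4 : P1aux.Lp (M + 1) * P1aux.Lp (k + 2) * P1aux.Lp (sg e (A * k) + r) =
      P1aux.Lp (r + 2) * P1aux.Lp (k + sg e (A * k) + (A * k + (M + 1) - A * k)) := by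
    rw [← P1aux.Lp_add, ← P1aux.Lp_add, ← P1aux.Lp_add]
    congr 1
    omega
  linear_combination (clsM A1 * clsM A1) * h4

/-- The zeta function of a stage with a simple root. -/
theorem ZX_eq_ser2X {F : P2} {A : ℕ} (hF : YOrd F A 1) {e : Fin r → ℕ}
    (he : ∀ i, 0 < e i) {a c : ℕ} (ha : 1 ≤ a) (hc : 1 ≤ c) {K : ℕ} (hK : 1 ≤ K) :
    ZX F e a c A K =
      K2.ser2X e (fun _ => clsM A1 * clsM A1 * P1aux.Lp (r + 2)) a A (A + c) := by
  ext m
  rw [ZX, K2.ser2X, PowerSeries.coeff_mk, PowerSeries.coeff_mk]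
  have hmK : m < K * (m + 1) := by
    have := Nat.le_mul_of_pos_left (m + 1) hK
    omega
  have hz : ∀ k m', 1 ≤ k → m' ≤ m → m' ≤ A * k →
      muJ F e (K * (m + 1)) m' (Start 2 1 (K * (m + 1)) ∩ Xo (K * (m + 1)) k)
        (Rg e (K * (m + 1)) (A * k)) = 0 := by
    intro k m' hk hm' hmk
    refine muJ_eq_zero F e fun γ hγ ζ hζ => dvd_add ?_ ?_
    · exact (pow_dvd_pow _ (by omega)).trans (valF_dvd hF hk hγ)
    · refine dvd_of_mem_Rg he (hm'.trans_lt hmK) fun i j hj => hζ i j (hj.trans hmk)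
  rw [← Finset.sum_subset (Finset.Icc_subset_Icc (le_refl 1) hmK.le)]
  · refine Finset.sum_congr rfl fun k hk => ?_
    have hk1 := (Finset.mem_Icc.1 hk).1
    have hkm := (Finset.mem_Icc.1 hk).2
    by_cases hck : c * k ≤ m
    · rw [if_pos hck]
      by_cases h : A * k < m - c * k
      · have h' : (A + c) * k < m := by
          rw [add_mul]
          omega
        rw [if_pos h', muJ_simpleX hF he hk1 (by omega) (by omega) h]
        have h2 : P1aux.Lp ((a - 1) * k) * P1aux.Lp (k + sg e (A * k) + (m - c * k - A * k)) =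
            P1aux.Lp (a * k + sg e (A * k) + (m - (A + c) * k)) := by
          rw [← P1aux.Lp_add]
          congr 1
          obtain ⟨b, rfl⟩ : ∃ b, a = b + 1 := ⟨a - 1, by omega⟩
          rw [Nat.add_sub_cancel, add_mul b, one_mul]
          have h3 : m - c * k - A * k = m - (A + c) * k := by
            rw [add_mul]
            omega
          rw [h3]
          ring
        linear_combination (clsM A1 * clsM A1 * P1aux.Lp (r + 2)) * h2
      · have h' : ¬ (A + c) * k < m := by
          rw [add_mul]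
          omega
        rw [if_neg h', hz k _ hk1 (Nat.sub_le _ _) (not_lt.1 h), mul_zero]
    · have h' : ¬ (A + c) * k < m := by
        rw [add_mul]
        omega
      rw [if_neg hck, if_neg h']
  · intro k hk hk'
    rw [Finset.mem_Icc] at hk hk'
    have h2 : k ≤ c * k := Nat.le_mul_of_pos_left k hc
    rw [if_neg (by omega)]

end Smp

end YX

end MPb07157
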