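import Pool.Agent.Lib.MP_b07157_agYX.MR2
import Pool.Agent.Lib.MP_b07157_agYX.K2f
import Pool.Agent.Lib.MP_b07157_agYX.Smp

/-!
# The key theorem of the pole side
-/

noncomputable section

namespace MPb07157

open MvPolynomial

namespace YX

open PC SU

variable {r : ℕ}

/-- The stages with a simple root. As `SU.ZR_simple` (`agU/M3.lean`). -/
theorem ZX_simple {F : P2} {A : ℕ} (hF : YOrd F A 1) {e : Fin r → ℕ}
    (he : ∀ i, 0 < e i) {a c : ℕ} (ha : 1 ≤ a) (hc : 1 ≤ c) {K : ℕ} (hK : 1 ≤ K) {s₀ : ℚ}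
    (h1 : s₀ ≠ -1) (h : (a : ℚ) + c * s₀ + A * (s₀ + hn e) ≠ 0) :
    ZX F e a c A K ∈ regularAt s₀ := by
  rw [Smp.ZX_eq_ser2X hF he ha hc hK]
  refine K2.ser2X_mem he _ (Nat.add_pos_right A hc) ?_ h1
  intro h2
  apply h
  push_cast at h2
  linear_combination h2

/-- **Key theorem, pole side.** As `SU.ZR_mem_of_edges` (`agU/K1.lean`): `ray_formula` at the level
`m - c k p`. -/
theorem ZX_mem_of_edges {F : P2} (hF : F ≠ 0) {e : Fin r → ℕ} (he : ∀ i, 0 < e i) {a c A K : ℕ}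
    (ha : 1 ≤ a) (hc : 1 ≤ c) (hA : ExactPow F 0 A)
    (hFA : ∀ v, MvPowerSeries.coeff v F ≠ 0 → A ≤ v 0 ∧ v ≠ ex A 0) {s₀ : ℚ} (h1 : s₀ ≠ -1)
    (hK : 1 ≤ K) (hKs : -s₀ < K)
    (hx : (a : ℚ) + c * s₀ + A * (s₀ + hn e) ≠ 0)
    (hy : ∀ B, ExactPow F 1 B → 0 < B → (1 : ℚ) ≠ -(s₀ + hn e) * B)
    (hE : ∀ (p q A B : ℕ) (lam : ℂ) (R : Finset ℂ) (μ : ℂ → ℕ), IsEdge F p q A B lam R μ →
      ((a * p + q : ℕ) : ℚ) + (c * p : ℕ) * s₀ + (s₀ + hn e) * (edgeN p q A B R μ : ℕ) ≠ 0)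
    (hsub : ∀ (p q A B : ℕ) (lam : ℂ) (R : Finset ℂ) (μ : ℂ → ℕ), IsEdge F p q A B lam R μ →
      ∀ c' ∈ R, ∀ α β, p * α = q * β + 1 →
        ZX (MvPowerSeries.subst (kap p q α β c') F) e (a * p + q) (c * p)
          (edgeN p q A B R μ) K ∈ regularAt s₀) :
    ZX F e a c A K ∈ regularAt s₀ := by
  classical
  obtain ⟨g, hg0, hgF, hg3, hg4, ι, hι, p, q, A', B, α, β, lam, R, R', μ, hEd, hR', hN', hab,
    key⟩ := K2.ZX_formula hF he hFA
  have hN : ∀ i, 0 < edgeN (p i) (q i) (A' i) (B i) (R i) (μ i) + c * p i := fun i =>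
    Nat.add_pos_left (P1aux.edgeN_pos (hEd i)) _
  have hne : ∀ i, ((a * p i + q i : ℕ) : ℚ) +
      (edgeN (p i) (q i) (A' i) (B i) (R i) (μ i) + c * p i : ℕ) * s₀ +
      hn e * (edgeN (p i) (q i) (A' i) (B i) (R i) (μ i) : ℕ) ≠ 0 := by
    intro i h
    apply hE _ _ _ _ _ _ _ (hEd i)
    push_cast at h ⊢
    linear_combination h
  rw [key a c K ha hK]
  refine add_mem ?_ (sum_mem fun i _ => add_mem (add_mem (K2.serX_mem he _ (hN i) (hne i))
    (K2.ser2X_mem he _ (hN i) (hne i) h1)) (sub_mem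
      (sum_mem fun x hx => hsub _ _ _ _ _ _ _ (hEd i) x hx _ _ (hab i))
      (sum_mem fun x hx => ?_)))
  · refine ZX_model_mem hg0 he hg3 h1 hK hKs ha hc hx (fun v hv => hFA v (hgF v hv)) ?_
    intro w N hw
    rcases hg4 w N hw with ⟨A'', k, hA'', hA0, hk, rfl, rfl⟩ | ⟨B', k, hB, hB0, hk, rfl, rfl⟩ |
      ⟨p', q', A'', B', lam', R'', μ', k, hE', hk, rfl, rfl⟩
    · have hAA : A'' = A := by
        rcases lt_trichotomy A'' A with h | h | h
        · exact absurd ((pow_dvd_pow _ h).trans hA.1) hA''.2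
        · exact h
        · exact absurd ((pow_dvd_pow _ h).trans hA''.1) hA.2
      subst hAA
      intro h
      apply hx
      have hk' : (k : ℚ) ≠ 0 := by positivity
      apply mul_left_cancel₀ hk'
      simp only [Matrix.cons_val_zero, Matrix.cons_val_one, add_zero, Nat.cast_mul] at h
      linear_combination h
    · intro h
      apply hy B' hB hB0
      have hk' : (k : ℚ) ≠ 0 := by positivity
      apply mul_left_cancel₀ hk'
      simp only [Matrix.cons_val_zero, Matrix.cons_val_one, mul_zero, zero_add,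
        Nat.cast_mul] at h
      push_cast at h
      linear_combination h
    · intro h
      apply hE _ _ _ _ _ _ _ hE'
      have hk' : (k : ℚ) ≠ 0 := by positivity
      apply mul_left_cancel₀ hk'
      simp only [Matrix.cons_val_zero, Matrix.cons_val_one, Nat.cast_add, Nat.cast_mul] at h
      push_cast
      linear_combination h
  · have hap : 1 ≤ a * p i + q i := le_trans (hEd i).hq (Nat.le_add_left _ _)
    have hcp : 1 ≤ c * p i := Nat.mul_pos hc (hEd i).hp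
    have hy1 := YOrd.sub (hR' i) hx (hab i)
    rw [hN' i] at hy1
    refine ZX_simple hy1 he hap hcp hK h1 ?_
    have := hE _ _ _ _ _ _ _ (hEd i)
    intro h
    apply this
    linear_combination h

end YX

end MPb07157
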