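import Pool.Agent.Lib.MP_b07157_agYX.Defs
import Pool.Agent.Lib.MP_b07157_agYL.Inv
import Pool.Agent.Lib.MP_b07157_agYL.Susp

/-!
# The arcs of the normal form
-/

noncomputable section

namespace MPb07157

open MvPolynomial

namespace YX

open PC SU SI YL

namespace KzAux

/-! ### Changes of coordinates, up to terms of high order -/

section Jet

variable {n : ℕ} {E : MvPowerSeries (Fin n) ℂ ≃ₐ[ℂ] MvPowerSeries (Fin n) ℂ} {M : ℕ}
  {q : Fin n → MvPolynomial (Fin n) ℂ}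

theorem unit_congr {f g : MvPolynomial (Fin n) ℂ} {u : (MvPowerSeries (Fin n) ℂ)ˣ}
    (hf : ∀ v : Fin n →₀ ℕ, ∑ i, v i ≤ M →
      coeff v f = MvPowerSeries.coeff v ((u : MvPowerSeries (Fin n) ℂ) * E (g : MvPowerSeries (Fin n) ℂ)))
    (hq : IsTr E M q) {γ : Fin n × Fin (M + 1) → ℂ} (hγ : ∀ i, γ (i, 0) = 0) :
    ∃ U : PowerSeries ℂ, PowerSeries.constantCoeff U ≠ 0 ∧
      (PowerSeries.X : PowerSeries ℂ) ^ (M + 1) ∣ aeval (arc γ) f -
        U * (aeval (arc (polyMap (jetPoly q (M + 1)) γ)) g : PowerSeries ℂ) := by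
  obtain ⟨P, hP⟩ := exists_truncP M (E (g : MvPowerSeries (Fin n) ℂ))
  obtain ⟨U, hU⟩ := exists_truncP M (u : MvPowerSeries (Fin n) ℂ)
  have hγ' := constantCoeff_arc hγ
  refine ⟨aeval (arc γ) U, ?_, ?_⟩
  · rw [constantCoeff_aeval hγ', hU 0 (by simp), MvPowerSeries.coeff_zero_eq_constantCoeff_apply]
    exact ((Units.isUnit u).map (MvPowerSeries.constantCoeff (σ := Fin n) (R := ℂ))).ne_zero
  · have h1 : (PowerSeries.X : PowerSeries ℂ) ^ (M + 1) ∣
        aeval (arc γ) f - aeval (arc γ) (U * P) := by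
      refine aeval_congr_low (fun v hv => ?_) hγ'
      rw [hf v hv, ← coeff_coe (U * P) v, coe_mul]
      exact coeff_mul_congr (fun v hv => by rw [coeff_coe, hU v hv])
        (fun v hv => by rw [coeff_coe, hP v hv]) v hv
    have h2 : (PowerSeries.X : PowerSeries ℂ) ^ (M + 1) ∣ aeval (arc γ) P -
        (aeval (fun j => (aeval (arc γ) (q j) : PowerSeries ℂ)) g : PowerSeries ℂ) := by
      rw [PowerSeries.X_pow_dvd_iff]
      intro k hk
      rw [map_sub, aeval_arc_equiv E M q hq g P hP (arc γ) hγ' k (Nat.lt_succ_iff.1 hk), sub_self]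
    have h3 := aeval_congr_X_pow (M + 1) g (arc (polyMap (jetPoly q (M + 1)) γ))
      (fun j => (aeval (arc γ) (q j) : PowerSeries ℂ)) (arc_jetPoly q γ)
    have h4 : (PowerSeries.X : PowerSeries ℂ) ^ (M + 1) ∣ aeval (arc γ) P -
        aeval (arc (polyMap (jetPoly q (M + 1)) γ)) g := by
      have h5 := dvd_sub h2 h3
      rwa [sub_sub_sub_cancel_right] at h5
    have h7 := dvd_add h1 (h4.mul_left (aeval (arc γ) U))
    rw [map_mul] at h7
    convert h7 using 1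
    ring

theorem order_jetL {f g : MvPolynomial (Fin n) ℂ} {u : (MvPowerSeries (Fin n) ℂ)ˣ}
    (hf : ∀ v : Fin n →₀ ℕ, ∑ i, v i ≤ M →
      coeff v f = MvPowerSeries.coeff v ((u : MvPowerSeries (Fin n) ℂ) * E (g : MvPowerSeries (Fin n) ℂ)))
    (hq : IsTr E M q) {γ : Fin n × Fin (M + 1) → ℂ} (hγ : ∀ i, γ (i, 0) = 0) {k : ℕ}
    (hk : k ≤ M) :
    (aeval (arc γ) f : PowerSeries ℂ).order = k ↔
      (aeval (arc (polyMap (jetPoly q (M + 1)) γ)) g : PowerSeries ℂ).order = k := by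
  obtain ⟨U, hU, h⟩ := unit_congr hf hq hγ
  rw [order_congr (Nat.lt_succ_iff.2 hk) h, PowerSeries.order_mul]
  have h1 : U.order = 0 := by
    by_contra h1
    exact hU (PowerSeries.order_ne_zero_iff_constCoeff_eq_zero.1 h1)
  rw [h1, zero_add]

end Jet

/-- The orders of the coordinate `u` and of the function along a jet and its image. -/
theorem mem_AK_iffL {h G : MvPolynomial (Fin 3) ℂ}
    {E : MvPowerSeries (Fin 3) ℂ ≃ₐ[ℂ] MvPowerSeries (Fin 3) ℂ}
    {u w : (MvPowerSeries (Fin 3) ℂ)ˣ} {N : ℕ}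
    (h1 : ∀ v : Fin 3 →₀ ℕ, ∑ i, v i ≤ N →
      coeff v h = MvPowerSeries.coeff v ((u : MvPowerSeries (Fin 3) ℂ) * E (G : MvPowerSeries (Fin 3) ℂ)))
    (h2 : E (MvPowerSeries.X 0) = MvPowerSeries.X 0 * (w : MvPowerSeries (Fin 3) ℂ)) {k i : ℕ}
    (hkN : k ≤ N) (hi : i ≤ N) {q : Fin 3 → MvPolynomial (Fin 3) ℂ} (hq : IsTr E N q)
    {γ : Fin 3 × Fin (N + 1) → ℂ} (hγ : ∀ j, γ (j, 0) = 0) :
    γ ∈ AK h N k i ↔ polyMap (jetPoly q (N + 1)) γ ∈ AK G N k i := by
  have e2 : ∀ v : Fin 3 →₀ ℕ, ∑ i, v i ≤ N → coeff v (X 0 : MvPolynomial (Fin 3) ℂ) =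
      MvPowerSeries.coeff v (((w⁻¹ : (MvPowerSeries (Fin 3) ℂ)ˣ) : MvPowerSeries (Fin 3) ℂ) *
        E ((X 0 : MvPolynomial (Fin 3) ℂ) : MvPowerSeries (Fin 3) ℂ)) := by
    intro v _
    rw [coe_X, h2, mul_comm (MvPowerSeries.X 0 : MvPowerSeries (Fin 3) ℂ),
      Units.inv_mul_cancel_left, ← coe_X, coeff_coe]
  have o1 := order_jetL h1 hq hγ hi
  have o2 := order_jetL e2 hq hγ hkN
  rw [aeval_X, aeval_X] at o2
  constructor
  · rintro ⟨-, h3, h4⟩
    exact ⟨jet_zero hq hγ, o2.1 h3, o1.1 h4⟩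
  · rintro ⟨-, h3, h4⟩
    exact ⟨hγ, o2.2 h3, o1.2 h4⟩

/-- The measures are invariant under the changes of coordinates. -/
theorem AKm_ueqL {h G : MvPolynomial (Fin 3) ℂ}
    {E : MvPowerSeries (Fin 3) ℂ ≃ₐ[ℂ] MvPowerSeries (Fin 3) ℂ}
    {u w : (MvPowerSeries (Fin 3) ℂ)ˣ} {N : ℕ}
    (h1 : ∀ v : Fin 3 →₀ ℕ, ∑ i, v i ≤ N →
      coeff v h = MvPowerSeries.coeff v ((u : MvPowerSeries (Fin 3) ℂ) * E (G : MvPowerSeries (Fin 3) ℂ)))
    (h2 : E (MvPowerSeries.X 0) = MvPowerSeries.X 0 * (w : MvPowerSeries (Fin 3) ℂ)) {k i : ℕ}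
    (hkN : k ≤ N) (hi : i ≤ N) : AKm h N k i = AKm G N k i := by
  obtain ⟨q, hq⟩ := exists_isTr E N
  obtain ⟨q', hq'⟩ := exists_isTr E.symm N
  unfold AKm clsM
  congr 2
  refine cls_bijOn (YL.isConstr_AK h N k i) (YL.isConstr_AK G N k i) (jetPoly q (N + 1))
    ⟨?_, ?_, ?_⟩
  · intro γ hγ
    exact (mem_AK_iffL h1 h2 hkN hi hq hγ.1).1 hγ
  · intro γ hγ γ' hγ' heq
    rw [← jet_jet hq hq' hγ.1, heq, jet_jet hq hq' hγ'.1]
  · intro γ hγ
    have h3 : polyMap (jetPoly q (N + 1)) (polyMap (jetPoly q' (N + 1)) γ) = γ :=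
      jet_jet (e := E.symm) hq' hq hγ.1
    have h4 := jet_zero hq' hγ.1
    refine ⟨polyMap (jetPoly q' (N + 1)) γ, (mem_AK_iffL h1 h2 hkN hi hq h4).2 ?_, h3⟩
    rw [h3]
    exact hγ

/-! ### The normal form with a polynomial -/

/-- The coordinates of the jets in the two notations. -/
def eqL (N : ℕ) : Fin 3 × Fin N ≃ SU.JI 1 N where
  toFun p := Fin.lastCases (motive := fun _ => SU.JI 1 N) (Sum.inr (0, p.2))
    (fun a => Sum.inl (a, p.2)) p.1
  invFun := Sum.elim (fun q => (q.1.castSucc, q.2)) (fun q => (Fin.last 2, q.2))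
  left_inv := by
    rintro ⟨a, j⟩
    fin_cases a <;> rfl
  right_inv := by
    rintro (⟨a, j⟩ | ⟨a, j⟩)
    · fin_cases a <;> rfl
    · have ha : a = 0 := Subsingleton.elim _ _
      subst ha
      rfl

theorem eqL_last (N : ℕ) (j : Fin N) : eqL N (2, j) = Sum.inr (0, j) := rfl

theorem eqL_castSucc (N : ℕ) (a : Fin 2) (j : Fin N) : eqL N (a.castSucc, j) = Sum.inl (a, j) := by
  fin_cases a <;> rfl

theorem val_eqL (g : MvPolynomial (Fin 2) ℂ) (e : ℕ) {N : ℕ} (x : SU.JI 1 N → ℂ) :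
    SU.val (g : PC.P2) (fun _ : Fin 1 => e) x =
      (aeval (arc fun p => x (eqL N p)) (rename Fin.castSucc g + X 2 ^ e) : PowerSeries ℂ) := by
  have h1 : SU.valF (g : PC.P2) (SU.xyP x) =
      (aeval (fun j => arc (fun p => x (eqL N p)) (Fin.castSucc j)) g : PowerSeries ℂ) := by
    unfold SU.valF
    rw [MvPowerSeries.subst_coe]
    congr 2
    funext j
    fin_cases j <;> rfl
  unfold SU.val
  rw [h1, map_add, aeval_rename, map_pow, aeval_X]
  congr 1
  rw [Fin.sum_univ_one]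
  rfl

/-- The arcs of `g(u, y) + x^e` in the notation of suspensions. -/
theorem AKm_poly (g : MvPolynomial (Fin 2) ℂ) {e N j i : ℕ} (he : 0 < e) (hj : 0 < j)
    (hjN : j ≤ N) : AKm (rename Fin.castSucc g + X 2 ^ e) N j i =
      SU.muJ (g : PC.P2) (fun _ : Fin 1 => e) (N + 1) i (Start 2 1 (N + 1) ∩ Xo (N + 1) j)
        (SU.Rg (fun _ : Fin 1 => e) (N + 1) 0) := by
  have h1 : {x : SU.JI 1 (N + 1) → ℂ | (fun p => x (eqL (N + 1) p)) ∈
      AK (rename Fin.castSucc g + X 2 ^ e) N j i} =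
      SU.jset (g : PC.P2) (fun _ : Fin 1 => e) (N + 1) i (Start 2 1 (N + 1) ∩ Xo (N + 1) j)
        (SU.Rg (fun _ : Fin 1 => e) (N + 1) 0) := by
    ext x
    simp only [AK, SU.jset, Set.mem_ofPred_eq, val_eqL,
      SuspAux.order_arc _ _ (Nat.lt_succ_of_le hjN)]
    rw [Set.mem_inter_iff, mem_Start_one]
    simp only [SU.Rg, Xo, Set.mem_ofPred_eq]
    constructor
    · rintro ⟨h2, ⟨h3, h4⟩, h5⟩
      refine ⟨⟨fun a => ?_, fun l hl => ?_, fun hN => ?_⟩, fun a l hl => ?_, h5⟩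
      · have h6 := h2 a.castSucc
        rwa [eqL_castSucc] at h6
      · exact h3 l hl
      · exact h4
      · have ha : a = 0 := Subsingleton.elim _ _
        have hl' : l = 0 := Fin.ext (by
          have h7 : e * (l : ℕ) = 0 := Nat.le_zero.1 hl
          rcases Nat.mul_eq_zero.1 h7 with h8 | h8
          · exact absurd h8 he.ne'
          · rw [h8]
            rfl)
        subst ha
        rw [hl']
        exact h2 2
    · rintro ⟨⟨h2, h3, h4⟩, h5, h6⟩
      refine ⟨fun a => ?_, ⟨fun l hl => ?_, ?_⟩, h6⟩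
      · fin_cases a
        · exact h2 0
        · exact h2 1
        · exact h5 0 0 (by simp)
      · exact h3 l hl
      · exact h4 (Nat.lt_succ_of_le hjN)
  unfold AKm SU.muJ SU.mJ
  rw [← h1]
  unfold clsM
  rw [cls_equiv (eqL (N + 1)) (YL.isConstr_AK _ N j i)]

/-! ### The normal form -/

/-- The values of two power series with the same terms up to order `m`. -/
theorem valF_congr {F F' : P2} {m : ℕ}
    (h : ∀ v : Fin 2 →₀ ℕ, v 0 + v 1 ≤ m → MvPowerSeries.coeff v F = MvPowerSeries.coeff v F')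
    {N : ℕ} {γ : Fin 2 × Fin N → ℂ} (hγ : γ ∈ Start 2 1 N) :
    ∃ H, valF F γ = valF F' γ + PowerSeries.X ^ (m + 1) * H := by
  have hx := X_dvd_arc_of_mem_Start hγ
  obtain ⟨H, hH⟩ := le_order_subst (F := F - F') (w := fun _ => 1) (r := m + 1)
    (fun _ => one_pos) (fun v hv => by
      rw [map_sub, h v (by
        rw [wt, Fin.sum_univ_two, one_mul, one_mul] at hv
        omega), sub_self]) hx
  refine ⟨H, ?_⟩
  unfold valF
  rw [← hH, MvPowerSeries.subst_sub (hasSubst_of_dvd (w := fun _ => 1) (fun _ => one_pos) hx)]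
  exact (add_sub_cancel _ _).symm

theorem muJ_congr {k k' : P2} {e : ℕ} {N j i : ℕ}
    (h : ∀ v : Fin 2 →₀ ℕ, v 0 + v 1 ≤ N → MvPowerSeries.coeff v k = MvPowerSeries.coeff v k')
    (hi : i ≤ N) (B : Set (Fin 1 × Fin (N + 1) → ℂ)) :
    SU.muJ k (fun _ : Fin 1 => e) (N + 1) i (Start 2 1 (N + 1) ∩ Xo (N + 1) j) B =
      SU.muJ k' (fun _ : Fin 1 => e) (N + 1) i (Start 2 1 (N + 1) ∩ Xo (N + 1) j) B := by
  unfold muJ
  congr 1
  ext x
  simp only [jset, Set.mem_ofPred_eq]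
  refine and_congr_right fun hx => and_congr_right fun _ => ?_
  obtain ⟨H, hH⟩ := KzAux.valF_congr h hx.1
  refine order_congr (N := N + 1) (Nat.lt_succ_of_le hi) ⟨H, ?_⟩
  unfold val
  rw [hH]
  ring

/-- Algebra homomorphisms preserve constant coefficients. -/
theorem cc_hom {k n : ℕ} (φ : MvPowerSeries (Fin k) ℂ →ₐ[ℂ] MvPowerSeries (Fin n) ℂ)
    (h : MvPowerSeries (Fin k) ℂ) :
    MvPowerSeries.constantCoeff (φ h) = MvPowerSeries.constantCoeff h := by
  set c := MvPowerSeries.constantCoeff (φ h) with hc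
  by_contra hne
  have halg : ∀ (n : ℕ) (c : ℂ), algebraMap ℂ (MvPowerSeries (Fin n) ℂ) c = MvPowerSeries.C c :=
    fun _ _ => rfl
  have h1 : IsUnit (h - MvPowerSeries.C c) := by
    rw [MvPowerSeries.isUnit_iff_constantCoeff, map_sub, MvPowerSeries.constantCoeff_C,
      isUnit_iff_ne_zero]
    exact sub_ne_zero.2 (Ne.symm hne)
  have h2 : IsUnit (φ (h - MvPowerSeries.C c)) := h1.map φ
  rw [map_sub, ← halg, φ.commutes, halg, MvPowerSeries.isUnit_iff_constantCoeff, map_sub,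
    MvPowerSeries.constantCoeff_C, ← hc, sub_self] at h2
  exact not_isUnit_zero h2

theorem lowZ_hom {k n : ℕ} (φ : MvPowerSeries (Fin k) ℂ →ₐ[ℂ] MvPowerSeries (Fin n) ℂ) {N : ℕ}
    {h : MvPowerSeries (Fin k) ℂ} (hh : LowZ N h) : LowZ N (φ h) := by
  induction N generalizing h with
  | zero => exact LowZ.zero _
  | succ N ih =>
    obtain ⟨g, hg, rfl⟩ := hh.decomp
    rw [map_sum]
    refine LowZ.sum _ fun i _ => ?_
    rw [map_mul, add_comm N 1]
    refine LowZ.mul (fun v hv => ?_) (ih (hg i))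
    have hv0 : v = 0 := by
      ext j
      have h1 : v j ≤ ∑ i, v i :=
        Finset.single_le_sum (f := fun i => v i) (fun _ _ => Nat.zero_le _) (Finset.mem_univ j)
      simp only [Finsupp.coe_zero, Pi.zero_apply]
      omega
    rw [hv0, MvPowerSeries.coeff_zero_eq_constantCoeff_apply, cc_hom,
      MvPowerSeries.constantCoeff_X]

theorem hasSubst_castSucc : MvPowerSeries.HasSubst (fun j : Fin 2 =>
    (MvPowerSeries.X j.castSucc : MvPowerSeries (Fin 3) ℂ)) :=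
  MvPowerSeries.hasSubst_of_constantCoeff_zero fun _ => MvPowerSeries.constantCoeff_X _

theorem kz_eq (k : P2) (e : ℕ) : kz k e =
    MvPowerSeries.substAlgHom hasSubst_castSucc k + MvPowerSeries.X 2 ^ e := by
  rw [MvPowerSeries.substAlgHom_apply]
  rfl

theorem coeff_kz_congr {k k' : P2} {N : ℕ}
    (h : ∀ v : Fin 2 →₀ ℕ, v 0 + v 1 ≤ N → MvPowerSeries.coeff v k = MvPowerSeries.coeff v k')
    (e : ℕ) (v : Fin 3 →₀ ℕ) (hv : ∑ i, v i ≤ N) :
    MvPowerSeries.coeff v (kz k e) = MvPowerSeries.coeff v (kz k' e) := by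
  rw [kz_eq, kz_eq, map_add, map_add]
  congr 1
  have h1 : LowZ (N + 1) (k - k') := by
    intro w hw
    rw [map_sub, h w (by rw [Fin.sum_univ_two] at hw; omega), sub_self]
  have h2 := KzAux.lowZ_hom (MvPowerSeries.substAlgHom hasSubst_castSucc) h1 v (by omega)
  rwa [map_sub, map_sub, sub_eq_zero] at h2

theorem kz_coe (g : MvPolynomial (Fin 2) ℂ) (e : ℕ) : kz (g : P2) e =
    ((rename Fin.castSucc g + X 2 ^ e : MvPolynomial (Fin 3) ℂ) : MvPowerSeries (Fin 3) ℂ) := by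
  have h1 : ∀ g : MvPolynomial (Fin 2) ℂ,
      ((rename Fin.castSucc g : MvPolynomial (Fin 3) ℂ) : MvPowerSeries (Fin 3) ℂ) =
        MvPowerSeries.substAlgHom hasSubst_castSucc (g : P2) := by
    intro g
    induction g using MvPolynomial.induction_on with
    | C a =>
      rw [rename_C, MvPolynomial.coe_C, MvPolynomial.coe_C]
      exact ((MvPowerSeries.substAlgHom hasSubst_castSucc).commutes a).symm
    | add p q hp hq =>
      rw [map_add, MvPolynomial.coe_add, MvPolynomial.coe_add, map_add, hp, hq]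
    | mul_X p j hp =>
      rw [map_mul, MvPolynomial.coe_mul, MvPolynomial.coe_mul, map_mul, hp, rename_X,
        MvPolynomial.coe_X, MvPolynomial.coe_X]
      congr 1
      rw [MvPowerSeries.substAlgHom_apply, MvPowerSeries.subst_X hasSubst_castSucc]
  rw [kz_eq, MvPolynomial.coe_add, h1, MvPolynomial.coe_pow, MvPolynomial.coe_X]

end KzAux

open KzAux in
/-- The measures in the coordinates of the normal form. As `YL.AKm_ueq` (`agYL/Inv.lean`), for a
power series `k`, and `YL.AKm_susp` (`agYL/Susp.lean`); the first variable `u` is the first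
coordinate of the plane, `x` is the suspension variable. -/
theorem AKm_kz {h : MvPolynomial (Fin 3) ℂ} {k : P2} {e : ℕ} (he : 0 < e)
    (hk : UEq2 (h : MvPowerSeries (Fin 3) ℂ) k e) {N j i : ℕ} (hj : 0 < j) (hjN : j ≤ N)
    (hi : i ≤ N) : AKm h N j i =
      SU.muJ k (fun _ : Fin 1 => e) (N + 1) i (Start 2 1 (N + 1) ∩ Xo (N + 1) j)
        (SU.Rg (fun _ : Fin 1 => e) (N + 1) 0) := by
  obtain ⟨E, u, w, h1, h2⟩ := hk
  obtain ⟨g, hg⟩ := exists_truncP N k
  have hg' : ∀ v : Fin 2 →₀ ℕ, v 0 + v 1 ≤ N →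
      MvPowerSeries.coeff v k = MvPowerSeries.coeff v (g : P2) := by
    intro v hv
    rw [coeff_coe]
    exact (hg v (by rw [Fin.sum_univ_two]; exact hv)).symm
  rw [muJ_congr hg' hi, ← AKm_poly g he hj hjN]
  refine AKm_ueqL (u := u) (fun v hv => ?_) h2 hjN hi
  rw [← coeff_coe h v, h1]
  refine coeff_mul_congr (fun _ _ => rfl) (fun v hv => ?_) v hv
  rw [← kz_coe, ← sub_eq_zero, ← map_sub, ← map_sub]
  refine coeff_equiv_eq_zero E N (fun v hv => ?_) v hv
  rw [map_sub, sub_eq_zero]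
  exact coeff_kz_congr hg' e v hv

end YX

end MPb07157
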