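import Pool.Agent.Lib.MP_b07157_agV.W1

/-!
# Weighted zeta functions of non-degenerate polynomials, restricted to a region

As `agV/W1.lean`, for the arcs with orders in a rational polyhedral region.
-/

noncomputable section

namespace MPb07157

open MvPolynomial Finset

variable {n : ℕ}

namespace YX

namespace MR

open Classical in
/-- The zeta function with the weights `L^{-c·a}` on the arcs with orders `a`, restricted to the
orders with `ex i (a, m) ≥ 1`; level `N = K (m + 1)`. -/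
def ZwR {κ : Type} (f : MvPolynomial (Fin n) ℂ) (ε K : ℕ) (c : Fin n → ℕ) (ex : κ → GG n →+ ℤ) :
    PowerSeries Mot :=
  PowerSeries.mk fun m =>
    ∑ a ∈ (Fintype.piFinset (fun _ : Fin n => Finset.Icc ε (K * (m + 1)))).filter
        (fun a => ∀ i, 1 ≤ ex i (emb m a)),
      ((LU ^ (-((∑ j, c j * a j : ℕ) : ℤ)) : Motˣ) : Mot) *
        (((LU ^ (n * (K * (m + 1))))⁻¹ : Motˣ) *
          clsM (arcs f (K * (m + 1)) m ∩ Strat (K * (m + 1)) a))

variable {κ : Type} [Fintype κ]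

/-- The linear forms. -/
def lamR (f : MvPolynomial (Fin n) ℂ) (K : ℕ) (v₀ : Fin n →₀ ℕ) (ex : κ → GG n →+ ℤ) :
    II f ⊕ κ → GG n →+ ℤ := Sum.elim (lamF f K v₀) ex

/-- The lower bounds. -/
def cR (f : MvPolynomial (Fin n) ℂ) (K ε : ℕ) (I : Finset (Fin n →₀ ℕ)) (S : Finset (Fin n))
    (ty : ℕ) (κ : Type) : II f ⊕ κ → ℤ := Sum.elim (cF f K ε I S ty) (fun _ => 1)

/-- The equality constraints. -/
def ER (f : MvPolynomial (Fin n) ℂ) (I : Finset (Fin n →₀ ℕ)) (S : Finset (Fin n))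
    (ty : ℕ) (κ : Type) : Finset (II f ⊕ κ) :=
  (EF f I S ty).map ⟨Sum.inl, Sum.inl_injective⟩

omit [Fintype κ] in
theorem mem_PSetR {f : MvPolynomial (Fin n) ℂ} {K ε : ℕ} {I : Finset (Fin n →₀ ℕ)}
    {S : Finset (Fin n)} {ty : ℕ} {v₀ : Fin n →₀ ℕ} {ex : κ → GG n →+ ℤ} {z : GG n} :
    z ∈ PSet (lamR f K v₀ ex) (cR f K ε I S ty κ) (ER f I S ty κ) ↔
      z ∈ PSet (lamF f K v₀) (cF f K ε I S ty) (EF f I S ty) ∧ ∀ i, 1 ≤ ex i z := by
  constructor
  · rintro ⟨h1, h3⟩
    exact ⟨⟨fun k => h1 (Sum.inl k), fun k hk => h3 (Sum.inl k)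
      (Finset.mem_map.2 ⟨k, hk, rfl⟩)⟩, fun i => h1 (Sum.inr i)⟩
  · rintro ⟨⟨h1, h3⟩, h2⟩
    refine ⟨?_, ?_⟩
    · rintro (k | k)
      · exact h1 k
      · exact h2 k
    · rintro k hk
      obtain ⟨k', hk', rfl⟩ := Finset.mem_map.1 hk
      exact h3 k' hk'

omit [Fintype κ] in
theorem mem_coneR {f : MvPolynomial (Fin n) ℂ} {K : ℕ} {I : Finset (Fin n →₀ ℕ)}
    {S : Finset (Fin n)} {ty : ℕ} {v₀ : Fin n →₀ ℕ} {ex : κ → GG n →+ ℤ} {z : GG n} :
    z ∈ PSet (lamR f K v₀ ex) 0 (ER f I S ty κ) ↔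
      z ∈ PSet (lamF f K v₀) 0 (EF f I S ty) ∧ ∀ i, 0 ≤ ex i z := by
  constructor
  · rintro ⟨h1, h3⟩
    exact ⟨⟨fun k => h1 (Sum.inl k), fun k hk => h3 (Sum.inl k)
      (Finset.mem_map.2 ⟨k, hk, rfl⟩)⟩, fun i => h1 (Sum.inr i)⟩
  · rintro ⟨⟨h1, h3⟩, h2⟩
    refine ⟨?_, ?_⟩
    · rintro (k | k)
      · exact h1 k
      · exact h2 k
    · rintro k hk
      obtain ⟨k', hk', rfl⟩ := Finset.mem_map.1 hk
      exact h3 k' hk'

omit [Fintype κ] in
theorem lamR_inj (f : MvPolynomial (Fin n) ℂ) (K : ℕ) (v₀ : Fin n →₀ ℕ) (ex : κ → GG n →+ ℤ)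
    (z : GG n) (h : ∀ k, lamR f K v₀ ex k z = 0) : z = 0 :=
  lamF_inj f K v₀ z fun k => h (Sum.inl k)

/-- The sum over the box, with an arbitrary weight. -/
theorem sum_box {f : MvPolynomial (Fin n) ℂ} (hf : f ≠ 0) {K ε : ℕ} (hK : 1 ≤ K)
    (hnd : ∀ a : Fin n → ℕ, (∀ j, ε ≤ a j) → NondegAt f (face f a (nuf f a)))
    (m : ℕ) (W : (Fin n → ℕ) → Mot) :
    ∑ a ∈ Fintype.piFinset (fun _ : Fin n => Finset.Icc ε (K * (m + 1))),
      W a * (((LU ^ (n * (K * (m + 1))))⁻¹ : Motˣ) *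
          clsM (arcs f (K * (m + 1)) m ∩ Strat (K * (m + 1)) a)) =
    ∑ p ∈ (f.support.powerset.filter Finset.Nonempty) ×ˢ
      (Finset.univ : Finset (Finset (Fin n))),
      (c0 f p.1 p.2 * (∑ a ∈ boxP f K ε m p.1 p.2 0, W a *
        ((LU ^ (-(((∑ j, a j : ℕ) : ℤ) + ((m - nuf f a : ℕ) : ℤ))) : Motˣ) : Mot)) +
       c1 f p.1 p.2 * (∑ a ∈ boxP f K ε m p.1 p.2 1, W a *
        ((LU ^ (-(((∑ j, a j : ℕ) : ℤ) + ((m - nuf f a : ℕ) : ℤ))) : Motˣ) : Mot))) := by
  classical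
  have hm : m < K * (m + 1) := by nlinarith
  rw [← Finset.sum_fiberwise_of_maps_to (g := fun a : Fin n → ℕ =>
    (face f a (nuf f a), SS (K * (m + 1)) a)) (t := (f.support.powerset.filter Finset.Nonempty) ×ˢ
      (Finset.univ : Finset (Finset (Fin n))))]
  · refine Finset.sum_congr rfl fun p hp => ?_
    obtain ⟨I, S⟩ := p
    rw [Finset.mem_product, Finset.mem_filter, Finset.mem_powerset] at hp
    obtain ⟨⟨hIf, hI⟩, -⟩ := hp
    simp only at hIf hI ⊢
    rw [Finset.mul_sum, Finset.mul_sum]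
    have hb0 : boxP f K ε m I S 0 = ((Fintype.piFinset (fun _ : Fin n =>
        Finset.Icc ε (K * (m + 1)))).filter fun a => (face f a (nuf f a), SS (K * (m + 1)) a) =
          (I, S)).filter fun a => nuf f a = m := by
      ext a
      simp only [boxP, Finset.mem_filter, Prod.mk.injEq]
      constructor
      · rintro ⟨h1, h2, h3, h4⟩
        exact ⟨⟨h1, h2⟩, h4 trivial⟩
      · rintro ⟨⟨h1, h2⟩, h3⟩
        exact ⟨h1, h2, by omega, fun _ => h3⟩
    have hb1 : boxP f K ε m I S 1 = ((Fintype.piFinset (fun _ : Fin n =>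
        Finset.Icc ε (K * (m + 1)))).filter fun a => (face f a (nuf f a), SS (K * (m + 1)) a) =
          (I, S)).filter fun a => nuf f a < m := by
      ext a
      simp only [boxP, Finset.mem_filter, Prod.mk.injEq]
      constructor
      · rintro ⟨h1, h2, h3, h4⟩
        exact ⟨⟨h1, h2⟩, h3⟩
      · rintro ⟨⟨h1, h2⟩, h3⟩
        exact ⟨h1, h2, h3, fun h => by omega⟩
    rw [hb0, hb1, Finset.sum_filter (fun a => nuf f a = m), Finset.sum_filter
      (fun a => nuf f a < m), ← Finset.sum_add_distrib]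
    refine Finset.sum_congr rfl fun a ha => ?_
    rw [Finset.mem_filter, Fintype.mem_piFinset, Prod.mk.injEq] at ha
    obtain ⟨h1, h2, h3⟩ := ha
    rw [clsM_stratum hf hm (fun j => (Finset.mem_Icc.1 (h1 j)).2)
      (hnd a fun j => (Finset.mem_Icc.1 (h1 j)).1)]
    rw [h2, h3]
    unfold c0 c1
    rcases lt_trichotomy (nuf f a) m with h | h | h
    · rw [if_neg h.ne, if_pos h, if_neg h.ne, if_pos h, zero_add]
      rw [← Nat.cast_add]
      push_cast
      ring
    · rw [if_pos h, if_pos h, if_neg (by omega), add_zero, h, Nat.sub_self]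
      push_cast
      rw [add_zero]
      ring
    · rw [if_neg (by omega), if_neg (by omega), if_neg (by omega), if_neg (by omega), add_zero,
        mul_zero]
  · intro a _
    rw [Finset.mem_product, Finset.mem_filter, Finset.mem_powerset]
    refine ⟨⟨Finset.filter_subset _ _, ?_⟩, Finset.mem_univ _⟩
    obtain ⟨-, v, hv, h⟩ := isMinWt_nuf hf a
    exact ⟨v, Finset.mem_filter.2 ⟨hv, h⟩⟩

/-- The restricted polyhedral sets. -/
def PQR (f : MvPolynomial (Fin n) ℂ) (K ε : ℕ) (I : Finset (Fin n →₀ ℕ)) (S : Finset (Fin n))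
    (ty : ℕ) (ex : κ → GG n →+ ℤ) : Set (GG n) :=
  PSet (lamR f K (v0 I) ex) (cR f K ε I S ty κ) (ER f I S ty κ)

open Classical in
theorem PQR_fiber {f : MvPolynomial (Fin n) ℂ} (hf : f ≠ 0) {K ε : ℕ}
    {I : Finset (Fin n →₀ ℕ)} (hI : I.Nonempty) (hIf : I ⊆ f.support) (S : Finset (Fin n))
    (ty m : ℕ) (ex : κ → GG n →+ ℤ) :
    {z ∈ PQR f K ε I S ty ex | muH n z = m} =
      (((boxP f K ε m I S ty).filter (fun a => ∀ i, 1 ≤ ex i (emb m a))).image (emb m) :
        Set (GG n)) := by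
  have h0 := PQ_fiber (K := K) (ε := ε) hf hI hIf S ty m
  ext z
  have h1 : z ∈ {z ∈ PQ f K ε I S ty | muH n z = m} ↔
      z ∈ ((boxP f K ε m I S ty).image (emb m) : Set (GG n)) := by rw [h0]
  simp only [Finset.coe_image, Set.mem_image, Finset.mem_coe, Finset.mem_filter,
    Set.mem_ofPred_eq] at h1 ⊢
  unfold PQR
  rw [mem_PSetR]
  constructor
  · rintro ⟨⟨h2, h3⟩, h4⟩
    obtain ⟨a, ha, hz⟩ := h1.1 ⟨h2, h4⟩
    refine ⟨a, ⟨ha, ?_⟩, hz⟩
    rw [hz]
    exact h3
  · rintro ⟨a, ⟨ha, h3⟩, hz⟩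
    obtain ⟨h2, h4⟩ := h1.2 ⟨a, ha, hz⟩
    refine ⟨⟨h2, ?_⟩, h4⟩
    rw [← hz]
    exact h3

open Classical in
theorem coeff_genFR {f : MvPolynomial (Fin n) ℂ} (hf : f ≠ 0) {K ε : ℕ}
    {I : Finset (Fin n →₀ ℕ)} (hI : I.Nonempty) (hIf : I ⊆ f.support) (S : Finset (Fin n))
    (c : Fin n → ℕ) (ty m : ℕ) (ex : κ → GG n →+ ℤ) :
    PowerSeries.coeff m (genF (muH n) (W1.nuC (v0 I) c) (PQR f K ε I S ty ex)) =
      ∑ a ∈ boxP f K ε m I S ty, (if ∀ i, 1 ≤ ex i (emb m a) then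
        ((LU ^ (-((∑ j, c j * a j : ℕ) : ℤ)) : Motˣ) : Mot) else 0) *
        ((LU ^ (-(((∑ j, a j : ℕ) : ℤ) +
        ((m - nuf f a : ℕ) : ℤ))) : Motˣ) : Mot) := by
  unfold genF
  rw [PowerSeries.coeff_mk, PQR_fiber hf hI hIf S ty m ex, finsum_mem_coe_finset,
    Finset.sum_image fun a _ b _ h => emb_injective m h, Finset.sum_filter]
  refine Finset.sum_congr rfl fun a ha => ?_
  split_ifs with hR
  swap
  · rw [zero_mul]
  rw [← Units.val_mul, ← zpow_add]
  congr 3
  rw [boxP, Finset.mem_filter] at ha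
  obtain ⟨-, ⟨h2, h3⟩, h4, h5⟩ := ha
  rw [W1.nuC_apply, nuH_apply, dotH_emb]
  have hv0' : wt a (v0 I) = nuf f a := by
    have hv0 := v0_mem hI
    rw [← h2] at hv0
    have h9 : v0 (face f a (nuf f a)) ∈ face f a (nuf f a) := hv0
    rw [face, Finset.mem_filter] at h9
    rw [← h2]
    exact h9.2
  rw [hv0']
  simp only [emb]
  push_cast
  have h6 : nuf f a ≤ m := by omega
  rw [Nat.cast_sub h6]
  ring

/-- A facet weight of the restricted fan. -/
structure IsFacetR (f : MvPolynomial (Fin n) ℂ) (ex : κ → GG n →+ ℤ) (w : Fin n → ℕ) (N : ℕ) :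
    Prop where
  min : IsMinWt f w N
  pos : 0 < N
  nonneg : ∀ i, 0 ≤ ex i (emb N w)
  span : ∀ y : Fin n → ℤ, (∀ j, w j = 0 → y j = 0) →
    (∀ v ∈ face f w N, ∑ j, y j * (v j : ℤ) = 0) →
    (∀ i, ex i (emb N w) = 0 → ex i ((y, 0) : GG n) = 0) → y = 0

theorem ray_neR {f : MvPolynomial (Fin n) ℂ} {K : ℕ} {I : Finset (Fin n →₀ ℕ)}
    {S : Finset (Fin n)} {ty : ℕ} {v₀ : Fin n →₀ ℕ} (hv₀ : v₀ ∈ f.support)
    {s₀ : ℚ} (hK : -s₀ < K) (h1 : s₀ ≠ -1) (c : Fin n → ℕ) (ex : κ → GG n →+ ℤ)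
    (hex : ∀ i, ex i ((0, 1) : GG n) = 0)
    (hfac : ∀ w N, IsFacetR f ex w N → ((∑ j, (1 + c j) * w j : ℕ) : ℚ) ≠ -s₀ * N)
    (z : GG n) (hz : MaxTight (lamR f K v₀ ex) (ER f I S ty κ) z) :
    ((W1.nuC v₀ c z : ℤ) : ℚ) ≠ -s₀ * (muH n z : ℤ) := by
  obtain ⟨hz0, hzC', hmax⟩ := hz
  obtain ⟨hzC, hzex⟩ := mem_coneR.1 hzC'
  have hC := mem_cone_iff.1 hzC
  obtain ⟨c1, c2, c3, c4, c5⟩ := hC
  have hdot : 0 ≤ dotH v₀ z := by
    rw [dotH_apply]
    exact Finset.sum_nonneg fun j _ => mul_nonneg (c1 j) (by positivity)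
  have hcz : 0 ≤ ∑ j, (c j : ℤ) * z.1 j :=
    Finset.sum_nonneg fun j _ => mul_nonneg (by positivity) (c1 j)
  have hm : 0 < z.2 := by
    rcases lt_or_eq_of_le (hdot.trans c4) with h | h
    · exact h
    · exfalso
      apply hz0
      refine Prod.ext ?_ h.symm
      funext j
      have := (c3 j).2
      rw [← h, mul_zero] at this
      exact le_antisymm this (c1 j)
  rw [W1.nuC_apply, nuH_apply, muH_apply]
  by_cases hA : ∃ j, z.1 j = K * z.2
  · obtain ⟨j, hj⟩ := hA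
    have h2 : z.1 j ≤ ∑ j, z.1 j := Finset.single_le_sum (fun i _ => c1 i) (Finset.mem_univ j)
    have h3 : (K : ℤ) * z.2 ≤ ∑ j, z.1 j + (z.2 - dotH v₀ z) + ∑ j, (c j : ℤ) * z.1 j := by
      rw [hj] at h2; omega
    have h4 : ((K : ℚ)) * z.2 ≤
        ((∑ j, z.1 j + (z.2 - dotH v₀ z) + ∑ j, (c j : ℤ) * z.1 j : ℤ) : ℚ) := by
      exact_mod_cast h3
    have h5 : (0 : ℚ) < z.2 := by exact_mod_cast hm
    intro h6
    rw [h6] at h4
    nlinarith
  push Not at hA
  rcases lt_or_eq_of_le c4 with hB | hB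
  · -- the ray `(0, 1)`
    have hy : ((0, 1) : GG n) ∈ PSet (lamR f K v₀ ex) 0 (ER f I S ty κ) := by
      rw [mem_coneR, mem_cone_iff]
      have hd : ∀ v : Fin n →₀ ℕ, dotH v ((0, 1) : GG n) = 0 := by
        intro v; rw [dotH_apply]; simp
      refine ⟨⟨fun j => by simp, fun v hv => ⟨fun _ => by rw [hd, hd], by rw [hd, hd]⟩,
        fun j => ⟨fun hj => absurd ((c3 j).1 hj) (hA j), by simp⟩, by rw [hd]; simp,
        fun ht => ?_⟩, fun i => (hex i).ge⟩
      exact absurd (c5 ht) (by omega)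
    have h2 := hmax _ hy (by
      intro h
      have := congrArg Prod.snd h
      simp at this) ?_
    · have hz1 : z.1 = 0 := by
        funext j
        exact h2 (.inl (.inl (.inl j))) rfl
      have hd : dotH v₀ z = 0 := by rw [dotH_apply, hz1]; simp
      rw [hz1, hd]
      simp only [Pi.zero_apply, Finset.sum_const_zero, zero_add, sub_zero, mul_zero, add_zero]
      intro h3
      have h5 : (z.2 : ℚ) ≠ 0 := by exact_mod_cast hm.ne'
      apply h1
      have h6 : (z.2 : ℚ) * (1 + s₀) = 0 := by linear_combination h3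
      rcases mul_eq_zero.1 h6 with h7 | h7
      · exact absurd h7 h5
      · linarith
    · rintro (((j | v) | (j | _)) | i) hk
      · simp [lamR, lamF, coordH_apply]
      · simp [lamR, lamF, dotH_apply]
      · exfalso
        apply hA j
        simp only [lamR, Sum.elim_inl, lamF, AddMonoidHom.sub_apply, AddMonoidHom.smul_apply,
          muH_apply, coordH_apply, smul_eq_mul] at hk
        omega
      · exfalso
        simp only [lamR, Sum.elim_inl, lamF, AddMonoidHom.sub_apply, muH_apply] at hk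
        omega
      · exact hex i
  · -- a facet weight
    have hw : ∃ w : Fin n → ℕ, ∀ j, (w j : ℤ) = z.1 j :=
      ⟨fun j => (z.1 j).toNat, fun j => Int.toNat_of_nonneg (c1 j)⟩
    obtain ⟨w, hw⟩ := hw
    have hwt : ∀ v, (wt w v : ℤ) = dotH v z := by
      intro v
      rw [dotH_apply]
      unfold wt
      push_cast
      exact Finset.sum_congr rfl fun j _ => by rw [hw]
    obtain ⟨N, hN⟩ : ∃ N : ℕ, (N : ℤ) = z.2 := ⟨z.2.toNat, Int.toNat_of_nonneg hm.le⟩
    have hzw : emb N w = z := Prod.ext (funext fun j => hw j) hN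
    have hfw : IsFacetR f ex w N := by
      refine ⟨⟨fun v hv => ?_, v₀, hv₀, ?_⟩, by omega, ?_, ?_⟩
      · have := (c2 v hv).2
        have := hwt v
        omega
      · have := hwt v₀
        omega
      · rw [hzw]
        exact hzex
      · intro y hy0 hyv hyex
        rw [hzw] at hyex
        have hyd : ∀ v : Fin n →₀ ℕ, dotH v ((y, 0) : GG n) = ∑ j, y j * (v j : ℤ) := fun v => rfl
        have hface : ∀ v ∈ f.support, dotH v z = dotH v₀ z → dotH v ((y, 0) : GG n) = 0 := by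
          intro v hv h
          rw [hyd]
          refine hyv v (Finset.mem_filter.2 ⟨hv, ?_⟩)
          have := hwt v
          omega
        obtain ⟨p, q, hp, hpq⟩ := MaxTight.proportional (lamR f K v₀ ex) (lamR_inj f K v₀ ex)
          ⟨hz0, hzC', hmax⟩ ((y, 0) : GG n) (by
            rintro (((j | v) | (j | _)) | i) hk
            · refine hy0 j ?_
              have h3 : z.1 j = 0 := hk
              have := hw j
              omega
            · simp only [lamR, Sum.elim_inl, lamF, AddMonoidHom.sub_apply] at hk ⊢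
              rw [hface v.1 v.2 (by omega), hface v₀ hv₀ rfl, sub_zero]
            · exfalso
              apply hA j
              simp only [lamR, Sum.elim_inl, lamF, AddMonoidHom.sub_apply,
                AddMonoidHom.smul_apply, muH_apply, coordH_apply, smul_eq_mul] at hk
              omega
            · simp only [lamR, Sum.elim_inl, lamF, AddMonoidHom.sub_apply, muH_apply]
              rw [hface v₀ hv₀ rfl, sub_zero]
            · exact hyex i hk)
        have h3 : p * 0 = q * z.2 := congrArg Prod.snd hpq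
        rw [mul_zero] at h3
        have h4 : q = 0 := by
          rcases mul_eq_zero.1 h3.symm with h | h
          · exact h
          · omega
        have h5 := congrArg Prod.fst hpq
        rw [h4, zero_smul] at h5
        change p • y = 0 at h5
        exact (smul_eq_zero.1 h5).resolve_left hp
    have h2 := hfac w N hfw
    intro h3
    apply h2
    have h4 : (∑ j, z.1 j + (z.2 - dotH v₀ z) + ∑ j, (c j : ℤ) * z.1 j : ℤ) =
        ((∑ j, (1 + c j) * w j : ℕ) : ℤ) := by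
      rw [hB, sub_self, add_zero]
      push_cast
      rw [← Finset.sum_add_distrib]
      refine Finset.sum_congr rfl fun j _ => ?_
      rw [hw]
      ring
    rw [h4, ← hN] at h3
    exact_mod_cast h3

end MR

open MR in
/-- Restricted version of `Zw_mem_regularAt`. -/
theorem ZwR_mem_regularAt {κ : Type} [Fintype κ] {f : MvPolynomial (Fin n) ℂ} (hf : f ≠ 0)
    {ε : ℕ} (hnd : ∀ a : Fin n → ℕ, (∀ j, ε ≤ a j) → NondegAt f (face f a (nuf f a)))
    {s₀ : ℚ} (h1 : s₀ ≠ -1) {K : ℕ} (hK : 1 ≤ K) (hKs : -s₀ < K) (c : Fin n → ℕ)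
    (ex : κ → GG n →+ ℤ) (hex : ∀ i, ex i ((0, 1) : GG n) = 0)
    (hfac : ∀ w N, IsFacetR f ex w N → ((∑ j, (1 + c j) * w j : ℕ) : ℚ) ≠ -s₀ * N) :
    ZwR f ε K c ex ∈ regularAt s₀ := by
  classical
  have hsum : ZwR f ε K c ex = ∑ p ∈ (f.support.powerset.filter Finset.Nonempty) ×ˢ
      (Finset.univ : Finset (Finset (Fin n))),
      (c0 f p.1 p.2 • genF (muH n) (W1.nuC (v0 p.1) c) (PQR f K ε p.1 p.2 0 ex) +
       c1 f p.1 p.2 • genF (muH n) (W1.nuC (v0 p.1) c) (PQR f K ε p.1 p.2 1 ex)) := by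
    ext m
    unfold ZwR
    rw [PowerSeries.coeff_mk, Finset.sum_filter, map_sum]
    have h2 := sum_box hf hK hnd m (fun a => if ∀ i, 1 ≤ ex i (emb m a) then
        ((LU ^ (-((∑ j, c j * a j : ℕ) : ℤ)) : Motˣ) : Mot) else 0)
    refine Eq.trans ?_ (h2.trans ?_)
    · refine Finset.sum_congr (by congr!) fun a _ => ?_
      split_ifs
      · rfl
      · rw [zero_mul]
    · refine Finset.sum_congr rfl fun p hp => ?_
      rw [Finset.mem_product, Finset.mem_filter, Finset.mem_powerset] at hp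
      obtain ⟨⟨hIf, hI⟩, -⟩ := hp
      rw [map_add, PowerSeries.coeff_smul, PowerSeries.coeff_smul, smul_eq_mul, smul_eq_mul,
        coeff_genFR hf hI hIf, coeff_genFR hf hI hIf]
  rw [hsum]
  refine Subalgebra.sum_mem _ fun p hp => ?_
  obtain ⟨I, S⟩ := p
  rw [Finset.mem_product, Finset.mem_filter, Finset.mem_powerset] at hp
  obtain ⟨⟨hIf, hI⟩, -⟩ := hp
  simp only at hIf hI ⊢
  have key : ∀ ty, genF (muH n) (W1.nuC (v0 I) c) (PQR f K ε I S ty ex) ∈ regularAt s₀ := by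
    intro ty
    unfold PQR
    have hpos : ∀ z ∈ PSet (lamR f K (v0 I) ex) (cR f K ε I S ty κ) (ER f I S ty κ),
        0 ≤ muH n z := by
      intro z hz
      have hz' := (mem_PSetR.1 hz).1
      rw [mem_PSet_iff] at hz'
      obtain ⟨h1, -, -, h4, -⟩ := hz'
      have hdot : 0 ≤ dotH (v0 I) z := by
        rw [dotH_apply]
        exact Finset.sum_nonneg fun j _ => mul_nonneg (le_trans (by positivity) (h1 j))
          (by positivity)
      rw [muH_apply]
      omega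
    refine genF_mem_regularAt _ (lamR_inj f K (v0 I) ex) (muH n) (W1.nuC (v0 I) c) s₀ _ _ hpos
      ?_ ?_
    · intro m
      rcases lt_or_ge m 0 with hm | hm
      · refine Set.Finite.subset Set.finite_empty ?_
        rintro z ⟨h2, h3⟩
        have := hpos z h2
        omega
      · obtain ⟨m, rfl⟩ := Int.eq_ofNat_of_zero_le hm
        have := PQR_fiber (K := K) (ε := ε) hf hI hIf S ty m ex
        unfold PQR at this
        rw [this]
        exact Set.toFinite _
    · intro z hz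
      exact ray_neR (hIf (v0_mem hI)) hKs h1 c ex hex hfac z hz
  exact Subalgebra.add_mem _ (Subalgebra.smul_mem _ (key 0) _) (Subalgebra.smul_mem _ (key 1) _)

end YX

end MPb07157
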