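import Pool.Agent.Lib.MP_b07157_agYX.Defs
import Pool.Agent.Lib.MP_b07157_agYX.MR1
import Pool.Agent.Lib.MP_b07157_agYP.Md1
import Pool.Agent.Lib.MP_b07157_agU.K1

/-!
# The models

The weight `(1, 0; 0, …, 0)` of `x^c (g + ∑ z_i^{e_i})` is excluded by the condition
`e_i ord z_i > A ord x`, so we use the restricted zeta functions of `MR1.lean`.
-/

noncomputable section

namespace MPb07157

open MvPolynomial

namespace YX

open PC SU M2h MR YP.Md1

variable {r : ℕ}

namespace MR

/-- The polynomial `x^c (g(x, y) + ∑ z_i^{e_i})`. -/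
def xg (g : MvPolynomial (Fin 2) ℂ) (e : Fin r → ℕ) (c : ℕ) : MvPolynomial (Fin (2 + r)) ℂ :=
  X (Fin.castAdd r 0) ^ c * susp g e

theorem xg_eq (g : MvPolynomial (Fin 2) ℂ) (e : Fin r → ℕ) (c : ℕ) :
    xg g e c = monomial (Finsupp.single (Fin.castAdd r 0) c) 1 * susp g e := by
  unfold xg
  rw [X_pow_eq_monomial]

/-- The condition `e_i ord z_i > A ord x`. -/
def exA (e : Fin r → ℕ) (A : ℕ) (i : Fin r) : GG (2 + r) →+ ℤ :=
  (e i : ℤ) • coordH (Fin.natAdd 2 i) - (A : ℤ) • coordH (Fin.castAdd r 0)

theorem exA_apply (e : Fin r → ℕ) (A : ℕ) (i : Fin r) (z : GG (2 + r)) :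
    exA e A i z = e i * z.1 (Fin.natAdd 2 i) - A * z.1 (Fin.castAdd r 0) := rfl

theorem exA_emb (e : Fin r → ℕ) (A : ℕ) (i : Fin r) (N : ℕ) (w : Fin (2 + r) → ℕ) :
    exA e A i (emb N w) = e i * w (Fin.natAdd 2 i) - A * w (Fin.castAdd r 0) := rfl

theorem wt_sx (w : Fin (2 + r) → ℕ) (c : ℕ) :
    wt w (Finsupp.single (Fin.castAdd r 0) c) = w (Fin.castAdd r 0) * c := by
  unfold wt
  rw [Finset.sum_eq_single (Fin.castAdd r 0), Finsupp.single_eq_same]
  · intro j _ hj
    rw [Finsupp.single_apply, if_neg (fun h => hj h.symm), mul_zero]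
  · intro h
    exact absurd (Finset.mem_univ _) h

theorem cast_ne_nat (j : Fin 2) (i : Fin r) : Fin.castAdd r j ≠ Fin.natAdd 2 i := by
  intro h
  have := congrArg Fin.val h
  simp at this
  omega

theorem wt2 (w : Fin (2 + r) → ℕ) (u : Fin 2 →₀ ℕ) :
    wt w (M1.emb r u) = w (Fin.castAdd r 0) * u 0 + w (Fin.castAdd r 1) * u 1 := by
  rw [M1.wt_emb]
  unfold wt
  rw [Fin.sum_univ_two]

theorem le_wt_emb {g : MvPolynomial (Fin 2) ℂ} {A : ℕ}
    (hgA : ∀ v ∈ g.support, A ≤ v 0 ∧ v ≠ ex A 0) (w : Fin (2 + r) → ℕ) {u : Fin 2 →₀ ℕ}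
    (hu : u ∈ g.support) : A * w (Fin.castAdd r 0) ≤ wt w (M1.emb r u) := by
  rw [wt2, mul_comm A]
  exact le_trans (Nat.mul_le_mul_left _ (hgA u hu).1) (Nat.le_add_right _ _)

theorem nu_sum (a : ℕ) (ha : 1 ≤ a) (w : Fin (2 + r) → ℕ) :
    ((∑ j, (1 + cw r a j) * w j : ℕ) : ℚ) =
      ((a * w (Fin.castAdd r 0) + w (Fin.castAdd r 1) : ℕ) : ℚ) +
        ∑ i, ((w (Fin.natAdd 2 i) : ℕ) : ℚ) := by
  rw [Fin.sum_univ_add]
  simp only [cw, Fin.append_left, Fin.append_right, Fin.sum_univ_two]
  have ha' : 1 + (a - 1) = a := by omega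
  simp only [Matrix.cons_val_zero, Matrix.cons_val_one, ha']
  push_cast
  simp only [one_mul]

theorem sum_z {e : Fin r → ℕ} (he : ∀ i, 0 < e i) {w : Fin (2 + r) → ℕ} {M : ℕ}
    (h : ∀ i, e i * w (Fin.natAdd 2 i) = M) :
    ∑ i, ((w (Fin.natAdd 2 i) : ℕ) : ℚ) = hn e * M := by
  have hzz : ∀ i, ((w (Fin.natAdd 2 i) : ℕ) : ℚ) = 1 / (e i : ℚ) * M := by
    intro i
    have h2 : (e i : ℚ) ≠ 0 := Nat.cast_ne_zero.2 (he i).ne'
    rw [← h i]
    push_cast
    field_simp
  rw [hn, Finset.sum_mul]
  exact Finset.sum_congr rfl fun i _ => hzz i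

/-- The facet weights of the restricted fan. -/
theorem facet {g : MvPolynomial (Fin 2) ℂ} (hg : g ≠ 0) {e : Fin r → ℕ}
    (he : ∀ i, 0 < e i) {s₀ : ℚ} {a c A : ℕ} (ha : 1 ≤ a)
    (hA : (a : ℚ) + c * s₀ + A * (s₀ + hn e) ≠ 0)
    (hgA : ∀ v ∈ g.support, A ≤ v 0 ∧ v ≠ ex A 0)
    (hfac : ∀ (w : Fin 2 → ℕ) (N : ℕ), IsFacetWt g w N →
      ((a * w 0 + w 1 : ℕ) : ℚ) + (c * w 0 : ℕ) * s₀ + (s₀ + hn e) * N ≠ 0)
    (w : Fin (2 + r) → ℕ) (N : ℕ) (hw : IsFacetR (xg g e c) (exA e A) w N) :
    ((∑ j, (1 + cw r a j) * w j : ℕ) : ℚ) ≠ -s₀ * N := by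
  classical
  obtain ⟨hmin, hN0, hnn, hsp⟩ := hw
  obtain ⟨u₀, hu₀⟩ := MvPolynomial.support_nonempty.2 hg
  rw [xg_eq] at hmin hsp
  set x : Fin (2 + r) := Fin.castAdd r 0 with hx
  set σ : Fin (2 + r) →₀ ℕ := Finsupp.single x c with hσ
  have hσw : wt w σ = w x * c := wt_sx w c
  obtain ⟨N', rfl⟩ : ∃ N', N = wt w σ + N' := by
    obtain ⟨-, v, hv, hvN⟩ := hmin
    obtain ⟨u, hu, rfl⟩ := mem_support_mono.1 hv
    exact ⟨wt w u, by rw [← hvN, wt_add]⟩
  obtain ⟨hm1, v₁, hv₁, hv₁N⟩ := isMinWt_mono.1 hmin
  have hnn' : ∀ i, A * w x ≤ e i * w (Fin.natAdd 2 i) := by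
    intro i
    have := hnn i
    rw [exA_emb] at this
    have h2 : ((A * w x : ℕ) : ℤ) ≤ ((e i * w (Fin.natAdd 2 i) : ℕ) : ℤ) := by
      push_cast
      linarith
    exact_mod_cast h2
  have hsp' : ∀ y : Fin (2 + r) → ℤ, (∀ j, w j = 0 → y j = 0) →
      (∀ v ∈ face (susp g e) w N', y x * c + ∑ j, y j * (v j : ℤ) = 0) →
      (∀ i, e i * w (Fin.natAdd 2 i) = A * w x → e i * y (Fin.natAdd 2 i) = A * y x) →
      y = 0 := by
    intro y hy hyv hye
    refine hsp y hy ?_ ?_
    · intro v hv
      obtain ⟨u, hu, rfl⟩ := mem_face_mono.1 hv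
      rw [← hyv u hu]
      simp only [Finsupp.add_apply, Nat.cast_add, mul_add, Finset.sum_add_distrib]
      congr 1
      rw [Finset.sum_eq_single x]
      · rw [hσ, Finsupp.single_eq_same]
      · intro j _ hj
        rw [hσ, Finsupp.single_apply, if_neg (fun h => hj h.symm), Nat.cast_zero, mul_zero]
      · intro h
        exact absurd (Finset.mem_univ _) h
    · intro i hi
      rw [exA_emb] at hi
      rw [exA_apply]
      have h2 : ((e i * w (Fin.natAdd 2 i) : ℕ) : ℤ) = ((A * w x : ℕ) : ℤ) := by
        push_cast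
        linarith
      have h3 := hye i (by exact_mod_cast h2)
      show (e i : ℤ) * y (Fin.natAdd 2 i) - A * y x = 0
      linarith
  have hge : ∀ i, N' ≤ e i * w (Fin.natAdd 2 i) := by
    intro i
    rw [mul_comm, ← M1.wt_single w i (e i)]
    apply hm1
    rw [mem_support_iff, M1.coeff_susp_single g he i]
    exact one_ne_zero
  have hgem : ∀ u ∈ g.support, N' ≤ wt w (M1.emb r u) := by
    intro u hu
    apply hm1
    rw [mem_support_iff, M1.coeff_susp_emb g he]
    exact mem_support_iff.1 hu
  have hN'A : A * w x ≤ N' := by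
    rw [← hv₁N]
    rw [M1.support_susp g he, Finset.mem_union, Finset.mem_image, Finset.mem_image] at hv₁
    rcases hv₁ with ⟨u, hu, rfl⟩ | ⟨i, -, rfl⟩
    · exact le_wt_emb hgA w hu
    · rw [M1.wt_single, mul_comm (w _)]
      exact hnn' i
  -- the weights of the `z_i`
  have hzN : ∀ i, e i * w (Fin.natAdd 2 i) = N' := by
    intro i
    by_contra hne
    have hgt : N' < e i * w (Fin.natAdd 2 i) := lt_of_le_of_ne (hge i) fun h => hne h.symm
    have hw0 : w (Fin.natAdd 2 i) ≠ 0 := by
      intro h
      rw [h, mul_zero] at hgt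
      omega
    have hyx : (if x = Fin.natAdd 2 i then (1 : ℤ) else 0) = 0 := by
      rw [if_neg]
      exact cast_ne_nat 0 i
    have := hsp' (fun j => if j = Fin.natAdd 2 i then 1 else 0) ?_ ?_ ?_
    · have h2 := congrFun this (Fin.natAdd 2 i)
      simp at h2
    · intro j hj
      rw [if_neg]
      rintro rfl
      exact hw0 hj
    · intro v' hv'
      rw [M1.face_eq g he, Finset.mem_union, Finset.mem_image, Finset.mem_image] at hv'
      have : v' (Fin.natAdd 2 i) = 0 := by
        rcases hv' with ⟨u, -, rfl⟩ | ⟨i', hi', rfl⟩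
        · exact M1.emb_natAdd u i
        · rw [Finsupp.single_apply, if_neg]
          intro h
          rw [M1.single_natAdd_inj] at h
          subst h
          apply hne
          rw [mul_comm]
          exact (Finset.mem_filter.1 hi').2
      rw [hyx, zero_mul, zero_add, Finset.sum_eq_single (Fin.natAdd 2 i), this]
      · simp
      · intro j _ hj
        rw [if_neg hj, zero_mul]
      · intro h
        exact absurd (Finset.mem_univ _) h
    · intro i' hi'
      simp only [hyx, mul_zero]
      rw [if_neg, mul_zero]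
      rw [M1.single_natAdd_inj]
      rintro rfl
      omega
  have hsz := sum_z he hzN
  rcases Nat.lt_or_ge (A * w x) N' with hlt | hle
  · -- a facet weight of `g`
    have hnot : ∀ i, e i * w (Fin.natAdd 2 i) ≠ A * w x := fun i h => by
      rw [hzN i] at h
      omega
    have hex : ∃ u ∈ g.support, wt (fun j => w (Fin.castAdd r j)) u = N' := by
      by_contra hne
      push Not at hne
      have hface : ∀ v' ∈ face (susp g e) w N', ∃ i, v' = Finsupp.single (Fin.natAdd 2 i) (e i) := by
        intro v' hv'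
        rw [M1.face_eq g he, Finset.mem_union, Finset.mem_image, Finset.mem_image] at hv'
        rcases hv' with ⟨u, hu, rfl⟩ | ⟨i', hi', rfl⟩
        · exact absurd (Finset.mem_filter.1 hu).2 (hne u (Finset.mem_filter.1 hu).1)
        · exact ⟨i', rfl⟩
      have hwy : w (Fin.castAdd r 1) = 0 := by
        by_contra hwy
        have hyx : (if x = Fin.castAdd r 1 then (1 : ℤ) else 0) = 0 := by
          rw [if_neg]
          intro h
          have := congrArg Fin.val h
          simp [hx] at this
        have := hsp' (fun j => if j = Fin.castAdd r 1 then 1 else 0) ?_ ?_ ?_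
        · have h2 := congrFun this (Fin.castAdd r 1)
          simp at h2
        · intro j hj
          rw [if_neg]
          rintro rfl
          exact hwy hj
        · intro v' hv'
          obtain ⟨i, rfl⟩ := hface v' hv'
          rw [hyx, zero_mul, zero_add, Finset.sum_eq_single (Fin.castAdd r 1),
            Finsupp.single_apply, if_neg (cast_ne_nat 1 i).symm, Nat.cast_zero, mul_zero]
          · intro j _ hj
            rw [if_neg hj, zero_mul]
          · intro h
            exact absurd (Finset.mem_univ _) h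
        · intro i hi
          exact absurd hi (hnot i)
      have hwx : w x ≠ 0 := by
        intro h0
        have h2 := hgem u₀ hu₀
        rw [wt2, ← hx, h0, hwy] at h2
        omega
      have := hsp' (fun j => if j = x then (N' : ℤ) else if j = Fin.castAdd r 1 then 0 else
        -((c : ℤ) * w j)) ?_ ?_ ?_
      · have h2 := congrFun this x
        simp at h2
        omega
      · intro j hj
        have h3 : j ≠ x := by
          rintro rfl
          exact hwx hj
        rw [if_neg h3, hj]
        simp
      · intro v' hv'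
        obtain ⟨i, rfl⟩ := hface v' hv'
        rw [if_pos rfl, Finset.sum_eq_single (Fin.natAdd 2 i)]
        · rw [if_neg (cast_ne_nat 0 i).symm, if_neg (cast_ne_nat 1 i).symm,
            Finsupp.single_eq_same]
          have h3 : ((e i * w (Fin.natAdd 2 i) : ℕ) : ℤ) = N' := by rw [hzN i]
          push_cast at h3
          linear_combination (-(c : ℤ)) * h3
        · intro j _ hj
          have h0 : (Finsupp.single (Fin.natAdd 2 i) (e i) : Fin (2 + r) →₀ ℕ) j = 0 := by
            rw [Finsupp.single_apply, if_neg (fun h => hj h.symm)]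
          rw [h0, Nat.cast_zero, mul_zero]
        · intro h
          exact absurd (Finset.mem_univ _) h
      · intro i hi
        exact absurd hi (hnot i)
    obtain ⟨u₁, hu₁, hu₁N⟩ := hex
    have hfw : IsFacetWt g (fun j => w (Fin.castAdd r j)) N' := by
      refine ⟨⟨fun u hu => ?_, u₁, hu₁, hu₁N⟩, by omega, ?_⟩
      · rw [← M1.wt_emb]
        exact hgem u hu
      · intro y hy hy'
        have hN : ((wt w σ + N' : ℕ) : ℤ) ≠ 0 := by exact_mod_cast hN0.ne'
        have h0 := hsp' (fun j => ((wt w σ + N' : ℕ) : ℤ) *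
          (Fin.append y (fun _ : Fin r => (0 : ℤ)) j) - (y 0 * c) * w j) ?_ ?_ ?_
        · have hj : ∀ j : Fin 2, ((wt w σ + N' : ℕ) : ℤ) * y j =
              (y 0 * c) * w (Fin.castAdd r j) := by
            intro j
            have h2 := congrFun h0 (Fin.castAdd r j)
            simp only [Fin.append_left, Pi.zero_apply] at h2
            linarith
          have hy1 := hy' u₁ (Finset.mem_filter.2 ⟨hu₁, hu₁N⟩)
          rw [Fin.sum_univ_two] at hy1
          have hu₂ : (w (Fin.castAdd r 0) : ℤ) * u₁ 0 + w (Fin.castAdd r 1) * u₁ 1 = N' := by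
            unfold wt at hu₁N
            rw [Fin.sum_univ_two] at hu₁N
            exact_mod_cast hu₁N
          have h3 : (y 0 * c) * (N' : ℤ) = 0 := by
            rw [← hu₂]
            linear_combination (-(u₁ 0 : ℤ)) * hj 0 - (u₁ 1 : ℤ) * hj 1 +
              ((wt w σ + N' : ℕ) : ℤ) * hy1
          have hN'0 : (N' : ℤ) ≠ 0 := by
            have : 0 < N' := by omega
            exact_mod_cast this.ne'
          have h4 : y 0 * (c : ℤ) = 0 := (mul_eq_zero.1 h3).resolve_right hN'0
          funext j
          have h5 := hj j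
          rw [h4, zero_mul] at h5
          exact (mul_eq_zero.1 h5).resolve_left hN
        · intro j
          refine Fin.addCases (fun j => ?_) (fun i => ?_) j
          · intro h
            rw [Fin.append_left, hy j h, h]
            simp
          · intro h
            rw [Fin.append_right, h]
            simp
        · intro v' hv'
          have hv'' := hv'
          rw [M1.face_eq g he, Finset.mem_union, Finset.mem_image, Finset.mem_image] at hv'
          have hwv : ∑ j, (w j : ℤ) * (v' j : ℤ) = N' := by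
            have := (Finset.mem_filter.1 hv'').2
            unfold wt at this
            exact_mod_cast this
          have hyv : ∑ j, (Fin.append y (fun _ : Fin r => (0 : ℤ)) j) * (v' j : ℤ) = 0 := by
            rw [Fin.sum_univ_add]
            simp only [Fin.append_left, Fin.append_right, zero_mul, Finset.sum_const_zero,
              add_zero]
            rcases hv' with ⟨u, hu, rfl⟩ | ⟨i', hi', rfl⟩
            · simp only [M1.emb_castAdd]
              exact hy' u hu
            · apply Finset.sum_eq_zero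
              intro j _
              rw [Finsupp.single_apply, if_neg (cast_ne_nat j i').symm, Nat.cast_zero, mul_zero]
          have h6 : ∀ j, (((wt w σ + N' : ℕ) : ℤ) *
              (Fin.append y (fun _ : Fin r => (0 : ℤ)) j) - (y 0 * c) * w j) * (v' j : ℤ) =
              ((wt w σ + N' : ℕ) : ℤ) * ((Fin.append y (fun _ : Fin r => (0 : ℤ)) j) *
                (v' j : ℤ)) - (y 0 * c) * ((w j : ℤ) * (v' j : ℤ)) := fun j => by ring
          rw [Finset.sum_congr rfl fun j _ => h6 j, Finset.sum_sub_distrib, ← Finset.mul_sum,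
            ← Finset.mul_sum, hyv, hwv, hx, Fin.append_left, ← hx, hσw]
          push_cast
          ring
        · intro i hi
          exact absurd hi (hnot i)
    have hf := hfac _ _ hfw
    rw [nu_sum a ha w, hsz, hσw]
    intro h
    apply hf
    push_cast at h ⊢
    rw [← hx] at h ⊢
    linear_combination h
  · -- the boundary of the region
    have hN'e : N' = A * w x := le_antisymm hle hN'A
    have hwx : 0 < w x := by
      rcases Nat.eq_zero_or_pos (w x) with h | h
      · exfalso
        rw [hσw, hN'e, h] at hN0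
        simp at hN0
      · exact h
    have hwy : w (Fin.castAdd r 1) = 0 := by
      by_contra hwy
      have hyx : (if x = Fin.castAdd r 1 then (1 : ℤ) else 0) = 0 := by
        rw [if_neg]
        intro h
        have := congrArg Fin.val h
        simp [hx] at this
      have := hsp' (fun j => if j = Fin.castAdd r 1 then 1 else 0) ?_ ?_ ?_
      · have h2 := congrFun this (Fin.castAdd r 1)
        simp at h2
      · intro j hj
        rw [if_neg]
        rintro rfl
        exact hwy hj
      · intro v' hv'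
        rw [M1.face_eq g he, Finset.mem_union, Finset.mem_image, Finset.mem_image] at hv'
        have hv0 : v' (Fin.castAdd r 1) = 0 := by
          rcases hv' with ⟨u, hu, rfl⟩ | ⟨i', hi', rfl⟩
          · rw [M1.emb_castAdd]
            by_contra h1
            obtain ⟨hus, huN⟩ := Finset.mem_filter.1 hu
            unfold wt at huN
            rw [Fin.sum_univ_two] at huN
            change w (Fin.castAdd r 0) * u 0 + w (Fin.castAdd r 1) * u 1 = N' at huN
            rw [← hx, hN'e] at huN
            have h2 := Nat.mul_le_mul_left (w x) (hgA u hus).1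
            have h3 : 0 < w (Fin.castAdd r 1) * u 1 :=
              Nat.mul_pos (Nat.pos_of_ne_zero hwy) (Nat.pos_of_ne_zero h1)
            rw [mul_comm A] at huN
            omega
          · rw [Finsupp.single_apply, if_neg (cast_ne_nat 1 i').symm]
        rw [hyx, zero_mul, zero_add, Finset.sum_eq_single (Fin.castAdd r 1), hv0]
        · simp
        · intro j _ hj
          rw [if_neg hj, zero_mul]
        · intro h
          exact absurd (Finset.mem_univ _) h
      · intro i _
        simp only [hyx, mul_zero]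
        rw [if_neg (cast_ne_nat 1 i).symm, mul_zero]
    rw [nu_sum a ha w, hsz, hσw, hwy, hN'e]
    intro h
    apply hA
    have hwx' : (w x : ℚ) ≠ 0 := Nat.cast_ne_zero.2 hwx.ne'
    apply mul_left_cancel₀ hwx'
    push_cast at h
    rw [← hx] at h
    linear_combination h

end MR

end YX

end MPb07157
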