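import Pool.Agent.Lib.MP_b07157_agYX.MR

/-!
# The zeta functions of the models
-/

noncomputable section

namespace MPb07157

open MvPolynomial

namespace YX

open PC SU M2h MR

variable {r : ℕ}

namespace MR

/-- The arcs with `e_i ord z_i > n`. -/
def RgG (e : Fin r → ℕ) (N n : ℕ) : Set (Fin (2 + r) × Fin N → ℂ) :=
  {γ | ∀ i, ∀ j : Fin N, e i * (j : ℕ) ≤ n → γ (Fin.natAdd 2 i, j) = 0}

open Classical in
theorem arcs_XR (f : MvPolynomial (Fin (2 + r)) ℂ) {e : Fin r → ℕ} (he : ∀ i, 0 < e i)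
    {N m k A : ℕ} (hN : 1 ≤ N) (hk : k ≤ N) (hA : A * k < N) :
    arcs f N m ∩ Start (2 + r) 1 N ∩ (Xg r N k ∩ RgG e N (A * k)) =
      ⋃ a ∈ ((Fintype.piFinset (fun _ : Fin (2 + r) => Finset.Icc 1 N)).filter
        (fun a => ∀ i, 1 ≤ exA e A i (emb m a))).filter (fun a => a (Fin.castAdd r 0) = k),
          (arcs f N m ∩ Strat N a) := by
  rw [arcs_eq_iUnion f m hN]
  ext γ
  simp only [Set.mem_inter_iff, Set.mem_iUnion, exists_prop, Finset.mem_filter]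
  constructor
  · rintro ⟨⟨a, ha, h1, h2⟩, h3, h5⟩
    have h4 := (Finset.mem_Icc.1 (Fintype.mem_piFinset.1 ha (Fin.castAdd r 0))).2
    have h6 : a (Fin.castAdd r 0) = k := Xg_eq h4 hk (Strat_subset_Xg a h2) h3
    refine ⟨a, ⟨⟨ha, fun i => ?_⟩, h6⟩, h1, h2⟩
    rw [exA_emb, h6]
    by_contra hcon
    have h7 : ((e i * a (Fin.natAdd 2 i) : ℕ) : ℤ) ≤ ((A * k : ℕ) : ℤ) := by
      push_cast
      omega
    have h8 : e i * a (Fin.natAdd 2 i) ≤ A * k := by exact_mod_cast h7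
    have h9 : a (Fin.natAdd 2 i) < N :=
      lt_of_le_of_lt (Nat.le_mul_of_pos_left _ (he i)) (lt_of_le_of_lt h8 hA)
    have h10 := h2.2 _ h9
    unfold lead0 at h10
    rw [dif_pos h9] at h10
    exact h10 (h5 i ⟨_, h9⟩ h8)
  · rintro ⟨a, ⟨⟨ha, ha3⟩, ha2⟩, h1, h2⟩
    refine ⟨⟨a, ha, h1, h2⟩, ?_, ?_⟩
    · rw [← ha2]
      exact Strat_subset_Xg a h2
    · intro i j hj
      refine h2.1 _ j ?_
      have h7 := ha3 i
      rw [exA_emb, ha2] at h7
      have h8 : ((A * k : ℕ) : ℤ) < ((e i * a (Fin.natAdd 2 i) : ℕ) : ℤ) := by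
        push_cast
        omega
      have h9 : A * k < e i * a (Fin.natAdd 2 i) := by exact_mod_cast h8
      exact Nat.lt_of_mul_lt_mul_left (lt_of_le_of_lt hj h9)

open Classical in
theorem clsM_arcs_XR (f : MvPolynomial (Fin (2 + r)) ℂ) {e : Fin r → ℕ} (he : ∀ i, 0 < e i)
    {N m k A : ℕ} (hN : 1 ≤ N) (hk : k ≤ N) (hA : A * k < N) :
    clsM (arcs f N m ∩ Start (2 + r) 1 N ∩ (Xg r N k ∩ RgG e N (A * k))) =
      ∑ a ∈ ((Fintype.piFinset (fun _ : Fin (2 + r) => Finset.Icc 1 N)).filter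
        (fun a => ∀ i, 1 ≤ exA e A i (emb m a))).filter (fun a => a (Fin.castAdd r 0) = k),
          clsM (arcs f N m ∩ Strat N a) := by
  unfold clsM
  rw [arcs_XR f he hN hk hA, cls_biUnion, map_sum]
  · intro a _
    exact (isConstr_arcs f N m).inter (isConstr_Strat N a)
  · intro a ha b hb hab
    rw [Finset.mem_filter, Finset.mem_filter, Fintype.mem_piFinset] at ha hb
    exact (disjoint_Strat (fun j => (Finset.mem_Icc.1 (ha.1.1 j)).2)
      (fun j => (Finset.mem_Icc.1 (hb.1.1 j)).2) hab).mono Set.inter_subset_right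
      Set.inter_subset_right

/-- The order of `x^c (g + ∑ z_i^{e_i})`. -/
theorem order_xg (g : MvPolynomial (Fin 2) ℂ) (e : Fin r → ℕ) (c : ℕ) {N k : ℕ} (hk : k < N)
    {x : Fin (2 + r) × Fin N → ℂ} (hx : x ∈ Xg r N k) (m : ℕ) :
    (aeval (arc x) (xg g e c) : PowerSeries ℂ).order = (c * k + m : ℕ) ↔
      (aeval (arc x) (susp g e) : PowerSeries ℂ).order = m := by
  obtain ⟨U, hU, hU0⟩ : ∃ U : PowerSeries ℂ, arc x (Fin.castAdd r 0) = PowerSeries.X ^ k * U ∧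
      PowerSeries.constantCoeff U ≠ 0 := by
    have h1 : (PowerSeries.X : PowerSeries ℂ) ^ k ∣ arc x (Fin.castAdd r 0) := by
      rw [PowerSeries.X_pow_dvd_iff]
      intro l hl
      rw [coeff_arc]
      split_ifs with h
      · exact hx.1 ⟨l, h⟩ hl
      · rfl
    obtain ⟨U, hU⟩ := h1
    refine ⟨U, hU, ?_⟩
    have h2 : PowerSeries.coeff k (arc x (Fin.castAdd r 0)) ≠ 0 := by
      rw [coeff_arc, dif_pos hk]
      exact hx.2 hk
    rw [hU, PowerSeries.coeff_X_pow_mul', if_pos le_rfl, Nat.sub_self,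
      PowerSeries.coeff_zero_eq_constantCoeff_apply] at h2
    exact h2
  have h1 : (aeval (arc x) (xg g e c) : PowerSeries ℂ) =
      PowerSeries.X ^ (c * k) * (U ^ c * aeval (arc x) (susp g e)) := by
    unfold xg
    rw [map_mul, map_pow, aeval_X, hU, mul_pow, ← pow_mul, mul_comm k c, mul_assoc]
  have h2 : U.order = 0 := by
    have h3 := (PowerSeries.order_eq_nat (φ := U) (n := 0)).2
      ⟨by rw [PowerSeries.coeff_zero_eq_constantCoeff_apply]; exact hU0, fun i hi => by omega⟩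
    simpa using h3
  have h3 : (U ^ c).order = 0 := by rw [PowerSeries.order_pow, h2, smul_zero]
  rw [h1, PowerSeries.order_mul, PowerSeries.order_mul, h3, zero_add, PowerSeries.order_X_pow,
    Nat.cast_add]
  exact (ENat.add_right_injective_of_ne_top (ENat.natCast_ne_top (c * k))).eq_iff

/-- The sets of jets in the two notations. -/
theorem eqv_jsetR (g : MvPolynomial (Fin 2) ℂ) {e : Fin r → ℕ} {N m k c n : ℕ}
    (hk : k < N) (hck : c * k ≤ m) :
    {x : Fin (2 + r) × Fin N → ℂ | (fun i => x (eqv r N i)) ∈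
      jset (g : P2) e N (m - c * k) (Start 2 1 N ∩ Xo N k) (Rg e N n)} =
      arcs (xg g e c) N m ∩ Start (2 + r) 1 N ∩ (Xg r N k ∩ RgG e N n) := by
  ext x
  simp only [jset, Set.mem_ofPred_eq, val_eqv, Set.mem_inter_iff, arcs]
  have hZ : zP (fun i => x (eqv r N i)) ∈ Rg e N n ↔ x ∈ RgG e N n := Iff.rfl
  have hS : x ∈ RgG e N n → ((xyP (fun i => x (eqv r N i)) ∈ Start 2 1 N) ↔
      x ∈ Start (2 + r) 1 N) := by
    intro hx
    constructor
    · intro h1 i l hl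
      induction i using Fin.addCases with
      | left i => exact h1 i l hl
      | right i =>
        refine hx i l ?_
        have : (l : ℕ) = 0 := by omega
        rw [this, mul_zero]
        exact Nat.zero_le _
    · exact fun h i l hl => h _ l hl
  have hX : xyP (fun i => x (eqv r N i)) ∈ Xo N k ↔ x ∈ Xg r N k := Iff.rfl
  rw [hZ, hX]
  constructor
  · rintro ⟨⟨h1, h2⟩, h3, h4⟩
    refine ⟨⟨?_, (hS h3).1 h1⟩, h2, h3⟩
    have h5 := (order_xg g e c hk h2 (m - c * k)).2 h4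
    rwa [Nat.add_sub_cancel' hck] at h5
  · rintro ⟨⟨h1, h2⟩, h3, h4⟩
    refine ⟨⟨(hS h4).2 h2, h3⟩, h4, (order_xg g e c hk h3 (m - c * k)).1 ?_⟩
    rw [Nat.add_sub_cancel' hck]
    exact h1

theorem clsM_jsetR (g : MvPolynomial (Fin 2) ℂ) {e : Fin r → ℕ} {N m k c n : ℕ}
    (hm : m < N) (hk : k < N) (hck : c * k ≤ m) :
    clsM (arcs (xg g e c) N m ∩ Start (2 + r) 1 N ∩ (Xg r N k ∩ RgG e N n)) =
      clsM (jset (g : P2) e N (m - c * k) (Start 2 1 N ∩ Xo N k) (Rg e N n)) := by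
  have hc : IsConstr (jset (g : P2) e N (m - c * k) (Start 2 1 N ∩ Xo N k) (Rg e N n)) :=
    isConstr_jset (g : P2) e (lt_of_le_of_lt (Nat.sub_le _ _) hm)
      ((isConstr_Start 2 1 N).inter (isConstr_Xo N k)) Set.inter_subset_left (isConstr_Rg e N n)
  unfold clsM
  rw [← eqv_jsetR g hk hck, cls_equiv (eqv r N) hc]

theorem xg_ne_zero {g : MvPolynomial (Fin 2) ℂ} (hg : g ≠ 0) {e : Fin r → ℕ}
    (he : ∀ i, 0 < e i) (c : ℕ) : xg g e c ≠ 0 := by
  unfold xg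
  exact mul_ne_zero (pow_ne_zero _ (X_ne_zero _)) (YP.Md1.susp_ne_zero' hg he)

theorem xg_nondeg {g : MvPolynomial (Fin 2) ℂ} (hg : g ≠ 0) {e : Fin r → ℕ}
    (he : ∀ i, 0 < e i) (hnd : ∀ a : Fin 2 → ℕ, (∀ j, 1 ≤ a j) → NondegAt g (face g a (nuf g a)))
    (c : ℕ) (b : Fin (2 + r) → ℕ) (hb : ∀ j, 1 ≤ b j) :
    NondegAt (xg g e c) (face (xg g e c) b (nuf (xg g e c) b)) := by
  rw [xg_eq]
  exact YP.Md1.nondeg_mono (YP.Md1.susp_ne_zero' hg he) _ b (YP.Md1.susp_nondeg hg he hnd b hb)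

/-- The strata far away. -/
theorem clsM_far {g : MvPolynomial (Fin 2) ℂ} (hg : g ≠ 0) {e : Fin r → ℕ}
    (he : ∀ i, 0 < e i) (hnd : ∀ a : Fin 2 → ℕ, (∀ j, 1 ≤ a j) → NondegAt g (face g a (nuf g a)))
    {A c : ℕ} (hgA : ∀ v ∈ g.support, A ≤ v 0 ∧ v ≠ ex A 0) {N m : ℕ} (hm : m < N)
    {b : Fin (2 + r) → ℕ} (hb1 : ∀ j, 1 ≤ b j) (hbN : ∀ j, b j ≤ N)
    (hbR : ∀ i, 1 ≤ exA e A i (emb m b))
    (h : m < c * b (Fin.castAdd r 0) ∨ m < A * b (Fin.castAdd r 0)) :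
    (((LU ^ ((2 + r) * N))⁻¹ : Motˣ) : Mot) * clsM (arcs (xg g e c) N m ∩ Strat N b) = 0 := by
  have hlt : m < nuf (xg g e c) b := by
    obtain ⟨-, v, hv, hvN⟩ := isMinWt_nuf (xg_ne_zero hg he c) b
    rw [← hvN]
    rw [xg_eq] at hv
    obtain ⟨u, hu, rfl⟩ := YP.Md1.mem_support_mono.1 hv
    rw [YP.Md1.wt_add, wt_sx]
    rcases h with h | h
    · rw [mul_comm] at h
      omega
    · have h2 : A * b (Fin.castAdd r 0) ≤ wt b u := by
        rw [M1.support_susp g he, Finset.mem_union, Finset.mem_image, Finset.mem_image] at hu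
        rcases hu with ⟨u', hu', rfl⟩ | ⟨i, -, rfl⟩
        · exact le_wt_emb hgA b hu'
        · rw [M1.wt_single]
          have h3 := hbR i
          rw [exA_emb] at h3
          have h4 : ((A * b (Fin.castAdd r 0) : ℕ) : ℤ) ≤
              ((b (Fin.natAdd 2 i) * e i : ℕ) : ℤ) := by
            push_cast
            linarith
          exact_mod_cast h4
      omega
  rw [clsM_stratum (xg_ne_zero hg he c) hm hbN (xg_nondeg hg he hnd c b hb1),
    if_neg hlt.ne', if_neg (by omega)]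

/-- The zeta function of a model. -/
theorem ZX_eq_ZwR {g : MvPolynomial (Fin 2) ℂ} (hg : g ≠ 0) {e : Fin r → ℕ}
    (he : ∀ i, 0 < e i) (hnd : ∀ a : Fin 2 → ℕ, (∀ j, 1 ≤ a j) → NondegAt g (face g a (nuf g a)))
    {A : ℕ} (hgA : ∀ v ∈ g.support, A ≤ v 0 ∧ v ≠ ex A 0) {a c : ℕ} (hc : 1 ≤ c)
    {K : ℕ} (hK : 1 ≤ K) :
    ZX (g : P2) e a c A K = ZwR (xg g e c) 1 K (cw r a) (exA e A) := by
  classical
  ext m
  have hm : m < K * (m + 1) := by nlinarith
  unfold ZX ZwR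
  rw [PowerSeries.coeff_mk, PowerSeries.coeff_mk]
  set N := K * (m + 1) with hN
  refine Eq.trans ?_ (Finset.sum_congr (s₁ := (Fintype.piFinset
    (fun _ : Fin (2 + r) => Finset.Icc 1 N)).filter (fun a => ∀ i, 1 ≤ exA e A i (emb m a)))
    (by congr!) fun _ _ => rfl)
  rw [← Finset.sum_fiberwise_of_maps_to (s := (Fintype.piFinset
    (fun _ : Fin (2 + r) => Finset.Icc 1 N)).filter (fun a => ∀ i, 1 ≤ exA e A i (emb m a)))
    (g := fun b : Fin (2 + r) → ℕ => b (Fin.castAdd r 0)) (t := Finset.Icc 1 N)]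
  swap
  · intro b hb
    exact Fintype.mem_piFinset.1 (Finset.mem_filter.1 hb).1 _
  refine Finset.sum_congr rfl fun k hk => ?_
  rw [Finset.mem_Icc] at hk
  by_cases hfar : m < c * k ∨ m < A * k
  · have h0 : ∑ b ∈ ((Fintype.piFinset (fun _ : Fin (2 + r) => Finset.Icc 1 N)).filter
        (fun a => ∀ i, 1 ≤ exA e A i (emb m a))).filter (fun b => b (Fin.castAdd r 0) = k),
        ((LU ^ (-((∑ j, cw r a j * b j : ℕ) : ℤ)) : Motˣ) : Mot) *
        (((LU ^ ((2 + r) * N))⁻¹ : Motˣ) * clsM (arcs (xg g e c) N m ∩ Strat N b)) = 0 := by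
      refine Finset.sum_eq_zero fun b hb => ?_
      rw [Finset.mem_filter, Finset.mem_filter, Fintype.mem_piFinset] at hb
      obtain ⟨⟨hb1, hbR⟩, hbk⟩ := hb
      rw [clsM_far hg he hnd hgA hm (fun j => (Finset.mem_Icc.1 (hb1 j)).1)
        (fun j => (Finset.mem_Icc.1 (hb1 j)).2) hbR (by rw [hbk]; exact hfar), mul_zero]
    rw [h0]
    by_cases hck : c * k ≤ m
    · have hAk : m < A * k := by
        rcases hfar with h | h
        · omega
        · exact h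
      have hd : MvPowerSeries.X 0 ^ A ∣ (g : P2) := by
        rw [MvPowerSeries.X_pow_dvd_iff]
        intro v hv
        rw [MvPolynomial.coeff_coe]
        by_contra h
        have := (hgA v (mem_support_iff.2 h)).1
        omega
      rw [if_pos hck, K1.muJ_far hd he hk.1 (lt_of_le_of_lt (Nat.sub_le _ _) hm)
        (lt_of_le_of_lt (Nat.sub_le _ _) hAk), mul_zero]
    · rw [if_neg hck]
  · push Not at hfar
    obtain ⟨hck, hAk⟩ := hfar
    have hkm : k ≤ m := le_trans (Nat.le_mul_of_pos_left k hc) hck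
    have hkN : k < N := lt_of_le_of_lt hkm hm
    rw [if_pos hck]
    unfold muJ mJ
    rw [← clsM_jsetR g hm hkN hck, clsM_arcs_XR (xg g e c) he (by omega) hkN.le
      (lt_of_le_of_lt hAk hm), Finset.mul_sum, Finset.mul_sum]
    refine Finset.sum_congr rfl fun b hb => ?_
    rw [Finset.mem_filter] at hb
    rw [cw_sum, hb.2]
    rfl

end MR

/-- **The models.** -/
theorem ZX_model_mem {g : MvPolynomial (Fin 2) ℂ} (hg : g ≠ 0) {e : Fin r → ℕ}
    (he : ∀ i, 0 < e i) (hnd : ∀ a : Fin 2 → ℕ, (∀ j, 1 ≤ a j) → NondegAt g (face g a (nuf g a)))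
    {s₀ : ℚ} (h1 : s₀ ≠ -1) {K : ℕ} (hK : 1 ≤ K) (hKs : -s₀ < K) {a c A : ℕ} (ha : 1 ≤ a)
    (hc : 1 ≤ c) (hA : (a : ℚ) + c * s₀ + A * (s₀ + hn e) ≠ 0)
    (hgA : ∀ v ∈ g.support, A ≤ v 0 ∧ v ≠ ex A 0)
    (hfac : ∀ (w : Fin 2 → ℕ) (N : ℕ), IsFacetWt g w N →
      ((a * w 0 + w 1 : ℕ) : ℚ) + (c * w 0 : ℕ) * s₀ + (s₀ + hn e) * N ≠ 0) :
    ZX (g : P2) e a c A K ∈ regularAt s₀ := by
  rw [ZX_eq_ZwR hg he hnd hgA hc hK]
  refine ZwR_mem_regularAt (xg_ne_zero hg he c) (xg_nondeg hg he hnd c) h1 hK hKs _ _ ?_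
    (fun w N hw => facet hg he ha hA hgA hfac w N hw)
  intro i
  rw [exA_apply]
  simp

end YX

end MPb07157
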